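import Pool.Agent.H11.EM.Desc

/-! Project EM: the descent. -/

set_option autoImplicit false
set_option linter.unusedSectionVars false

namespace Pool.Agent.H11.EM

open Polynomial NumberField IsDedekindDomain Pool.Agent.Q239.EL
open Pool.Agent.Q51.EL (Abv Par N1 pr CovPt Setup hom CurvePt)

theorem desc : S_DESC := by
  classical
  intro K _ _ f L _ _ θ hs heven hn3 t ht
  have hun := fun k => Pool.Agent.Q239.EL.un (L k)
  have hcl := fun k => Pool.Agent.Q239.EL.cl (L k)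
  choose Cu hCu hun' using hun
  choose Bc Cc hBc hCc hcl' using hcl
  obtain ⟨Bs, hBs, hsc'⟩ := scm hs heven
  obtain ⟨Bd, hBd, hsd'⟩ := sdm hs hn3
  obtain ⟨Br, hBr, -, hBr', -⟩ := rootm hs
  set B : ℕ := (∏ k, Bc k) * Bs * Bd * Br with hB
  have hB0 : B ≠ 0 := mul_ne_zero (mul_ne_zero (mul_ne_zero
    (Finset.prod_ne_zero_iff.2 fun k _ => hBc k) hBs) hBd) hBr
  have hBcB : ∀ k, Bc k ∣ B := fun k => Dvd.dvd.mul_right (Dvd.dvd.mul_right (Dvd.dvd.mul_right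
    (Finset.dvd_prod_of_mem _ (Finset.mem_univ k)) _) _) _
  have h1f := fun k => onefield (hCu k) (hCc k) hB0 (hBcB k) (hun' k) (hcl' k)
  choose C0 hC0 h1f' using h1f
  refine ⟨B, ∑ k, C0 k, hB0, Finset.sum_pos (fun k _ => hC0 k) Finset.univ_nonempty, ?_⟩
  rintro D hD ⟨d, hd, hsq, hcov⟩
  have hD0 : D ≠ 0 := hD.ne_zero
  set δ : ∀ k, L k := fun k => aeval (θ k) d with hδ
  have hB1 : ∀ l : ℕ, ¬ l ∣ B → ¬ l ∣ Bs ∧ ¬ l ∣ Bd ∧ ¬ l ∣ Br := fun l h =>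
    ⟨fun h1 => h (Dvd.dvd.mul_right (Dvd.dvd.mul_right (Dvd.dvd.mul_left h1 _) _) _),
      fun h1 => h (Dvd.dvd.mul_right (Dvd.dvd.mul_left h1 _) _),
      fun h1 => h (Dvd.dvd.mul_left h1 _)⟩
  have hBmem : ∀ (l : ℕ) (u : PL L l), l.Prime → ¬ l ∣ B → (B : 𝓞 (L u.1)) ∉ u.2.1.asIdeal := by
    intro l u hl hm h
    apply hm
    have h1 := (int_mem_iff hl u.2.2 (B : ℤ)).mp (by exact_mod_cast h)
    exact_mod_cast h1
  -- the parities
  have hSC : ∀ l : ℕ, l.Prime → ¬ l ∣ B → ∃ e : ℕ, e < 2 ∧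
      ((¬ (l : ℤ) ∣ D ∧ ∀ u : PL L l, Par u.2.1 (δ u.1) e) ∨
      ((l : ℤ) ∣ D ∧ ∃ u0 : PL L l, Ideal.absNorm u0.2.1.asIdeal = l ∧
        Par u0.2.1 (δ u0.1) (e + 1) ∧ ∀ u : PL L l, u ≠ u0 → Par u.2.1 (δ u.1) e)) := by
    intro l hl hlB
    have : Fact l.Prime := ⟨hl⟩
    obtain ⟨e, he⟩ := hsc' l (hB1 l hlB).1 d D hd hD hsq (hcov l)
    have h1 : ∀ (u : PL L l), Par u.2.1 (δ u.1) e →
        Par u.2.1 (δ u.1) ((e % 2).toNat : ℕ) := fun u h =>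
      par_congr h ⟨e / 2, by omega⟩
    have h2 : ∀ (u : PL L l), Par u.2.1 (δ u.1) (e + 1) →
        Par u.2.1 (δ u.1) (((e % 2).toNat : ℕ) + 1) := fun u h =>
      par_congr h ⟨e / 2, by omega⟩
    refine ⟨(e % 2).toNat, by omega, ?_⟩
    rcases he with ⟨h3, h4⟩ | ⟨h3, u0, h5, h6, h7⟩
    · exact Or.inl ⟨h3, fun u => h1 u (h4 u)⟩
    · exact Or.inr ⟨h3, u0, h5, h2 u0 h6, fun u hne => h1 u (h7 u hne)⟩
  let ee : ℕ → ℕ := fun l => if h : l.Prime ∧ ¬ l ∣ B then (hSC l h.1 h.2).choose else 0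
  have hee : ∀ l (hl : l.Prime) (hlB : ¬ l ∣ B), ee l < 2 ∧
      ((¬ (l : ℤ) ∣ D ∧ ∀ u : PL L l, Par u.2.1 (δ u.1) (ee l)) ∨
      ((l : ℤ) ∣ D ∧ ∃ u0 : PL L l, Ideal.absNorm u0.2.1.asIdeal = l ∧
        Par u0.2.1 (δ u0.1) (ee l + 1) ∧ ∀ u : PL L l, u ≠ u0 → Par u.2.1 (δ u.1) (ee l))) := by
    intro l hl hlB
    have h1 : ee l = (hSC l hl hlB).choose := dif_pos ⟨hl, hlB⟩
    rw [h1]
    exact (hSC l hl hlB).choose_spec
  let k0 : K := Classical.arbitrary K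
  have hfin : {l : ℕ | l.Prime ∧ ¬ l ∣ B ∧ ee l = 1}.Finite := by
    refine ((D.natAbs.divisors.finite_toSet).union ((supp_finite (hd k0)).image bl)).subset ?_
    rintro l ⟨hl, hlB, he⟩
    have : Fact l.Prime := ⟨hl⟩
    rcases (hee l hl hlB).2 with ⟨h3, h4⟩ | ⟨h3, -⟩
    · right
      obtain ⟨v, hv⟩ := exists_above (L := L k0) (hBr' l hl (hB1 l hlB).2.2 k0)
      refine ⟨v, ?_, prime_unique (bl_prime v) hl (bl_abv v) hv⟩
      intro h5
      have h6 := h4 ⟨k0, v, hv⟩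
      rw [he] at h6
      obtain ⟨k, hk⟩ := h6
      rw [show (⟨k0, v, hv⟩ : PL L l).2.1.valuation (L k0) (δ k0) = 1 from h5,
        ← WithZero.exp_zero, WithZero.exp_inj] at hk
      push_cast at hk
      omega
    · left
      rw [Finset.mem_coe, Nat.mem_divisors]
      exact ⟨Int.natCast_dvd.mp h3, Int.natAbs_ne_zero.mpr hD0⟩
  set S1 := hfin.toFinset with hS1
  have hS1m : ∀ l, l ∈ S1 ↔ l.Prime ∧ ¬ l ∣ B ∧ ee l = 1 := fun l => hfin.mem_toFinset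
  set c : ℕ := ∏ q ∈ S1, q with hc
  have hc0 : c ≠ 0 := Finset.prod_ne_zero_iff.mpr fun q hq => ((hS1m q).mp hq).1.ne_zero
  have hcL : ∀ k, (c : L k) ≠ 0 := fun k => by exact_mod_cast hc0
  have hvl : ∀ (l : ℕ) (u : PL L l), l.Prime → ¬ l ∣ B →
      u.2.1.valuation (L u.1) (l : L u.1) = WithZero.exp (-1 : ℤ) := by
    intro l u hl hlB
    have : Fact l.Prime := ⟨hl⟩
    have hl0 : (l : 𝓞 (L u.1)) ≠ 0 := by exact_mod_cast hl.ne_zero
    have h1 := val_int u.2.1 hl0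
    rw [nat_coe, mu_l (hBr' l hl (hB1 l hlB).2.2 u.1) u.2.2] at h1
    exact_mod_cast h1
  have hvc : ∀ (l : ℕ) (u : PL L l), l.Prime → ¬ l ∣ B →
      u.2.1.valuation (L u.1) (c : L u.1) = WithZero.exp (-(ee l : ℤ)) := by
    intro l u hl hlB
    rw [hc, val_prod_primes hl u.2.2 (hvl l u hl hlB) S1 fun q hq => ((hS1m q).mp hq).1]
    congr 2
    have := (hee l hl hlB).1
    by_cases h : ee l = 1
    · rw [if_pos ((hS1m l).mpr ⟨hl, hlB, h⟩), h]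
      rfl
    · rw [if_neg (fun h2 => h ((hS1m l).mp h2).2.2)]
      have : ee l = 0 := by omega
      rw [this]
      rfl
  have hkey : ∀ l : ℕ, l.Prime → ¬ l ∣ B →
      ((¬ (l : ℤ) ∣ D ∧ ∀ u : PL L l, Par u.2.1 ((c : L u.1) * δ u.1) 0) ∨
      ((l : ℤ) ∣ D ∧ ∃ u0 : PL L l, Ideal.absNorm u0.2.1.asIdeal = l ∧
        Par u0.2.1 ((c : L u0.1) * δ u0.1) 1 ∧ ∀ u : PL L l, u ≠ u0 →
          Par u.2.1 ((c : L u.1) * δ u.1) 0)) := by
    intro l hl hlB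
    have h1 : ∀ u : PL L l, Par u.2.1 (δ u.1) (ee l) → Par u.2.1 ((c : L u.1) * δ u.1) 0 := by
      intro u h
      have := par_mul (hvc l u hl hlB) h
      rwa [add_neg_cancel] at this
    rcases (hee l hl hlB).2 with ⟨h3, h4⟩ | ⟨h3, u0, h5, h6, h7⟩
    · exact Or.inl ⟨h3, fun u => h1 u (h4 u)⟩
    · refine Or.inr ⟨h3, u0, h5, ?_, fun u hne => h1 u (h7 u hne)⟩
      have := par_mul (hvc l u0 hl hlB) h6
      rwa [show (ee l : ℤ) + 1 + -(ee l : ℤ) = 1 by ring] at this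
  have hcδ : ∀ k, (c : L k) * δ k ≠ 0 := fun k => mul_ne_zero (hcL k) (hd k)
  -- the sets `S`
  have hSfin : ∀ k, {v : HeightOneSpectrum (𝓞 (L k)) | (B : 𝓞 (L k)) ∉ v.asIdeal ∧
      Par v ((c : L k) * δ k) 1}.Finite := by
    intro k
    refine (supp_finite (hcδ k)).subset ?_
    rintro v ⟨-, hv⟩ h5
    obtain ⟨k, hk⟩ := hv
    rw [h5, ← WithZero.exp_zero, WithZero.exp_inj] at hk
    omega
  let S0 : ∀ k, Finset (HeightOneSpectrum (𝓞 (L k))) := fun k => (hSfin k).toFinset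
  have hSm : ∀ k v, v ∈ S0 k ↔ (B : 𝓞 (L k)) ∉ v.asIdeal ∧ Par v ((c : L k) * δ k) 1 := fun k v =>
    (hSfin k).mem_toFinset
  have hblB : ∀ (k : K) (v : HeightOneSpectrum (𝓞 (L k))), (B : 𝓞 (L k)) ∉ v.asIdeal →
      ¬ bl v ∣ B := by
    rintro k v hv2 ⟨m, hm⟩
    apply hv2
    rw [hm, Nat.cast_mul]
    exact Ideal.mul_mem_right _ _ (bl_abv v)
  -- the element of `S0 k` above a prime
  have hS0 : ∀ k, ∀ v ∈ S0 k, ¬ bl v ∣ B ∧ ((bl v : ℕ) : ℤ) ∣ D ∧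
      Ideal.absNorm v.asIdeal = bl v ∧ ∀ k', ∀ v' ∈ S0 k', bl v' = bl v →
        (⟨k', v'⟩ : Σ k, HeightOneSpectrum (𝓞 (L k))) = ⟨k, v⟩ := by
    intro k v hv
    obtain ⟨hv1, hv2⟩ := (hSm k v).1 hv
    have h2 := hblB k v hv1
    rcases hkey (bl v) (bl_prime v) h2 with ⟨-, h4⟩ | ⟨h3, u0, h5, h6, h7⟩
    · exact absurd hv2 (fun h => par_excl (h4 ⟨k, v, bl_abv v⟩) h)
    · have h8 : ∀ (k' : K) (v' : HeightOneSpectrum (𝓞 (L k'))) (hv' : Abv v' (bl v)),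
          v' ∈ S0 k' → (⟨k', v', hv'⟩ : PL L (bl v)) = u0 := by
        intro k' v' hv' hm
        by_contra hne
        exact par_excl (h7 _ hne) ((hSm k' v').1 hm).2
      have h9 := h8 k v (bl_abv v) hv
      refine ⟨h2, h3, ?_, ?_⟩
      · rw [← h9] at h5
        exact h5
      · intro k' v' hv' hbl
        have h10 := h8 k' v' (by rw [← hbl]; exact bl_abv v') hv'
        rw [← h9] at h10
        exact congrArg (fun u : PL L (bl v) => (⟨u.1, u.2.1⟩ : Σ k, HeightOneSpectrum (𝓞 (L k)))) h10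
  let S : K → Finset ℕ := fun k => (S0 k).image bl
  have hSinj : ∀ k, ∀ v ∈ S0 k, ∀ v' ∈ S0 k, bl v = bl v' → v = v' := by
    intro k v hv v' hv' h
    have := (hS0 k v' hv').2.2.2 k v hv h
    simpa using this
  have hSprod : ∀ k, ∏ v ∈ S0 k, Ideal.absNorm v.asIdeal = ∏ q ∈ S k, q := by
    intro k
    rw [Finset.prod_image (fun v hv v' hv' h => hSinj k v hv v' hv' h)]
    exact Finset.prod_congr rfl fun v hv => (hS0 k v hv).2.2.1
  -- the elements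
  have hel := fun k => h1f' k ((c : L k) * δ k) (S0 k) (hcδ k) (hSm k)
  choose α η hα hη hαη hval hbd using hel
  obtain ⟨d', hd'⟩ := hs.crt fun k => (α k : L k)
  obtain ⟨η', hη'⟩ := hs.crt η
  have hcQ : (c : ℚ) ≠ 0 := by exact_mod_cast hc0
  have hcov' : ∀ (p : ℕ) [Fact p.Prime], CovPt (∏ k, f k) d' ℚ_[p] := by
    intro p hp
    refine chm hs d d' η' (c : ℚ) hcQ (fun k => by rw [hη']; exact hη k) (fun k => ?_) ℚ_[p] (hcov p)
    rw [hd', hη', hαη, Rat.cast_natCast]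
  refine ⟨α, S, hα, ?_, ?_, ?_, ?_, ?_, ?_⟩
  · intro l hl hlB
    have : Fact l.Prime := ⟨hl⟩
    have hv1 : ∀ u : PL L l, Par u.2.1 ((c : L u.1) * δ u.1) 0 →
        u.2.1.valuation (L u.1) (α u.1 : L u.1) = 1 := fun u h =>
      (hval u.1 u.2.1 (hBmem l u hl hlB)).2 h
    rcases hkey l hl hlB with ⟨h3, h4⟩ | ⟨h3, u0, h5, h6, h7⟩
    · left
      intro u
      exact (HeightOneSpectrum.valuation_eq_one_iff_notMem u.2.1).mp (hv1 u (h4 u))
    · right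
      have hv0 : u0.2.1.valuation (L u0.1) (α u0.1 : L u0.1) = WithZero.exp (-1 : ℤ) :=
        (hval u0.1 u0.2.1 (hBmem l u0 hl hlB)).1 h6
      have hother : ∀ u : PL L l, u ≠ u0 →
          u.2.1.valuation (L u.1) (α u.1 : L u.1) = 1 := fun u hne => hv1 u (h7 u hne)
      refine ⟨u0, h5, ?_, ?_, ?_⟩
      · apply (HeightOneSpectrum.valuation_lt_one_iff_mem (K := L u0.1) u0.2.1 (α u0.1)).mp
        have h8 : u0.2.1.valuation (L u0.1) (α u0.1 : L u0.1) < 1 := by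
          rw [hv0, ← WithZero.exp_zero, WithZero.exp_lt_exp]
          norm_num
        exact h8
      · intro u hne
        exact (HeightOneSpectrum.valuation_eq_one_iff_notMem u.2.1).mp (hother u hne)
      · exact hsd' t ht l (hB1 l hlB).2.1 d' α hd' (hcov' l) u0 h5 hv0 hother
  · obtain ⟨s, hs'⟩ := hsq
    obtain ⟨m, hm⟩ := heven
    rw [← hs.deg] at hm
    refine ⟨s * ((c : ℚ) ^ m * ∏ k, Algebra.norm ℚ (η k)), ?_⟩
    have hNc : ∀ k, Algebra.norm ℚ (c : L k) = (c : ℚ) ^ Module.finrank ℚ (L k) := by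
      intro k
      have := Algebra.norm_algebraMap (S := L k) (c : ℚ)
      rwa [map_natCast] at this
    have h1 : ∏ k, Algebra.norm ℚ (α k : L k) = (c : ℚ) ^ dg L *
        (∏ k, Algebra.norm ℚ (δ k)) * (∏ k, Algebra.norm ℚ (η k)) ^ 2 := by
      unfold dg
      rw [← Finset.prod_pow_eq_pow_sum, ← Finset.prod_pow, ← Finset.prod_mul_distrib,
        ← Finset.prod_mul_distrib]
      refine Finset.prod_congr rfl fun k _ => ?_
      rw [hαη, map_mul, map_mul, map_pow, hNc]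
    rw [h1, hm]
    calc ((D * (∏ k, f k).leadingCoeff : ℤ) : ℚ) * ((c : ℚ) ^ (m + m) *
          (∏ k, Algebra.norm ℚ (δ k)) * (∏ k, Algebra.norm ℚ (η k)) ^ 2)
        = (((D * (∏ k, f k).leadingCoeff : ℤ) : ℚ) * ∏ k, Algebra.norm ℚ (δ k)) * ((c : ℚ) ^ m *
          ∏ k, Algebra.norm ℚ (η k)) ^ 2 := by
          rw [pow_add]; ring
      _ = _ := by rw [hs']; ring
  · intro k q hq
    obtain ⟨v, hv, rfl⟩ := Finset.mem_image.mp hq
    exact ⟨bl_prime v, one_le_N1 (bl_prime v) v (hS0 k v hv).2.2.1⟩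
  · have hdis : (↑(Finset.univ : Finset K) : Set K).PairwiseDisjoint S := by
      intro k _ k' _ hne
      rw [Function.onFun, Finset.disjoint_left]
      intro q hq hq'
      obtain ⟨v, hv, rfl⟩ := Finset.mem_image.mp hq
      obtain ⟨v', hv', hbl⟩ := Finset.mem_image.mp hq'
      exact hne (congrArg Sigma.fst ((hS0 k v hv).2.2.2 k' v' hv' hbl)).symm
    rw [← Finset.prod_biUnion hdis]
    apply Finset.prod_primes_dvd
    · intro q hq
      obtain ⟨k, -, hq⟩ := Finset.mem_biUnion.1 hq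
      obtain ⟨v, hv, rfl⟩ := Finset.mem_image.mp hq
      exact (bl_prime v).prime
    · intro q hq
      obtain ⟨k, -, hq⟩ := Finset.mem_biUnion.1 hq
      obtain ⟨v, hv, rfl⟩ := Finset.mem_image.mp hq
      exact Int.natCast_dvd.mp (hS0 k v hv).2.1
  · intro q hq hqB hqD
    rcases hkey q hq hqB with ⟨h3, -⟩ | ⟨h3, u0, h5, h6, -⟩
    · exact absurd (Int.natCast_dvd.mpr hqD) h3
    · refine ⟨u0.1, Finset.mem_image.mpr ⟨u0.2.1, (hSm _ _).2 ⟨hBmem q u0 hq hqB, h6⟩, ?_⟩⟩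
      exact prime_unique (bl_prime _) hq (bl_abv _) u0.2.2
  · intro k σ
    have h1 := hbd k σ
    rw [hSprod] at h1
    refine h1.trans (mul_le_mul_of_nonneg_right ?_ (by positivity))
    exact Finset.single_le_sum (f := C0) (fun k _ => (hC0 k).le) (Finset.mem_univ k)

end Pool.Agent.H11.EM
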