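import Pool.Agent.H11.EM.Def

/-!
# Project EM (helper11): 2-descent and the everywhere locally soluble twists, several factors

GOAL.  `f k ∈ ℤ[X]` (`k ∈ K`) irreducible over `ℚ`, pairwise non-associated, of any degrees, of even total
degree `n ≥ 6`; for every `k` some automorphism of `ℚ̄` fixes a zero of `f k`, but no zero of the other
`f j`.  For all but a proportion `O((log X) ^ (-δ))` of the squarefree `D`, `|D| ≤ X`, for which
`C_D : D y² = ∏ k, F k (x, w)` is everywhere locally soluble, no 2-covering is everywhere locally soluble.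

PROOF.  As in project EL of the library (`Pool/Graph/R_pool_sql_team_seeded_3997aac3/Q51/EL/Stm.lean`, ONE
irreducible polynomial): the descent gives `α = (α k) ∈ ∏ 𝓞 (L k)` with `|σ α k| ≤ C (D k) ^ (1 / n k)`,
`∏ D k ∣ D`, with local conditions at all good primes, and the number of the `α` is bounded by the large
sieve in dimension `n`.  New: the sizes `D k` can be very different; but for almost all everywhere locally
soluble `D` every `D k` is at least `exp ((log X) ^ (1 - ε))`, since `D` has a prime factor of this size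
modulo which only `f k` has a zero.  A box with the sides `Y k ≥ Z` is covered by cubes with the side `Z`.
-/

set_option autoImplicit false

namespace Pool.Agent.H11.EM

open Polynomial NumberField IsDedekindDomain Finset
open Pool.Agent.Q51.EL (Abv Par N1 pr CovPt Setup hom CurvePt)

/-- JOB EM-SIEVE. The large sieve in `∏ k, 𝓞 (L k)`, for boxes with different sides.
Proof (from the library lemma `Pool.Agent.Q51.EL.lsv : S_LSV`, file `Q51/EL/LSV.lean`; compare with the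
proof of `S_SIEVE` for one field in `Q247/EL/SIEVE.lean`).  `b k` = `RingOfIntegers.basis (L k)`, the
coordinates of `β k` are at most `C1 * max_σ |σ (β k)|`; together `n = dg L` coordinates, indexed by
`Fin n ≃ Σ k, (index of b k)`.  Let `N = ⌈Z⌉₊`, `Q = ⌊√Z⌋₊`, so `Q ^ 2 ≤ N`.  The box of the coordinate
vectors `|x (k, i)| ≤ M k := ⌈C1 * Y k⌉₊`, translated to `[0, 2 M k]`, is covered by the cubes
`∏ (k, i), (j(k,i) N, (j(k,i) + 1) N]` (after one more translation by 1), `0 ≤ j(k,i) ≤ 2 M k / N`; their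
number is at most `∏ k, (C2 * Y k / Z) ^ n k` (as `Z ≤ Y k`).  For each cube apply `S_LSV` (its `a` is
the corner) to the coordinate vectors of the elements of `box Y T` in the cube; `Om t` = the set of their
reductions modulo `t`, which has at most `(cls t T).ncard` elements (the coordinates modulo `t` determine
and are determined by the class modulo `t`).  The sum over the cubes is at most
`∏ k (C2 Y k / Z) ^ n k * (12 N) ^ n ≤ C ∏ k, Y k ^ n k`, as `N ≤ 2 Z`. -/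
def S_SIEVE : Prop := ∀ (K : Type) [Fintype K] [Nonempty K] (L : K → Type) [∀ k, Field (L k)]
  [∀ k, NumberField (L k)], ∃ C : ℝ, 0 < C ∧
  ∀ (Z : ℝ) (Y : K → ℝ) (P : Finset ℕ) (T : Set (∀ k, 𝓞 (L k))) (η : ℕ → ℝ), 1 ≤ Z →
  (∀ k, Z ≤ Y k) → (∀ t ∈ P, t.Prime) →
  (∀ t ∈ P, 0 < η t ∧ (((cls t T).ncard : ℕ) : ℝ) ≤ (1 - η t) * (t : ℝ) ^ dg L) →
  (box Y T).Finite ∧
  (((box Y T).ncard : ℕ) : ℝ) *
    ∑ D ∈ P.powerset.filter (fun D => (((∏ t ∈ D, t : ℕ) : ℝ)) ^ 2 ≤ Z), ∏ t ∈ D, η t ≤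
    C * ∏ k, Y k ^ Module.finrank ℚ (L k)

/-- JOB EM-CNT. The number of the residue classes modulo `l` allowed by the local conditions.
Proof: exactly as for one field (`Q247/EL/CNT1.lean`, `Q247/EL/CNT.lean`, theorem `cnt`), with the index
type `PL L l` (a sigma type) in place of `VV L l`, the residue ring `∏ u : PL L l, 𝓞 (L u.1) / u`, with
`l ^ dg L` elements.  Elements of the first kind: at most `l ^ n (1 - 1/l) ^ NN`.  Elements of the second
kind in `u0`: at most `2 * ∏_{u ≠ u0} (#k(u) / 2)` classes.  If `NN < dg` there are at least `NN + 1`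
primes above `l`. -/
def S_CNT : Prop := ∀ (K : Type) [Fintype K] [Nonempty K] (L : K → Type) [∀ k, Field (L k)]
  [∀ k, NumberField (L k)] (l : ℕ), l.Prime → l ≠ 2 →
  (∀ k, Squarefree (Ideal.span {(l : 𝓞 (L k))})) → ∀ T : Set (∀ k, 𝓞 (L k)), Ty1 l T → Ty2 l T →
  (((cls l T).ncard : ℕ) : ℝ) ≤ (l : ℝ) ^ dg L *
    (1 - (NN L l - tau L l) / l + (dg L : ℝ) ^ 2 / (l : ℝ) ^ 2)

open Classical in
/-- JOB EM-M2. Many primes split completely in all the `L k`.
Proof: as `S_M2` for one field (`Q154/EL/Spl.lean`, `M2a.lean`): let `M` be a number field, Galois over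
`ℚ`, which contains all the `L k`; for almost all primes `l` with `N1 M l ≥ 1`: `N1 (L k) l = [L k : ℚ]`
for all `k`. -/
def S_M2 : Prop := ∀ (K : Type) [Fintype K] [Nonempty K] (L : K → Type) [∀ k, Field (L k)]
  [∀ k, NumberField (L k)], ∃ c C : ℝ, 0 < c ∧ ∀ Y : ℝ, 3 ≤ Y →
  c * Real.log (Real.log Y) - C ≤
    ∑ l ∈ (pr Y).filter (fun l => NN L l = dg L), (1 : ℝ) / l

/-- JOB EM-CORE. The main upper bound.
Proof (from `S_SIEVE`, `S_CNT`, `S_M2` and the library theorems `S_SUMS`, `S_RAM`, `S_M1` of project EL):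
the same as for one field (`Q91/EL/Core.lean`), with `NN`, `tau`, `dg L`; `∑_{l ≤ √Z} NN l / l` is the sum
over `k` of the sums in `S_M1`, at least `#K (1 - ε) log log √Z - C`. -/
def S_CORE : Prop := ∀ (K : Type) [Fintype K] [Nonempty K] (L : K → Type) [∀ k, Field (L k)]
  [∀ k, NumberField (L k)], 5 ≤ dg L → ∀ B : ℕ, B ≠ 0 →
  ∃ c C : ℝ, 0 < c ∧ 0 < C ∧ ∀ T : Set (∀ k, 𝓞 (L k)), (∀ l : ℕ, l.Prime → ¬ l ∣ B → Ty1 l T ∧ Ty2 l T) →
  ∀ (Z : ℝ) (Y : K → ℝ), 3 ≤ Z → (∀ k, Z ≤ Y k) → (box Y T).Finite ∧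
    (((box Y T).ncard : ℕ) : ℝ) ≤ C * (∏ k, Y k ^ Module.finrank ℚ (L k)) * Real.exp (GN L Z) *
      Real.log Z ^ (-((Fintype.card K : ℝ) + c))

open Classical in
/-- JOB EM-UB. The number of the integers composed of the primes of a set.
Proof: the large sieve in dimension one (`Pool.Agent.Q51.EL.lsv` with `k = 1`, `N = ⌊X⌋₊`, `Q = ⌊√N⌋₊`,
`a = 0`; sieving primes `t ≤ Q`, `t ∤ B`, `t ∉ P`, `Om t` the nonzero classes, `η t = 1 / t`), the library
theorem `S_SUMS` of project EL (`A = 1`), and Mertens' theorem (`Pool.Agent.R925.FD.mert`, or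
`Q91/EL/Sums.lean`). -/
def S_UB : Prop := ∀ B : ℕ, B ≠ 0 → ∃ C : ℝ, 0 < C ∧ ∀ (P : Set ℕ) (X : ℝ), 3 ≤ X →
  (({m : ℕ | 1 ≤ m ∧ (m : ℝ) ≤ X ∧ ∀ q : ℕ, q.Prime → q ∣ m → q ∣ B ∨ q ∈ P}.ncard : ℕ) : ℝ) ≤
    C * X / Real.log X * Real.exp (∑ q ∈ (pr X).filter (fun q => q ∈ P), (1 : ℝ) / q)

/-- the fields of the factors -/
structure Sys {K : Type} (f : K → ℤ[X]) (L : K → Type) [∀ k, Field (L k)] [∀ k, NumberField (L k)]
    (θ : ∀ k, L k) : Prop where
  set : ∀ k, Setup (f k) (L k) (θ k)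
  na : ∀ k l, k ≠ l →
    ¬ Associated ((f k).map (Int.castRingHom ℚ)) ((f l).map (Int.castRingHom ℚ))

/-- JOB EM-NRM. The norm of `ℚ[X]/(∏ k, f k)`.
Proof: by induction over the number of factors, or: both sides are multiplicative in `d`..., or by the
Chinese remainder theorem `ℚ[X]/(∏ k, f k) ≃ ∏ k, ℚ[X]/(f k)` (`Ideal.quotientInfRingEquivPiQuotient`,
`AdjoinRoot`) and the determinant of a block diagonal matrix (`Algebra.norm_eq_matrix_det`,
`Matrix.det_blockDiagonal'`); `ℚ[X]/(f k) ≃ L k` by `θ k`. -/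
def S_NRM : Prop := ∀ (K : Type) [Fintype K] (f : K → ℤ[X]) (L : K → Type) [∀ k, Field (L k)]
  [∀ k, NumberField (L k)] (θ : ∀ k, L k), Sys f L θ → ∀ d : ℚ[X],
  Algebra.norm ℚ (AdjoinRoot.mk ((∏ k, f k).map (Int.castRingHom ℚ)) d) =
    ∏ k, Algebra.norm ℚ (aeval (θ k) d)

/-- JOB EM-DESC. The descent. -/
def S_DESC : Prop := ∀ (K : Type) [Fintype K] [Nonempty K] (f : K → ℤ[X]) (L : K → Type)
  [∀ k, Field (L k)] [∀ k, NumberField (L k)] (θ : ∀ k, L k), Sys f L θ →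
  Even (∏ k, f k).natDegree → 3 ≤ (∏ k, f k).natDegree →
  ∀ t : ∀ k, 𝓞 (L k), (∀ k, (t k : L k) = (∏ k, f k).leadingCoeff * θ k) →
  ∃ (B : ℕ) (C : ℝ), B ≠ 0 ∧ 0 < C ∧ ∀ D : ℤ, Squarefree D →
  (∃ d : ℚ[X], (∀ k, aeval (θ k) d ≠ 0) ∧
    IsSquare (((D * (∏ k, f k).leadingCoeff : ℤ) : ℚ) * ∏ k, Algebra.norm ℚ (aeval (θ k) d)) ∧
    ∀ (p : ℕ) [Fact p.Prime], CovPt (∏ k, f k) d ℚ_[p]) →
  ∃ (α : ∀ k, 𝓞 (L k)) (S : K → Finset ℕ), (∀ k, α k ≠ 0) ∧ Good B t α ∧
    IsSquare (((D * (∏ k, f k).leadingCoeff : ℤ) : ℚ) * ∏ k, Algebra.norm ℚ (α k : L k)) ∧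
    (∀ k, ∀ q ∈ S k, q.Prime ∧ 1 ≤ N1 (L k) q) ∧ (∏ k, ∏ q ∈ S k, q) ∣ D.natAbs ∧
    (∀ q : ℕ, q.Prime → ¬ q ∣ B → q ∣ D.natAbs → ∃ k, q ∈ S k) ∧
    ∀ k, ∀ σ : L k →+* ℂ, ‖σ (α k : L k)‖ ≤
      C * ((∏ q ∈ S k, q : ℕ) : ℝ) ^ ((1 : ℝ) / Module.finrank ℚ (L k))

/-- JOB EM-TY. The good elements satisfy the hypotheses of the sieve. -/
def S_TY : Prop := ∀ (K : Type) (L : K → Type) [∀ k, Field (L k)] [∀ k, NumberField (L k)] (B : ℕ)
  (t : ∀ k, 𝓞 (L k)) (l : ℕ), l.Prime → ¬ l ∣ B → Ty1 l {α | Good B t α} ∧ Ty2 l {α | Good B t α}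

/-- some 2-covering of `C_D` has points over all completions of `ℚ` (the same definition as in project EL,
for a reducible polynomial `g`) -/
def Sel (g : ℤ[X]) (D : ℤ) : Prop := Pool.Agent.Q51.EL.Sel g D

/-- JOB EM-LIFT. A rational point lifts to a covering.
Proof as for `S_LIFT` (`Q241/EL/Lift.lean`): `g` separable without rational zero, `y ≠ 0`, `d = x - w X`; the
norm of `x - w θ` in `ℚ[X]/(g)`: `Pool.Agent.Q58.EB.norm_lin` (file `Q58/EB/Ev.lean`). -/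
def S_LIFT : Prop := ∀ g : ℤ[X], (g.map (Int.castRingHom ℚ)).Separable → Even g.natDegree →
  (∀ x : ℚ, aeval x g ≠ 0) → ∀ D : ℤ, D ≠ 0 → CurvePt g D ℚ → Sel g D

/-- JOB EM-S2E. The coverings lie over `C_D`.
Proof as for `S_S2E` (`Q198/EL/S2E.lean`), for separable `g` (the norm of `F[X]/(g)` and base change:
`norm_bc` in `Q247/EB/BC.lean`; `Pool.Agent.Q58.EB.norm_lin`). -/
def S_S2E : Prop := ∀ g : ℤ[X], (g.map (Int.castRingHom ℚ)).Separable → 1 ≤ g.natDegree →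
  ∀ (D : ℤ) (d : ℚ[X]), D ≠ 0 →
  IsSquare (((D * g.leadingCoeff : ℤ) : ℚ) *
    Algebra.norm ℚ (AdjoinRoot.mk (g.map (Int.castRingHom ℚ)) d)) →
  ∀ (F : Type) [Field F] [CharZero F], CovPt g d F → CurvePt g D F

end Pool.Agent.H11.EM
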