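import Mathlib
import Pool.Agent.H11.EM.Stm
import Pool.Agent.H11.V.R_pool_sql_team_seeded_3997aac3_Q247_EL_CNT

set_option autoImplicit false

/-!
Project EM (helper11), job CNT: the number of the residue classes modulo `l` allowed by the local conditions,
in a product of rings of integers.
-/

namespace Pool.Agent.H11.EM.CNT

open Finset NumberField IsDedekindDomain
open Pool.Agent.Q51.EL (Abv N1)
open Pool.Agent.Q247.EL (VV)

section

variable {K : Type} (L : K → Type) [∀ k, Field (L k)] [∀ k, NumberField (L k)] {l : ℕ}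

theorem finite_PL [Finite K] (hl : l.Prime) : Finite (PL L l) := by
  haveI : ∀ k, Finite (VV (L k) l) := fun k => Pool.Agent.Q247.EL.finite_VV (L k) hl
  exact inferInstanceAs (Finite (Σ k : K, VV (L k) l))

/-- the residue field of a prime above `l` -/
abbrev kk (u : PL L l) : Type := 𝓞 (L u.1) ⧸ u.2.1.asIdeal

/-- reductions modulo all primes above `l` -/
def Th (β : ∀ k, 𝓞 (L k)) : ∀ u : PL L l, kk L u := fun u => Ideal.Quotient.mk u.2.1.asIdeal (β u.1)

/-- the classes of the second kind -/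
def S2 (T : Set (∀ k, 𝓞 (L k))) (u0 : PL L l) : Set (∀ u : PL L l, kk L u) :=
  {x | Ideal.absNorm u0.2.1.asIdeal = l ∧ ∃ β ∈ T, In β u0 ∧
    (∀ u : PL L l, u ≠ u0 → ¬ In β u) ∧ Th L β = x}

/-- the classes of the first kind -/
def S1 (L : K → Type) [∀ k, Field (L k)] [∀ k, NumberField (L k)] (l : ℕ) : Set (∀ u : PL L l, kk L u) :=
  {x | ∀ u, x u ≠ 0}

open Classical in
theorem S1_card (hl : l.Prime) [Fintype (PL L l)] : ((S1 L l).ncard : ℝ) ≤
    ∏ u : PL L l, ((Nat.card (kk L u) : ℝ) *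
      (if Ideal.absNorm u.2.1.asIdeal = l then (1 - 1 / (l : ℝ)) else 1)) := by
  haveI : ∀ u : PL L l, Finite (kk L u) := fun u => Pool.Agent.Q247.EL.finite_k (L u.1) u.2
  haveI : ∀ u : PL L l, Fintype (kk L u) := fun u => Fintype.ofFinite _
  have h1 : S1 L l = (Fintype.piFinset (fun u : PL L l =>
      (univ : Finset (kk L u)).filter (fun x => x ≠ 0)) : Set _) := by
    ext x
    rw [Finset.mem_coe, Fintype.mem_piFinset]
    simp [S1]
  rw [h1, Set.ncard_coe_finset, Fintype.card_piFinset]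
  push_cast
  refine prod_le_prod (fun u _ => Nat.cast_nonneg _) fun u _ => ?_
  have h2 : ((univ : Finset (kk L u)).filter (fun x => x ≠ 0)).card =
      Nat.card (kk L u) - 1 := by
    rw [filter_ne', card_erase_of_mem (mem_univ _), card_univ, Nat.card_eq_fintype_card]
  rw [h2]
  have h3 := Pool.Agent.Q247.EL.le_card (L u.1) hl u.2
  have h4 : 1 ≤ Nat.card (kk L u) := hl.one_lt.le.trans h3
  rw [Nat.cast_sub h4]
  have hl0 : (0 : ℝ) < l := by exact_mod_cast hl.pos
  split_ifs with h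
  · have h5 : Nat.card (kk L u) = l := (Pool.Agent.Q247.EL.card_eq_norm (L u.1) u.2).trans h
    rw [h5]
    field_simp
    push_cast
    exact le_refl _
  · push_cast
    linarith

open Classical in
theorem S2_card (hl : l.Prime) (hl2 : l ≠ 2) [Fintype (PL L l)] (T : Set (∀ k, 𝓞 (L k))) (hT2 : Ty2 l T)
    (u0 : PL L l) : ((S2 L T u0).ncard : ℝ) ≤ if Ideal.absNorm u0.2.1.asIdeal = l then
      2 * ∏ u : PL L l, (if u = u0 then (1 : ℝ) else (Nat.card (kk L u) : ℝ) / 2) else 0 := by
  haveI : ∀ u : PL L l, Finite (kk L u) := fun u => Pool.Agent.Q247.EL.finite_k (L u.1) u.2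
  haveI : ∀ u : PL L l, Fintype (kk L u) := fun u => Fintype.ofFinite _
  haveI : ∀ u : PL L l, IsDomain (kk L u) := fun u => by
    haveI := u.2.1.isPrime
    infer_instance
  by_cases hn : Ideal.absNorm u0.2.1.asIdeal = l
  swap
  · rw [if_neg hn]
    have : S2 L T u0 = ∅ := by
      ext x
      simp [S2, hn]
    rw [this]
    simp
  rw [if_pos hn]
  have hprod0 : 0 ≤ ∏ u : PL L l, (if u = u0 then (1 : ℝ) else (Nat.card (kk L u) : ℝ) / 2) := by
    refine prod_nonneg fun u _ => ?_
    split_ifs <;> positivity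
  by_cases hne : (S2 L T u0).Nonempty
  swap
  · rw [Set.not_nonempty_iff_eq_empty] at hne
    rw [hne, Set.ncard_empty, Nat.cast_zero]
    exact mul_nonneg (by norm_num) hprod0
  obtain ⟨x', _, β', hβ'T, hβ'0, hβ'v, _⟩ := hne
  obtain ⟨w, hw, heps⟩ := Pool.Agent.Q247.EL.eps l hl hl2
  let Q : ∀ u : PL L l, Finset (kk L u) := fun u =>
    if u = u0 then {0} else (Set.toFinite ({x : kk L u | x ≠ 0 ∧ ∃ s, x = s * s})).toFinset
  let F : ℤ → (∀ u : PL L l, kk L u) → (∀ u : PL L l, kk L u) := fun e q u =>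
    Ideal.Quotient.mk u.2.1.asIdeal (β' u.1) * Ideal.Quotient.mk u.2.1.asIdeal (e : 𝓞 (L u.1)) * q u
  have hsub : S2 L T u0 ⊆ ((Fintype.piFinset Q).image (F 1) ∪ (Fintype.piFinset Q).image (F w) :
      Finset (∀ u : PL L l, kk L u)) := by
    rintro x ⟨_, β, hβT, hβ0, hβv, rfl⟩
    obtain ⟨c, hc, hg⟩ := hT2 β hβT β' hβ'T u0 hβ0 hβ'0
    obtain ⟨e, d, he, hle, hld, hlc⟩ := heps c hc
    have key : ∀ u : PL L l, ∃ q : kk L u, q ∈ Q u ∧
        Ideal.Quotient.mk u.2.1.asIdeal (β' u.1) * Ideal.Quotient.mk u.2.1.asIdeal (e : 𝓞 (L u.1)) * q =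
          Ideal.Quotient.mk u.2.1.asIdeal (β u.1) := by
      intro u
      by_cases hv : u = u0
      · refine ⟨0, ?_, ?_⟩
        · simp only [Q, if_pos hv]
          simp
        · rw [mul_zero]
          subst hv
          exact ((Ideal.Quotient.eq_zero_iff_mem).2 hβ0).symm
      · haveI := u.2.1.isMaximal
        have hB' : Ideal.Quotient.mk u.2.1.asIdeal (β' u.1) ≠ 0 := fun h =>
          hβ'v u hv ((Ideal.Quotient.eq_zero_iff_mem).1 h)
        have hB : Ideal.Quotient.mk u.2.1.asIdeal (β u.1) ≠ 0 := fun h =>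
          hβv u hv ((Ideal.Quotient.eq_zero_iff_mem).1 h)
        have hE : Ideal.Quotient.mk u.2.1.asIdeal (e : 𝓞 (L u.1)) ≠ 0 := fun h =>
          hle (Pool.Agent.Q247.EL.int_mem (L u.1) hl u.2 e ((Ideal.Quotient.eq_zero_iff_mem).1 h))
        have hD : Ideal.Quotient.mk u.2.1.asIdeal (d : 𝓞 (L u.1)) ≠ 0 := fun h =>
          hld (Pool.Agent.Q247.EL.int_mem (L u.1) hl u.2 d ((Ideal.Quotient.eq_zero_iff_mem).1 h))
        obtain ⟨W, hW⟩ := Ideal.Quotient.exists_inv (mul_ne_zero (mul_ne_zero hE hD) hB')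
        obtain ⟨g, hg'⟩ := hg u hv
        have h1 : Ideal.Quotient.mk u.2.1.asIdeal (c : 𝓞 (L u.1)) * Ideal.Quotient.mk u.2.1.asIdeal (β u.1) *
            Ideal.Quotient.mk u.2.1.asIdeal (β' u.1) = Ideal.Quotient.mk u.2.1.asIdeal g ^ 2 := by
          rw [← map_mul, ← map_mul, ← map_pow]
          exact (Ideal.Quotient.eq).2 hg'
        have h2 : Ideal.Quotient.mk u.2.1.asIdeal (c : 𝓞 (L u.1)) =
            Ideal.Quotient.mk u.2.1.asIdeal (e : 𝓞 (L u.1)) *
              Ideal.Quotient.mk u.2.1.asIdeal (d : 𝓞 (L u.1)) ^ 2 := by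
          rw [← map_pow, ← map_mul, Ideal.Quotient.eq]
          obtain ⟨m, hm⟩ := hlc
          have h3 : (c : 𝓞 (L u.1)) - (e : 𝓞 (L u.1)) * (d : 𝓞 (L u.1)) ^ 2 =
              (m : 𝓞 (L u.1)) * (l : 𝓞 (L u.1)) := by
            have : ((c - e * d ^ 2 : ℤ) : 𝓞 (L u.1)) = ((l * m : ℤ) : 𝓞 (L u.1)) := by rw [hm]
            push_cast at this
            rw [this, mul_comm]
          rw [h3]
          exact u.2.1.asIdeal.mul_mem_left _ u.2.2
        have h3 : Ideal.Quotient.mk u.2.1.asIdeal (β' u.1) * Ideal.Quotient.mk u.2.1.asIdeal (e : 𝓞 (L u.1)) *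
            ((Ideal.Quotient.mk u.2.1.asIdeal g * W) * (Ideal.Quotient.mk u.2.1.asIdeal g * W)) =
              Ideal.Quotient.mk u.2.1.asIdeal (β u.1) := by
          rw [h2] at h1
          calc Ideal.Quotient.mk u.2.1.asIdeal (β' u.1) * Ideal.Quotient.mk u.2.1.asIdeal (e : 𝓞 (L u.1)) *
              ((Ideal.Quotient.mk u.2.1.asIdeal g * W) * (Ideal.Quotient.mk u.2.1.asIdeal g * W))
              = Ideal.Quotient.mk u.2.1.asIdeal (β' u.1) *
                Ideal.Quotient.mk u.2.1.asIdeal (e : 𝓞 (L u.1)) *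
                (Ideal.Quotient.mk u.2.1.asIdeal g ^ 2) * (W * W) := by ring
            _ = Ideal.Quotient.mk u.2.1.asIdeal (β u.1) * (Ideal.Quotient.mk u.2.1.asIdeal (e : 𝓞 (L u.1)) *
                  Ideal.Quotient.mk u.2.1.asIdeal (d : 𝓞 (L u.1)) *
                  Ideal.Quotient.mk u.2.1.asIdeal (β' u.1) * W) ^ 2 := by
                rw [← h1]
                ring
            _ = _ := by rw [hW, one_pow, mul_one]
        refine ⟨(Ideal.Quotient.mk u.2.1.asIdeal g * W) * (Ideal.Quotient.mk u.2.1.asIdeal g * W), ?_, h3⟩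
        simp only [Q, if_neg hv]
        rw [Set.Finite.mem_toFinset]
        refine ⟨?_, _, rfl⟩
        intro h0
        rw [h0, mul_zero] at h3
        exact hB h3.symm
    choose q hq1 hq2 using key
    have hqF : F e q = Th L β := by
      funext u
      exact hq2 u
    have hqQ : q ∈ Fintype.piFinset Q := Fintype.mem_piFinset.2 hq1
    rw [Finset.coe_union, Finset.coe_image, Finset.coe_image]
    rcases he with rfl | rfl
    · left
      exact ⟨q, hqQ, hqF⟩
    · right
      exact ⟨q, hqQ, hqF⟩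
  have h1 : (S2 L T u0).ncard ≤ (Fintype.piFinset Q).card + (Fintype.piFinset Q).card := by
    refine (Set.ncard_le_ncard hsub (Set.toFinite _)).trans ?_
    rw [Set.ncard_coe_finset]
    refine (card_union_le _ _).trans ?_
    exact Nat.add_le_add card_image_le card_image_le
  have h2 : ((Fintype.piFinset Q).card : ℝ) ≤
      ∏ u : PL L l, (if u = u0 then (1 : ℝ) else (Nat.card (kk L u) : ℝ) / 2) := by
    rw [Fintype.card_piFinset]
    push_cast
    refine prod_le_prod (fun u _ => Nat.cast_nonneg _) fun u _ => ?_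
    by_cases hv : u = u0
    · simp only [Q, if_pos hv]
      simp
    · simp only [Q, if_neg hv]
      have h20 : (2 : kk L u) ≠ 0 := by
        intro h0
        have h3 : Ideal.Quotient.mk u.2.1.asIdeal ((2 : ℤ) : 𝓞 (L u.1)) = 0 := by
          rw [Int.cast_ofNat, map_ofNat]
          exact h0
        have h4 := Pool.Agent.Q247.EL.int_mem (L u.1) hl u.2 2 ((Ideal.Quotient.eq_zero_iff_mem).1 h3)
        have h5 : l ∣ 2 := by exact_mod_cast h4
        exact hl2 ((Nat.prime_dvd_prime_iff_eq hl Nat.prime_two).1 h5)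
      have h3 := Pool.Agent.Q247.EL.card_sq (kk L u) h20
      rw [Set.ncard_eq_toFinset_card _ (Set.toFinite _)] at h3
      exact h3
  have h3 : ((S2 L T u0).ncard : ℝ) ≤ ((Fintype.piFinset Q).card : ℝ) + ((Fintype.piFinset Q).card : ℝ) := by
    exact_mod_cast h1
  linarith

end

open Classical in
theorem prod_card {K : Type} [Fintype K] (L : K → Type) [∀ k, Field (L k)] [∀ k, NumberField (L k)] {l : ℕ}
    (hl : l.Prime) (hsq : ∀ k, Squarefree (Ideal.span {(l : 𝓞 (L k))})) [Fintype (PL L l)] :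
    ∏ u : PL L l, Nat.card (kk L u) = l ^ dg L := by
  haveI : ∀ k, Finite (VV (L k) l) := fun k => Pool.Agent.Q247.EL.finite_VV (L k) hl
  haveI : ∀ k, Fintype (VV (L k) l) := fun k => Fintype.ofFinite _
  unfold dg
  rw [← Finset.prod_pow_eq_pow_sum]
  rw [← Finset.prod_congr rfl (fun k _ => Pool.Agent.Q247.EL.prod_card (L k) hl (hsq k))]
  have h := @Fintype.prod_sigma K (fun k => VV (L k) l) ℕ _ _ _
    (fun u => Nat.card (𝓞 (L u.1) ⧸ u.2.1.asIdeal))
  refine Eq.trans ?_ h
  exact Finset.prod_congr (Finset.ext fun u => ⟨fun _ => @Finset.mem_univ _ (_) u,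
    fun _ => Finset.mem_univ u⟩) (fun u _ => rfl)

open Classical in
theorem NN_card {K : Type} [Fintype K] (L : K → Type) [∀ k, Field (L k)] [∀ k, NumberField (L k)] {l : ℕ}
    (hl : l.Prime) [Fintype (PL L l)] :
    NN L l = (univ.filter (fun u : PL L l => Ideal.absNorm u.2.1.asIdeal = l)).card := by
  haveI : ∀ k, Finite (VV (L k) l) := fun k => Pool.Agent.Q247.EL.finite_VV (L k) hl
  haveI hfi : ∀ k, Finite {v : HeightOneSpectrum (𝓞 (L k)) // Ideal.absNorm v.asIdeal = l} := fun k => by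
    refine Finite.of_injective
      (fun v : {v : HeightOneSpectrum (𝓞 (L k)) // Ideal.absNorm v.asIdeal = l} =>
        (⟨v.1, ?_⟩ : VV (L k) l)) ?_
    · have h := Ideal.absNorm_mem v.1.asIdeal
      rw [v.2] at h
      exact h
    · intro v w hvw
      exact Subtype.ext (congrArg (fun x : VV (L k) l => x.1) hvw)
  haveI : ∀ k, Fintype {v : HeightOneSpectrum (𝓞 (L k)) // Ideal.absNorm v.asIdeal = l} :=
    fun k => Fintype.ofFinite _
  unfold NN N1
  simp only [Nat.card_eq_fintype_card]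
  rw [← Fintype.card_sigma, ← Fintype.card_subtype]
  refine Fintype.card_congr
    { toFun := fun v => ⟨⟨v.1, ⟨v.2.1, ?_⟩⟩, v.2.2⟩
      invFun := fun u => ⟨u.1.1, ⟨u.1.2.1, u.2⟩⟩
      left_inv := fun v => rfl
      right_inv := fun u => rfl }
  have h := Ideal.absNorm_mem v.2.1.asIdeal
  rw [v.2.2] at h
  exact h

open Classical in
theorem cnt : S_CNT := by
  intro K _ _ L _ _ l hl hl2 hsq T hT1 hT2
  haveI := finite_PL L hl
  haveI : Fintype (PL L l) := Fintype.ofFinite _
  haveI : ∀ u : PL L l, Finite (kk L u) := fun u => Pool.Agent.Q247.EL.finite_k (L u.1) u.2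
  obtain ⟨n, hn⟩ : ∃ n, n = dg L := ⟨_, rfl⟩
  obtain ⟨r, hr⟩ : ∃ r, r = Fintype.card (PL L l) := ⟨_, rfl⟩
  obtain ⟨N, hN⟩ : ∃ N, N = NN L l := ⟨_, rfl⟩
  rw [← hn]
  have hl0 : (0 : ℝ) < l := by exact_mod_cast hl.pos
  have hl1 : (1 : ℝ) ≤ l := by exact_mod_cast hl.one_lt.le
  have hcardk := prod_card L hl hsq
  have hcardk' : ∏ u : PL L l, (Nat.card (kk L u) : ℝ) = (l : ℝ) ^ n := by
    rw [hn]
    exact_mod_cast hcardk
  -- number of the primes of norm `l`
  have hNW : N = (univ.filter (fun u : PL L l => Ideal.absNorm u.2.1.asIdeal = l)).card := by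
    rw [hN]
    exact NN_card L hl
  have hNr : N ≤ r := by
    rw [hNW, hr]
    exact card_filter_le _ _
  have hrn : r ≤ n := by
    have h1 : l ^ r ≤ l ^ n := by
      rw [hn, ← hcardk, hr, ← Finset.card_univ, ← prod_const]
      exact prod_le_prod' fun u _ => Pool.Agent.Q247.EL.le_card (L u.1) hl u.2
    exact (Nat.pow_le_pow_iff_right hl.one_lt).1 h1
  have hNrn : N = r → N = n := by
    intro h
    have h1 : univ.filter (fun u : PL L l => Ideal.absNorm u.2.1.asIdeal = l) = univ := by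
      apply Finset.eq_univ_of_card
      rw [← hNW, h, hr]
    have h2 : ∏ u : PL L l, Nat.card (kk L u) = ∏ _u : PL L l, l := by
      refine prod_congr rfl fun u _ => ?_
      have h3 : u ∈ univ.filter (fun u : PL L l => Ideal.absNorm u.2.1.asIdeal = l) := by
        rw [h1]
        exact mem_univ _
      rw [mem_filter] at h3
      exact (Pool.Agent.Q247.EL.card_eq_norm (L u.1) u.2).trans h3.2
    rw [hcardk, prod_const, card_univ, ← hr, ← hn] at h2
    rw [h]
    exact (Nat.pow_right_injective hl.two_le h2).symm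
  -- pass to the product of the residue fields
  have hA : (cls l T).ncard ≤ (Th L (l := l) '' T).ncard := by
    let h : (∀ u : PL L l, kk L u) → (∀ k, 𝓞 (L k) ⧸ Ideal.span {(l : 𝓞 (L k))}) := fun y =>
      if hy : ∃ β, Th L β = y then
        (fun k : K => Ideal.Quotient.mk (Ideal.span {(l : 𝓞 (L k))}) (hy.choose k)) else 0
    have h1 : ∀ β, h (Th L β) = (fun k : K => Ideal.Quotient.mk (Ideal.span {(l : 𝓞 (L k))}) (β k)) := by
      intro β
      have hy : ∃ β', Th L (l := l) β' = Th L β := ⟨β, rfl⟩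
      simp only [h]
      rw [dif_pos hy]
      have h2 := hy.choose_spec
      funext k
      rw [Ideal.Quotient.eq, ← Pool.Agent.Q247.EL.iInf_VV (L k) hl (hsq k), Ideal.mem_iInf]
      intro v
      exact (Ideal.Quotient.eq).1 (congrFun h2 ⟨k, v⟩)
    have h2 : cls l T = h '' (Th L (l := l) '' T) := by
      rw [Set.image_image]
      unfold cls
      exact Set.image_congr fun β _ => (h1 β).symm
    rw [h2]
    exact Set.ncard_image_le (Set.toFinite _)
  have hB : Th L (l := l) '' T ⊆ S1 L l ∪ ⋃ u0 : PL L l, S2 L T u0 := by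
    rintro _ ⟨β, hβ, rfl⟩
    rcases hT1 β hβ with h | ⟨u0, hn0, hβ0, h⟩
    · left
      intro u h0
      exact h u ((Ideal.Quotient.eq_zero_iff_mem).1 h0)
    · right
      rw [Set.mem_iUnion]
      exact ⟨u0, hn0, β, hβ, hβ0, h, rfl⟩
  have hC : ((cls l T).ncard : ℝ) ≤
      (S1 L l).ncard + ∑ u0 : PL L l, ((S2 L T u0).ncard : ℝ) := by
    have h1 : (cls l T).ncard ≤
        (S1 L l).ncard + ∑ u0 : PL L l, (S2 L T u0).ncard := by
      refine hA.trans ((Set.ncard_le_ncard hB (Set.toFinite _)).trans ?_)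
      refine (Set.ncard_union_le _ _).trans ?_
      exact Nat.add_le_add_left (Set.ncard_iUnion_le_of_fintype _) _
    exact_mod_cast h1
  -- first kind
  have hD : ((S1 L l).ncard : ℝ) ≤ (l : ℝ) ^ n * (1 - 1 / (l : ℝ)) ^ N := by
    refine (S1_card L hl).trans (le_of_eq ?_)
    rw [prod_mul_distrib, hcardk', ← prod_filter, prod_const, ← hNW]
  -- second kind
  have hE : ∑ u0 : PL L l, ((S2 L T u0).ncard : ℝ) ≤ N * ((l : ℝ) ^ n * (4 / 2 ^ r / l)) := by
    have h1 : ∀ u0 : PL L l, ((S2 L T u0).ncard : ℝ) ≤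
        if Ideal.absNorm u0.2.1.asIdeal = l then (l : ℝ) ^ n * (4 / 2 ^ r / l) else 0 := by
      intro u0
      refine (S2_card L hl hl2 T hT2 u0).trans ?_
      split_ifs with h
      · have h5 : (Nat.card (kk L u0) : ℝ) = l := by
          exact_mod_cast (Pool.Agent.Q247.EL.card_eq_norm (L u0.1) u0.2).trans h
        have h2 : (∏ u : PL L l, (if u = u0 then (1 : ℝ) else (Nat.card (kk L u) : ℝ) / 2)) *
            ((l : ℝ) / 2) = (l : ℝ) ^ n / 2 ^ r := by
          have h3 : ∏ u : PL L l, ((Nat.card (kk L u) : ℝ) / 2) = (l : ℝ) ^ n / 2 ^ r := by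
            rw [prod_div_distrib, hcardk', prod_const, card_univ, hr]
          rw [← h3, ← h5]
          have h4 : ∏ u : PL L l, (if u = u0 then (Nat.card (kk L u) : ℝ) / 2 else 1) =
              (Nat.card (kk L u0) : ℝ) / 2 := by
            rw [prod_ite_eq' univ u0]
            simp
          rw [← h4, ← prod_mul_distrib]
          refine prod_congr rfl fun u _ => ?_
          split_ifs <;> ring
        have h6 : ∏ u : PL L l, (if u = u0 then (1 : ℝ) else (Nat.card (kk L u) : ℝ) / 2) =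
            (l : ℝ) ^ n / 2 ^ r / (l / 2) := by
          rw [eq_div_iff (by positivity)]
          exact h2
        rw [h6]
        apply le_of_eq
        field_simp
        ring
      · exact le_refl _
    refine (sum_le_sum fun u0 _ => h1 u0).trans (le_of_eq ?_)
    rw [← sum_filter, sum_const, ← hNW, nsmul_eq_mul]
  -- the constant
  have hF : (N : ℝ) * (4 / 2 ^ r) ≤ tau L l := by
    unfold tau
    rw [← hN, ← hn]
    split_ifs with h1 h2
    · rw [h1]
      simp
    · rw [h2]
      have h3 : (2 : ℝ) ^ n ≤ 2 ^ r := pow_le_pow_right₀ (by norm_num) (by omega)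
      rw [mul_div_assoc]
      refine mul_le_mul_of_nonneg_left ?_ (Nat.cast_nonneg _)
      exact div_le_div_of_nonneg_left (by norm_num) (by positivity) h3
    · have h3 : N + 1 ≤ r := by
        rcases lt_or_eq_of_le hNr with h4 | h4
        · exact h4
        · exact absurd (hNrn h4) h2
      have h4 : (2 : ℝ) ^ (N + 1) ≤ 2 ^ r := pow_le_pow_right₀ (by norm_num) h3
      have h5 : (N : ℝ) * 2 ≤ 2 ^ N := by
        have h6 : ∀ m : ℕ, 1 ≤ m → m * 2 ≤ 2 ^ m := by
          intro m hm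
          induction m, hm using Nat.le_induction with
          | base => norm_num
          | succ m hm ih =>
            rw [pow_succ]
            omega
        exact_mod_cast h6 N (by omega)
      rw [mul_div_assoc', div_le_one (by positivity)]
      calc (N : ℝ) * 4 = 2 * ((N : ℝ) * 2) := by ring
        _ ≤ 2 * 2 ^ N := by linarith
        _ = 2 ^ (N + 1) := by ring
        _ ≤ 2 ^ r := h4
  have hG := Pool.Agent.Q247.EL.bern (1 / (l : ℝ)) (by positivity) (by rw [div_le_one hl0]; exact hl1) N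
  have hNn : (N : ℝ) ^ 2 ≤ (n : ℝ) ^ 2 := by
    have : (N : ℝ) ≤ n := by exact_mod_cast hNr.trans hrn
    exact pow_le_pow_left₀ (Nat.cast_nonneg _) this 2
  refine (hC.trans (add_le_add hD hE)).trans ?_
  have e1 : (N : ℝ) * ((l : ℝ) ^ n * (4 / 2 ^ r / l)) = (l : ℝ) ^ n * (((N : ℝ) * (4 / 2 ^ r)) / l) := by ring
  rw [e1, ← mul_add]
  refine mul_le_mul_of_nonneg_left ?_ (by positivity)
  have h7 : ((N : ℝ) * (4 / 2 ^ r)) / l ≤ tau L l / l := div_le_div_of_nonneg_right hF hl0.le
  have h8 : (N : ℝ) ^ 2 * (1 / (l : ℝ)) ^ 2 ≤ (n : ℝ) ^ 2 / (l : ℝ) ^ 2 := by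
    rw [one_div, inv_pow, ← div_eq_mul_inv]
    exact div_le_div_of_nonneg_right hNn (by positivity)
  rw [← hN]
  have e2 : ((N : ℝ) - tau L l) / l = N * (1 / l) - tau L l / l := by ring
  rw [e2]
  linarith

end Pool.Agent.H11.EM.CNT
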