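import Pool.Agent.H11.EM.Up

/-! Project EM: the upper bound. -/

set_option autoImplicit false
set_option linter.unusedSectionVars false

namespace Pool.Agent.H11.EM

open Polynomial NumberField IsDedekindDomain Finset Filter Topology
open Pool.Agent.Q51.EL (Abv Par N1 pr CovPt Setup hom CurvePt)
open Pool.Agent.W5h36.EL (SR SQ RP)

variable {K : Type} [Fintype K] [DecidableEq K] {f : K → ℤ[X]} {L : K → Type} [∀ k, Field (L k)]
  [∀ k, NumberField (L k)] {θ : ∀ k, L k}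

lemma ncard_cover (E G : Set ℤ) (F : K → Set ℤ) (hG : G.Finite) (hF : ∀ k, (F k).Finite)
    (h : E ⊆ G ∪ ⋃ k, F k) : (E.ncard : ℝ) ≤ G.ncard + ∑ k, ((F k).ncard : ℝ) := by
  classical
  have h1 : E.ncard ≤ G.ncard + ∑ k, (F k).ncard := by
    refine (Set.ncard_le_ncard h (hG.union (Set.finite_iUnion hF))).trans ?_
    refine (Set.ncard_union_le _ _).trans (Nat.add_le_add_left ?_ _)
    have h2 : (⋃ k, F k) = ((univ.biUnion fun k => (hF k).toFinset : Finset ℤ) : Set ℤ) := by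
      ext x
      simp
    rw [h2, Set.ncard_coe_finset]
    refine card_biUnion_le.trans (le_of_eq (sum_congr rfl fun k _ => ?_))
    rw [Set.ncard_eq_toFinset_card _ (hF k)]
  exact_mod_cast h1

theorem upper [Nonempty K] (hs : Sys f L θ) (hev : Even (∏ k, f k).natDegree)
    (h6 : 6 ≤ (∏ k, f k).natDegree) (ν : Finset K → ℝ) (h0 : ∀ T, 0 ≤ ν T)
    (hk : ∀ k, 0 < ν {k})
    (hsum : ∀ (T : Finset (Finset K)) (η : ℝ), 0 < η → ∃ C : ℝ, ∀ Y : ℝ, 3 ≤ Y →
        ∑ q ∈ (pr Y).filter (fun q => SR f q ∈ T), (1 : ℝ) / q ≤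
          (∑ t ∈ T, ν t + η) * Real.log (Real.log Y) + C) :
    ∃ δ C : ℝ, 0 < δ ∧ ∀ᶠ X : ℕ in atTop,
      ({D : ℤ | D.natAbs ≤ X ∧ Squarefree D ∧ Sel (∏ k, f k) D}.ncard : ℝ) ≤
        C * X * Real.log X ^ (∑ T ∈ univ.filter (fun T : Finset K => T.Nonempty), ν T - 1 - δ) := by
  classical
  obtain ⟨B, C1, C2, C3, c, T, A, P, hB, hC1, hC2, hc, hA, hE, hbox, hGN⟩ := data hs hev h6
  set g : ℤ[X] := ∏ k, f k with hg
  set n : ℕ := dg L with hn
  have hn1 : (1 : ℝ) ≤ n := by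
    have : 1 ≤ n := by rw [hn, hs.deg, ← hg]; omega
    exact_mod_cast this
  set E : Set ℤ := {D : ℤ | Squarefree D ∧ Sel g D} with hEdef
  obtain ⟨C4, hC4, hgood⟩ := good_count T A P E C1 C2 c hC2 hA
    (fun D hD => ⟨(hE D hD.1 hD.2).1, (hE D hD.1 hD.2).2.1, (hE D hD.1 hD.2).2.2.1,
      (hE D hD.1 hD.2).2.2.2.1⟩) hbox
  obtain ⟨C5, hC5, hbad⟩ := bad_count f P E B hB
    (fun D hD => ⟨hD.1.ne_zero, (hE D hD.1 hD.2).1, (hE D hD.1 hD.2).2.2.2.2⟩)
  set ρ : ℝ := ∑ T ∈ univ.filter (fun T : Finset K => T.Nonempty), ν T with hρ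
  have hρ0 : 0 ≤ ρ := sum_nonneg fun T _ => h0 T
  -- parameters
  obtain ⟨κ, hκ0, hκ⟩ : ∃ κ : ℝ, 0 < κ ∧ ∀ k, κ ≤ ν {k} := by
    obtain ⟨k0, -, hk0⟩ := Finset.exists_min_image univ (fun k => ν {k}) univ_nonempty
    exact ⟨ν {k0}, hk k0, fun k => hk0 k (mem_univ k)⟩
  set r : ℝ := (Fintype.card K : ℝ) with hr
  have hr1 : 1 ≤ r := by
    have h1 : 1 ≤ Fintype.card K := Fintype.card_pos
    rw [hr]
    exact_mod_cast h1
  set ε : ℝ := min (1 / 2) (c / (2 * (r + c))) with hε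
  have hε0 : 0 < ε := lt_min (by norm_num) (by positivity)
  have hε1 : ε ≤ 1 / 2 := min_le_left _ _
  have hε2 : ε * (r + c) ≤ c / 2 := by
    have h1 : ε ≤ c / (2 * (r + c)) := min_le_right _ _
    rw [le_div_iff₀ (by positivity)] at h1
    linarith
  set η : ℝ := min (c / 8) (ε * κ / 8) with hη
  have hη0 : 0 < η := lt_min (by positivity) (by positivity)
  have hη1 : η ≤ c / 8 := min_le_left _ _
  have hη2 : η ≤ ε * κ / 8 := min_le_right _ _
  -- the sums over primes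
  obtain ⟨C6, hC6⟩ := hsum (univ.filter (fun T : Finset K => T.Nonempty)) η hη0
  have h1 := fun k : K => hsum (univ.filter (fun T : Finset K => T.Nonempty ∧ T ≠ {k})) η hη0
  choose C7 hC7 using h1
  have h2 := fun k : K => hsum {{k}} η hη0
  choose C8 hC8 using h2
  have hT1 : ∀ k : K, ∑ T ∈ univ.filter (fun T : Finset K => T.Nonempty ∧ T ≠ {k}), ν T =
      ρ - ν {k} := by
    intro k
    have e1 : univ.filter (fun T : Finset K => T.Nonempty ∧ T ≠ {k}) =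
        (univ.filter (fun T : Finset K => T.Nonempty)).erase {k} := by
      ext T
      simp only [mem_filter, mem_univ, true_and, mem_erase]
      tauto
    rw [e1, Finset.sum_erase_eq_sub (mem_filter.2 ⟨mem_univ _, singleton_nonempty k⟩)]
  have hr' : ((Fintype.card K - 1 : ℕ) : ℝ) = r - 1 := by
    rw [Nat.cast_sub Fintype.card_pos, Nat.cast_one]
  set δ : ℝ := min (3 * c / 8) (3 * ε * κ / 4) with hδ
  have hδ0 : 0 < δ := lt_min (by positivity) (by positivity)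
  refine ⟨δ, C4 * 3 ^ (Fintype.card K - 1) * Real.exp (C6 + C3) +
    ∑ k, C5 * Real.exp ((ν {k} + η) * Real.log n + (C7 k + C8 k)), hδ0, ?_⟩
  have hlim : ∀ᶠ X : ℕ in atTop, (2 : ℝ) ≤ Real.log X ^ (1 - ε) :=
    ((tendsto_rpow_atTop (by linarith : (0 : ℝ) < 1 - ε)).comp (Real.tendsto_log_atTop.comp
      tendsto_natCast_atTop_atTop)).eventually_ge_atTop 2
  filter_upwards [hlim, eventually_ge_atTop 3] with X hX2 hX3
  have hX3' : (3 : ℝ) ≤ X := by exact_mod_cast hX3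
  have hl1 : (1 : ℝ) < Real.log X := Pool.Agent.W262.TW.one_lt_log hX3
  have hl0 : (0 : ℝ) < Real.log X := by linarith
  have hX0 : (0 : ℝ) < X := by linarith
  set Z : ℝ := Real.exp (Real.log X ^ (1 - ε)) with hZ
  have hlZ : Real.log Z = Real.log X ^ (1 - ε) := Real.log_exp _
  have hZ3 : 3 ≤ Z := by
    have h3 : Real.exp 2 ≤ Z := Real.exp_le_exp.2 hX2
    have h4 : (2.7182818283 : ℝ) < Real.exp 1 := Real.exp_one_gt_d9
    have h5 : Real.exp 2 = Real.exp 1 * Real.exp 1 := by rw [← Real.exp_add]; norm_num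
    nlinarith
  set W : ℝ := Z ^ n with hW
  have hW3 : 3 ≤ W := by
    have h3 : 1 ≤ n := by exact_mod_cast hn1
    calc (3 : ℝ) ≤ Z := hZ3
      _ = Z ^ 1 := (pow_one Z).symm
      _ ≤ Z ^ n := pow_le_pow_right₀ (by linarith) h3
  have hlW : Real.log W = n * Real.log X ^ (1 - ε) := by
    rw [hW, Real.log_pow, hlZ]
  -- the decomposition
  have hcov := ncard_cover {D : ℤ | D.natAbs ≤ X ∧ Squarefree D ∧ Sel g D}
    {D : ℤ | D.natAbs ≤ X ∧ D ∈ E ∧ ∀ k, Z ^ n ≤ P D k}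
    (fun k => {D : ℤ | D.natAbs ≤ X ∧ D ∈ E ∧ (P D k : ℝ) < W}) (fin_nat X _)
    (fun k => fin_nat X _) (by
      rintro D ⟨hDX, hDE⟩
      by_cases h : ∀ k, Z ^ n ≤ P D k
      · exact Or.inl ⟨hDX, hDE, h⟩
      · right
        push Not at h
        obtain ⟨k, hk⟩ := h
        exact Set.mem_iUnion.2 ⟨k, hDX, hDE, hk⟩)
  refine hcov.trans ?_
  have hg1 : ({D : ℤ | D.natAbs ≤ X ∧ D ∈ E ∧ ∀ k, Z ^ n ≤ P D k}.ncard : ℝ) ≤
      C4 * 3 ^ (Fintype.card K - 1) * Real.exp (C6 + C3) * X *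
        Real.log X ^ (ρ - 1 - 3 * c / 8) := by
    refine (hgood Z X hZ3 (by omega)).trans ?_
    refine good_exp C4 (C6 + C3) ρ η r c ε _ hr' hC4 (by linarith) hη1 hε0 hε1 hε2 X hX3 _ Z hlZ ?_
    have h3 := hGN Z
    have h4 := hC6 Z hZ3
    have h5 : ∑ q ∈ (pr Z).filter (fun q => (SR f q).Nonempty), (1 : ℝ) / q =
        ∑ q ∈ (pr Z).filter (fun q => SR f q ∈ univ.filter (fun T : Finset K => T.Nonempty)),
          (1 : ℝ) / q := by
      refine sum_congr (filter_congr fun q _ => ?_) fun _ _ => rfl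
      simp
    rw [h5] at h3
    linarith
  have hb1 : ∀ k, ({D : ℤ | D.natAbs ≤ X ∧ D ∈ E ∧ (P D k : ℝ) < W}.ncard : ℝ) ≤
      C5 * Real.exp ((ν {k} + η) * Real.log n + (C7 k + C8 k)) * X *
        Real.log X ^ (ρ - 1 - 3 * ε * κ / 4) := by
    intro k
    refine (hbad k X W hX3).trans ?_
    refine bad_exp C5 (C7 k + C8 k) ρ (ν {k}) η κ ε n hn1 hC5 (hκ k) hη0 hη2 hε0 X hX3 _ W hlW ?_
    have h3 := hC7 k X hX3'
    have h4 := hC8 k W hW3
    rw [hT1] at h3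
    rw [sum_singleton] at h4
    have h5 : (pr X).filter (fun q => (SR f q).Nonempty ∧ (SR f q = {k} → (q : ℝ) < W)) ⊆
        (pr X).filter (fun q => SR f q ∈
          univ.filter (fun T : Finset K => T.Nonempty ∧ T ≠ {k})) ∪
        (pr W).filter (fun q => SR f q ∈ ({{k}} : Finset (Finset K))) := by
      intro q hq
      obtain ⟨hq1, hq2, hq3⟩ := mem_filter.1 hq
      by_cases h : SR f q = {k}
      · refine mem_union_right _ (mem_filter.2 ⟨?_, mem_singleton.2 h⟩)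
        have h6 := hq3 h
        obtain ⟨h7, h8⟩ := mem_filter.1 hq1
        exact mem_filter.2 ⟨mem_Icc.2 ⟨(mem_Icc.1 h7).1, Nat.le_floor h6.le⟩, h8⟩
      · exact mem_union_left _ (mem_filter.2 ⟨hq1, mem_filter.2 ⟨mem_univ _, hq2, h⟩⟩)
    have h6 := Finset.sum_le_sum_of_subset_of_nonneg (f := fun q : ℕ => (1 : ℝ) / q) h5
      (fun _ _ _ => by positivity)
    have h7 := Finset.sum_union_inter (s₁ := (pr X).filter (fun q => SR f q ∈
          univ.filter (fun T : Finset K => T.Nonempty ∧ T ≠ {k})))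
      (s₂ := (pr W).filter (fun q => SR f q ∈ ({{k}} : Finset (Finset K))))
      (f := fun q : ℕ => (1 : ℝ) / q)
    have h8 : 0 ≤ ∑ q ∈ (pr X).filter (fun q => SR f q ∈
          univ.filter (fun T : Finset K => T.Nonempty ∧ T ≠ {k})) ∩
        (pr W).filter (fun q => SR f q ∈ ({{k}} : Finset (Finset K))), (1 : ℝ) / q :=
      Finset.sum_nonneg fun _ _ => by positivity
    linarith
  have hexp1 : Real.log X ^ (ρ - 1 - 3 * c / 8) ≤ Real.log X ^ (ρ - 1 - δ) :=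
    Real.rpow_le_rpow_of_exponent_le hl1.le (by linarith [min_le_left (3 * c / 8) (3 * ε * κ / 4)])
  have hexp2 : Real.log X ^ (ρ - 1 - 3 * ε * κ / 4) ≤ Real.log X ^ (ρ - 1 - δ) :=
    Real.rpow_le_rpow_of_exponent_le hl1.le (by linarith [min_le_right (3 * c / 8) (3 * ε * κ / 4)])
  rw [add_mul, add_mul, sum_mul, sum_mul]
  refine add_le_add (hg1.trans ?_) (sum_le_sum fun k _ => (hb1 k).trans ?_)
  · exact mul_le_mul_of_nonneg_left hexp1 (by positivity)
  · exact mul_le_mul_of_nonneg_left hexp2 (by positivity)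

end Pool.Agent.H11.EM
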