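import Mathlib
import Pool.Agent.H11.EM.Stm
import Pool.Agent.H11.V.R_pool_sql_team_seeded_3997aac3_Q247_EB_BC
import Pool.Agent.H11.V.R_pool_sql_team_seeded_3997aac3_Q58_EB_Ev

set_option autoImplicit false

/-! Project EM (helper11), job S2E (helper44): the coverings lie over `C_D`. -/

namespace Pool.Agent.H11.EM

open Polynomial Finset
open Pool.Agent.Q51.EL (CovPt hom CurvePt)
open Pool.Agent.Q51.EB (up)

theorem s2e_gen (g : ℤ[X]) (hg : g ≠ 0) (D : ℤ) (d : ℚ[X]) (hD : D ≠ 0)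
    (hsq : IsSquare (((D * g.leadingCoeff : ℤ) : ℚ) *
      Algebra.norm ℚ (AdjoinRoot.mk (g.map (Int.castRingHom ℚ)) d)))
    (F : Type) [Field F] [CharZero F] (hcov : CovPt g d F) : CurvePt g D F := by
  obtain ⟨x, w, q, hxw, hdvd⟩ := hcov
  obtain ⟨s, hs⟩ := hsq
  have hgF : up g F ≠ 0 := by
    unfold up
    exact (Polynomial.map_ne_zero_iff (Int.cast_injective (α := F))).2 hg
  have hgQ : up g ℚ ≠ 0 := by
    unfold up
    exact (Polynomial.map_ne_zero_iff (Int.cast_injective (α := ℚ))).2 hg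
  have h1 : AdjoinRoot.mk (up g F) (C x - C w * X) =
      AdjoinRoot.mk (up g F) (d.map (Rat.castHom F)) * AdjoinRoot.mk (up g F) q ^ 2 := by
    rw [← map_pow, ← map_mul, AdjoinRoot.mk_eq_mk]
    exact hdvd
  have h2 := congrArg (Algebra.norm F) h1
  rw [map_mul, map_pow] at h2
  have h3 : Algebra.norm F (AdjoinRoot.mk (up g F) (d.map (Rat.castHom F))) =
      ((Algebra.norm ℚ (AdjoinRoot.mk (up g ℚ) d) : ℚ) : F) := by
    rw [Pool.Agent.Q247.EB.up_map g F, Pool.Agent.Q247.EB.norm_bc (Rat.castHom F) hgQ d]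
    rfl
  have h4 := Pool.Agent.Q58.EB.norm_lin (F := F) hg x w
  rw [h2, h3] at h4
  obtain ⟨G, hG⟩ : ∃ G, G = Algebra.norm F (AdjoinRoot.mk (up g F) q) := ⟨_, rfl⟩
  obtain ⟨N, hN⟩ : ∃ N, N = Algebra.norm ℚ (AdjoinRoot.mk (up g ℚ) d) := ⟨_, rfl⟩
  have hs' : ((D * g.leadingCoeff : ℤ) : ℚ) * N = s * s := by
    rw [hN]
    exact hs
  rw [← hG, ← hN] at h4
  have hDF : (D : F) ≠ 0 := by exact_mod_cast hD
  have h8 : ((D : F) * (g.leadingCoeff : F)) * (N : F) = (s : F) * (s : F) := by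
    have := congrArg (fun q : ℚ => (q : F)) hs'
    push_cast at this
    exact this
  refine ⟨x, w, (s : F) * G / D, hxw, ?_⟩
  rw [← h4]
  field_simp
  linear_combination (-(G ^ 2)) * h8

theorem s2e : S_S2E := fun g hsep _ D d hD hsq F _ _ hcov =>
  s2e_gen g (by
    rintro rfl
    rw [Polynomial.map_zero] at hsep
    exact hsep.ne_zero rfl) D d hD hsq F hcov

end Pool.Agent.H11.EM
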