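import Pool.Agent.H11.EM.Fin
import Pool.Agent.H11.EM.LIFT
import Pool.Agent.H11.EM.S2E

/-! Project EM: the main theorem. -/

set_option autoImplicit false
set_option linter.unusedSectionVars false

namespace Pool.Agent.H11.EM

open Polynomial NumberField IsDedekindDomain Finset Filter Topology
open Pool.Agent.Q51.EL (Abv Par N1 pr CovPt Setup hom CurvePt)
open Pool.Agent.W5h36.EL (SR SQ RP)

section hom

variable {F : Type} [Field F] [CharZero F]

lemma hom_ne (f : ℤ[X]) (x w : F) (hw : w ≠ 0) :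
    hom f x w = w ^ f.natDegree * (f.map (Int.castRingHom F)).eval (x / w) := by
  rw [eval_eq_sum_range, natDegree_map_eq_of_injective (RingHom.injective_int _), hom,
    Finset.mul_sum]
  refine Finset.sum_congr rfl fun i hi => ?_
  have hi' : i ≤ f.natDegree := Nat.lt_succ_iff.1 (Finset.mem_range.1 hi)
  rw [coeff_map, div_pow, eq_intCast]
  have h : w ^ f.natDegree = w ^ (f.natDegree - i) * w ^ i := by
    rw [← pow_add, Nat.sub_add_cancel hi']
  rw [h]
  field_simp

lemma hom_zer (f : ℤ[X]) (x : F) : hom f x 0 = f.leadingCoeff * x ^ f.natDegree := by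
  rw [hom, Finset.sum_eq_single f.natDegree]
  · simp
  · intro i hi hne
    have hi' : i ≤ f.natDegree := Nat.lt_succ_iff.1 (Finset.mem_range.1 hi)
    rw [zero_pow (by omega), mul_zero]
  · intro h
    exact absurd (Finset.mem_range.2 (Nat.lt_succ_self _)) h

lemma hom_prod {K : Type} [Fintype K] (f : K → ℤ[X]) (hf : ∀ k, f k ≠ 0) (x w : F) :
    hom (∏ k, f k) x w = ∏ k, hom (f k) x w := by
  by_cases hw : w = 0
  · subst hw
    simp only [hom_zer]
    rw [Finset.prod_mul_distrib, Finset.prod_pow_eq_pow_sum, leadingCoeff_prod,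
      natDegree_prod _ _ fun k _ => hf k]
    push_cast
    rfl
  · simp only [hom_ne _ _ _ hw]
    rw [Finset.prod_mul_distrib, Finset.prod_pow_eq_pow_sum, Polynomial.map_prod, eval_prod,
      natDegree_prod _ _ fun k _ => hf k]

end hom

lemma els_iff {K : Type} [Fintype K] (f : K → ℤ[X]) (hf : ∀ k, f k ≠ 0) (d : ℤ) :
    Pool.Agent.W5h36.EL.ELS f d ↔ Pool.Agent.Q51.EL.ELS (∏ k, f k) d := by
  have h1 : ∀ (F : Type) [Field F] [CharZero F],
      Pool.Agent.W5h36.EL.CP f d F ↔ CurvePt (∏ k, f k) d F := by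
    intro F _ _
    unfold Pool.Agent.W5h36.EL.CP CurvePt
    simp only [hom_prod f hf]
    rfl
  exact and_congr (h1 ℝ) (forall_congr' fun p => forall_congr' fun hp => h1 ℚ_[p])

lemma exists_setup (f : ℤ[X]) (hf : Irreducible (f.map (Int.castRingHom ℚ))) :
    ∃ (L : Type) (_ : Field L) (_ : NumberField L) (θ : L), Setup f L θ := by
  have : Fact (Irreducible (f.map (Int.castRingHom ℚ))) := ⟨hf⟩
  set L := AdjoinRoot (f.map (Int.castRingHom ℚ)) with hL
  have hfd : FiniteDimensional ℚ L := PowerBasis.finite (AdjoinRoot.powerBasis hf.ne_zero)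
  have : CharZero L := algebraRat.charZero L
  have hN : NumberField L := { to_charZero := inferInstance, to_finiteDimensional := hfd }
  set θ : L := AdjoinRoot.root (f.map (Int.castRingHom ℚ)) with hθ
  have hnd : (f.map (Int.castRingHom ℚ)).natDegree = f.natDegree :=
    natDegree_map_eq_of_injective (Int.castRingHom ℚ).injective_int f
  refine ⟨L, inferInstance, hN, θ, hf, ?_, ?_⟩
  · have h1 := AdjoinRoot.eval₂_root (f.map (Int.castRingHom ℚ))
    rw [eval₂_map] at h1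
    rw [aeval_def, ← h1]
    congr 1
  · rw [(AdjoinRoot.powerBasis hf.ne_zero).finrank, AdjoinRoot.powerBasis_dim, hnd]

theorem main (K : Type) [Fintype K] [DecidableEq K] [Nonempty K] (f : K → ℤ[X])
    (hf1 : ∀ k, Irreducible ((f k).map (Int.castRingHom ℚ)))
    (hf3 : ∀ k l, k ≠ l →
      ¬ Associated ((f k).map (Int.castRingHom ℚ)) ((f l).map (Int.castRingHom ℚ)))
    (hev : Even (∏ k, f k).natDegree) (h6 : 6 ≤ (∏ k, f k).natDegree)
    (hσ : ∀ k, ∃ σ, SQ f σ = {k}) :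
    (∀ D : ℤ, D ≠ 0 → CurvePt (∏ k, f k) D ℚ → Sel (∏ k, f k) D) ∧
    (∀ D : ℤ, D ≠ 0 → Sel (∏ k, f k) D → Pool.Agent.Q51.EL.ELS (∏ k, f k) D) ∧
    (∃ δ C : ℝ, 0 < δ ∧ ∀ X : ℕ, 3 ≤ X →
      ({D : ℤ | D.natAbs ≤ X ∧ Squarefree D ∧ Sel (∏ k, f k) D}.ncard : ℝ) ≤
        C * Real.log X ^ (-δ) *
        ({D : ℤ | D.natAbs ≤ X ∧ Squarefree D ∧
          Pool.Agent.Q51.EL.ELS (∏ k, f k) D}.ncard : ℝ)) ∧
    ∀ᶠ X : ℕ in atTop, (X : ℝ) / Real.log X ≤
      ({D : ℤ | D.natAbs ≤ X ∧ Squarefree D ∧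
        Pool.Agent.Q51.EL.ELS (∏ k, f k) D}.ncard : ℝ) := by
  classical
  have hf0 : ∀ k, f k ≠ 0 := by
    intro k h
    exact (hf1 k).ne_zero (by rw [h, Polynomial.map_zero])
  choose L iF iN θ hset using fun k => exists_setup (f k) (hf1 k)
  have hs : Sys f L θ := ⟨hset, hf3⟩
  have hg0 : ∏ k, f k ≠ 0 := hs.prod_ne
  obtain ⟨ν, h0, h1, h2, h3, h4⟩ := sums f hf1 hf3
  have hνk : ∀ k, 0 < ν {k} := by
    intro k
    obtain ⟨σ, hσk⟩ := hσ k
    rw [← hσk]
    exact h2 σ
  have hELS : ∀ D : ℤ, D ≠ 0 → Sel (∏ k, f k) D → Pool.Agent.Q51.EL.ELS (∏ k, f k) D := by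
    rintro D hD ⟨d, hd, hsq, hR, hp⟩
    exact ⟨s2e_gen _ hg0 D d hD hsq ℝ hR, fun p _ => s2e_gen _ hg0 D d hD hsq ℚ_[p] (hp p)⟩
  obtain ⟨δ, C, hδ, hup⟩ := upper hs hev h6 ν h0 hνk h4
  set ρ : ℝ := ∑ T ∈ univ.filter (fun T : Finset K => T.Nonempty), ν T with hρ
  have hρν : ρ = 1 - ν ∅ := by
    have e1 : univ.filter (fun T : Finset K => T.Nonempty) = univ.erase ∅ := by
      ext T
      simp [Finset.nonempty_iff_ne_empty]
    rw [hρ, e1, Finset.sum_erase_eq_sub (mem_univ _), h1]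
  have hρ0 : 0 < ρ := by
    obtain ⟨k⟩ : Nonempty K := inferInstance
    refine lt_of_lt_of_le (hνk k) ?_
    exact Finset.single_le_sum (f := ν) (fun T _ => h0 T)
      (mem_filter.2 ⟨mem_univ _, singleton_nonempty k⟩)
  set δ' : ℝ := min δ ρ with hδ'
  have hδ'0 : 0 < δ' := lt_min hδ hρ0
  have hβ0 : 0 < ρ - δ' / 2 := by linarith [min_le_right δ ρ]
  obtain ⟨c, hc, hlow⟩ := h3 (ρ - δ' / 2) hβ0 (by rw [← hρν]; linarith)
  simp only [els_iff f hf0] at hlow
  set NS : ℕ → ℝ := fun X => ({D : ℤ | D.natAbs ≤ X ∧ Squarefree D ∧ Sel (∏ k, f k) D}.ncard : ℝ)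
    with hNS
  set NE : ℕ → ℝ := fun X => ({D : ℤ | D.natAbs ≤ X ∧ Squarefree D ∧
          Pool.Agent.Q51.EL.ELS (∏ k, f k) D}.ncard : ℝ) with hNE
  have hle : ∀ X, NS X ≤ NE X := by
    intro X
    refine Nat.cast_le.2 (Set.ncard_le_ncard ?_ (fin_nat X _))
    rintro D ⟨h5, h6, h7⟩
    exact ⟨h5, h6, hELS D h6.ne_zero h7⟩
  have hev1 : ∀ᶠ X : ℕ in atTop, NS X ≤ max C 0 / c * Real.log X ^ (-(δ' / 2)) * NE X := by
    filter_upwards [hup, hlow, eventually_ge_atTop 3] with X h5 h6 hX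
    have hl1 : (1 : ℝ) < Real.log X := Pool.Agent.W262.TW.one_lt_log hX
    have hl0 : (0 : ℝ) < Real.log X := by linarith
    have hX0 : (0 : ℝ) < X := by exact_mod_cast (by omega : 0 < X)
    have e1 : Real.log X ^ (ρ - 1 - δ) ≤
        Real.log X ^ (-(δ' / 2)) * Real.log X ^ (ρ - δ' / 2 - 1) := by
      rw [← Real.rpow_add hl0]
      apply Real.rpow_le_rpow_of_exponent_le hl1.le
      linarith [min_le_left δ ρ]
    calc NS X ≤ C * X * Real.log X ^ (ρ - 1 - δ) := h5
      _ ≤ max C 0 * X * Real.log X ^ (ρ - 1 - δ) := by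
          refine mul_le_mul_of_nonneg_right (mul_le_mul_of_nonneg_right (le_max_left _ _) hX0.le)
            (by positivity)
      _ ≤ max C 0 * X * (Real.log X ^ (-(δ' / 2)) * Real.log X ^ (ρ - δ' / 2 - 1)) :=
          mul_le_mul_of_nonneg_left e1 (by positivity)
      _ = max C 0 / c * Real.log X ^ (-(δ' / 2)) * (c * X * Real.log X ^ (ρ - δ' / 2 - 1)) := by
          field_simp
      _ ≤ _ := mul_le_mul_of_nonneg_left h6 (by positivity)
  refine ⟨fun D hD hpt => ?_, hELS, ?_, ?_⟩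
  · refine LIFT.main (∏ k, f k) (Pool.Agent.W5h36.EL.sep_prod f hf1 hf3) hev (fun x hx => ?_) D hD hpt
    rw [map_prod, Finset.prod_eq_zero_iff] at hx
    obtain ⟨k, -, hk⟩ := hx
    by_cases hK : ∃ j, j ≠ k
    · obtain ⟨j, hj⟩ := hK
      obtain ⟨σ, hσj⟩ := hσ j
      have h5 : k ∈ SQ f σ := by
        refine mem_filter.2 ⟨mem_univ _, algebraMap ℚ (AlgebraicClosure ℚ) x, ?_, σ.commutes x⟩
        rw [aeval_algebraMap_apply, hk, map_zero]
      rw [hσj, mem_singleton] at h5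
      exact hj h5.symm
    · push Not at hK
      have h5 : ∏ k, f k = f k := Fintype.prod_eq_single k fun j hj => absurd (hK j) hj
      rw [h5] at h6
      have h7 : ((f k).map (Int.castRingHom ℚ)).natDegree = 1 :=
        Polynomial.natDegree_eq_of_degree_eq_some
          (Polynomial.degree_eq_one_of_irreducible_of_root (hf1 k) (x := x) (by
            rw [IsRoot.def, eval_map]
            exact hk))
      rw [natDegree_map_eq_of_injective (RingHom.injective_int _)] at h7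
      omega
  · obtain ⟨X1, hX1⟩ := eventually_atTop.1 hev1
    refine ⟨δ' / 2, max (max C 0 / c) (Real.log (max X1 3 : ℕ) ^ (δ' / 2)), by linarith,
      fun X hX => ?_⟩
    have hl1 : (1 : ℝ) < Real.log X := Pool.Agent.W262.TW.one_lt_log hX
    have hl0 : (0 : ℝ) < Real.log X := by linarith
    have hNE0 : 0 ≤ NE X := Nat.cast_nonneg _
    rcases le_total X1 X with h | h
    · refine (hX1 X h).trans ?_
      exact mul_le_mul_of_nonneg_right (mul_le_mul_of_nonneg_right (le_max_left _ _)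
        (by positivity)) hNE0
    · refine (hle X).trans ?_
      have h5 : (1 : ℝ) ≤ Real.log (max X1 3 : ℕ) ^ (δ' / 2) * Real.log X ^ (-(δ' / 2)) := by
        rw [Real.rpow_neg hl0.le, ← div_eq_mul_inv, one_le_div (by positivity)]
        refine Real.rpow_le_rpow hl0.le (Real.log_le_log (by positivity) ?_) (by linarith)
        exact_mod_cast h.trans (le_max_left _ _)
      calc NE X = 1 * NE X := (one_mul _).symm
        _ ≤ (Real.log (max X1 3 : ℕ) ^ (δ' / 2) * Real.log X ^ (-(δ' / 2))) * NE X :=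
            mul_le_mul_of_nonneg_right h5 hNE0
        _ ≤ _ := mul_le_mul_of_nonneg_right (mul_le_mul_of_nonneg_right (le_max_right _ _)
            (by positivity)) hNE0
  · have hlim : ∀ᶠ X : ℕ in atTop, 1 / c ≤ Real.log X ^ (ρ - δ' / 2) :=
      ((tendsto_rpow_atTop hβ0).comp (Real.tendsto_log_atTop.comp
        tendsto_natCast_atTop_atTop)).eventually_ge_atTop (1 / c)
    filter_upwards [hlow, hlim, eventually_ge_atTop 3] with X h5 h6 hX
    have hl1 : (1 : ℝ) < Real.log X := Pool.Agent.W262.TW.one_lt_log hX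
    have hl0 : (0 : ℝ) < Real.log X := by linarith
    have hX0 : (0 : ℝ) < X := by exact_mod_cast (by omega : 0 < X)
    refine le_trans ?_ h5
    have e1 : Real.log X ^ (ρ - δ' / 2 - 1) = Real.log X ^ (ρ - δ' / 2) / Real.log X := by
      rw [Real.rpow_sub hl0, Real.rpow_one]
    rw [e1]
    have h7 : 1 ≤ c * Real.log X ^ (ρ - δ' / 2) := by
      rw [div_le_iff₀ hc] at h6
      linarith
    calc (X : ℝ) / Real.log X = X * 1 / Real.log X := by rw [mul_one]
      _ ≤ X * (c * Real.log X ^ (ρ - δ' / 2)) / Real.log X :=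
          div_le_div_of_nonneg_right (mul_le_mul_of_nonneg_left h7 hX0.le) hl0.le
      _ = _ := by ring

end Pool.Agent.H11.EM
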