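import Mathlib
import Pool.Agent.H11.EM.Stm
import Pool.Agent.H11.V.R_pool_sql_team_seeded_3997aac3_Q239_EL_DESC

/-! Project EM: approximation of a point of a covering over `ℚ_l`, for a reducible polynomial. -/

set_option autoImplicit false

namespace Pool.Agent.H11.EM

open Polynomial NumberField IsDedekindDomain Pool.Agent.Q239.EL
open Pool.Agent.Q51.EL (Abv Par N1 pr CovPt Setup hom CurvePt)

/-- `θ` is integral outside the leading coefficient -/
lemma val_theta' {L : Type} [Field L] [NumberField L] {l : ℕ} [hl : Fact l.Prime]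
    {v : HeightOneSpectrum (𝓞 L)} {f : ℤ[X]} {θ : L} (hr : aeval θ f = 0) (hv : Abv v l)
    (ha : ¬ (l : ℤ) ∣ f.leadingCoeff) : v.valuation L θ ≤ 1 := by
  have h1 : IsIntegral ℤ (f.leadingCoeff • θ) := isIntegral_leadingCoeff_smul f θ hr
  let t : 𝓞 L := ⟨f.leadingCoeff • θ, h1⟩
  have h2 : v.valuation L (t : L) ≤ 1 := HeightOneSpectrum.valuation_le_one v t
  have h3 : (t : L) = (f.leadingCoeff : L) * θ := by
    change f.leadingCoeff • θ = _
    rw [zsmul_eq_mul]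
  rw [h3, map_mul, val_int_eq hv ha, one_mul] at h2
  exact h2

theorem apm (f : ℤ[X]) (l : ℕ) [hl : Fact l.Prime] (ha : ¬ (l : ℤ) ∣ f.leadingCoeff) (d : ℚ[X])
    (hcov : CovPt f d ℚ_[l]) (n : ℕ) : ∃ (x w : ℤ) (e : ℕ) (G : ℚ[X]), e < 2 ∧
      (¬ (l : ℤ) ∣ x ∨ ¬ (l : ℤ) ∣ w) ∧
      ∀ (L : Type) [Field L] [NumberField L] (θ : L), aeval θ f = 0 →
      ∀ v : HeightOneSpectrum (𝓞 L), Abv v l →
      v.valuation L ((l : L) ^ e * ((x : L) - w * θ) - aeval θ d * aeval θ G ^ 2) ≤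
        WithZero.exp (-(n : ℤ)) := by
  obtain ⟨x, w, g, hxw, hdvd⟩ := hcov
  obtain ⟨h, hh⟩ := hdvd
  obtain ⟨k, x0, w0, hx0, hw0, hunit⟩ := normalize hxw
  have hl0 : (l : ℚ_[l]) ≠ 0 := by exact_mod_cast hl.out.ne_zero
  have hlR : (0 : ℝ) < l := by exact_mod_cast hl.out.pos
  -- parity
  obtain ⟨e, k', he, hk⟩ : ∃ (e : ℕ) (k' : ℤ), e < 2 ∧ k = e + 2 * k' := by
    refine ⟨(k % 2).toNat, k / 2, ?_, ?_⟩
    · omega
    · omega
  set u : ℚ_[l] := (l : ℚ_[l]) ^ (-k') with hu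
  set fl := f.map (Int.castRingHom ℚ_[l]) with hfl
  set dl := d.map (Rat.castHom ℚ_[l]) with hdl
  have hlk : (l : ℚ_[l]) ^ k * u ^ 2 = (l : ℚ_[l]) ^ e := by
    rw [hu, hk, ← zpow_natCast ((l : ℚ_[l]) ^ (-k')) 2, ← zpow_mul, ← zpow_add₀ hl0,
      ← zpow_natCast (l : ℚ_[l]) e]
    congr 1
    push_cast
    ring
  have h1 : C ((l : ℚ_[l]) ^ e) * (C (x0 : ℚ_[l]) - C (w0 : ℚ_[l]) * X) - dl * (C u * g) ^ 2 =
      fl * (C (u ^ 2) * h) := by
    calc C ((l : ℚ_[l]) ^ e) * (C (x0 : ℚ_[l]) - C (w0 : ℚ_[l]) * X) - dl * (C u * g) ^ 2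
        = C (u ^ 2) * (C x - C w * X - dl * g ^ 2) := by
          rw [← hlk, hx0, hw0]
          simp only [map_mul, map_pow]
          ring
      _ = _ := by rw [hh]; ring
  set g' := C u * g with hg'
  set h' := C (u ^ 2) * h with hh'
  obtain ⟨rd, hrd1, hrd⟩ := sm_exists dl
  obtain ⟨rg, hrg1, hrg⟩ := sm_exists g'
  have hlK : (0 : ℝ) < ((l : ℝ) ^ n)⁻¹ := inv_pos.mpr (pow_pos hlR n)
  set ε : ℝ := min 1 (((l : ℝ) ^ n)⁻¹ / (rd * rg)) with hε
  have hrr : 0 < rd * rg := by positivity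
  have hε0 : 0 < ε := lt_min one_pos (div_pos hlK hrr)
  have hε1 : ε ≤ 1 := min_le_left _ _
  have hε2 : rd * (ε * rg) ≤ ((l : ℝ) ^ n)⁻¹ := by
    have h2 : ε ≤ ((l : ℝ) ^ n)⁻¹ / (rd * rg) := min_le_right _ _
    rw [le_div_iff₀ hrr] at h2
    linarith
  obtain ⟨G, hG⟩ := sm_approx g' hε0
  obtain ⟨H, hH⟩ := sm_approx h' hlK
  obtain ⟨x1, hx1, hx1'⟩ := int_approx x0 (n + 1)
  obtain ⟨w1, hw1, hw1'⟩ := int_approx w0 (n + 1)
  refine ⟨x1, w1, e, G, he, ?_, fun L _ _ θ hroot v hv => ?_⟩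
  · rcases hunit with h2 | h2
    · exact Or.inl (hx1' h2 (Nat.succ_pos n))
    · exact Or.inr (hw1' h2 (Nat.succ_pos n))
  · have hKK : ((l : ℝ) ^ (n + 1))⁻¹ ≤ ((l : ℝ) ^ n)⁻¹ := by
      apply inv_anti₀ (pow_pos hlR n)
      exact pow_le_pow_right₀ (by exact_mod_cast hl.out.one_lt.le) (Nat.le_succ n)
    set E : ℚ[X] := C ((l : ℚ) ^ e) * (C (x1 : ℚ) - C (w1 : ℚ) * X) - d * G ^ 2 -
      f.map (Int.castRingHom ℚ) * H with hE
    have hEθ : aeval θ E = (l : L) ^ e * ((x1 : L) - w1 * θ) - aeval θ d * aeval θ G ^ 2 := by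
      have h3 : aeval θ (f.map (Int.castRingHom ℚ)) = 0 := by
        rw [← hroot]
        exact aeval_map_algebraMap ℚ θ f
      rw [hE]
      simp only [map_sub, map_mul, map_pow, aeval_C, aeval_X, h3, zero_mul, sub_zero, map_natCast,
        map_intCast]
    rw [← hEθ]
    apply val_aeval (val_theta' hroot hv ha) hv
    have hmap : E.map (Rat.castHom ℚ_[l]) =
        C ((l : ℚ_[l]) ^ e) * (C ((x1 : ℚ_[l]) - x0) - C ((w1 : ℚ_[l]) - w0) * X) +
        (dl * ((g' - G.map (Rat.castHom ℚ_[l])) * (g' + G.map (Rat.castHom ℚ_[l]))) +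
        fl * (h' - H.map (Rat.castHom ℚ_[l]))) := by
      have h4 : (f.map (Int.castRingHom ℚ)).map (Rat.castHom ℚ_[l]) = fl := by
        rw [Polynomial.map_map, hfl]
        congr 1
      rw [hE]
      simp only [Polynomial.map_sub, Polynomial.map_mul, Polynomial.map_pow, map_C, map_X, h4,
        map_pow, map_natCast, map_intCast, map_sub, Polynomial.map_natCast,
        Polynomial.map_intCast]
      have h5 : (dl * g' ^ 2 + fl * h' : ℚ_[l][X]) =
          C ((l : ℚ_[l]) ^ e) * (C (x0 : ℚ_[l]) - C (w0 : ℚ_[l]) * X) := by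
        rw [← h1]; ring
      simp only [map_pow, map_natCast] at h5
      linear_combination -h5
    rw [hmap]
    have hX : ∀ {a b : ℚ_[l]} {r : ℝ}, ‖a‖ ≤ r → ‖b‖ ≤ r → 0 ≤ r → Sm r (C a - C b * X) := by
      intro a b r h2 h3 h4
      refine (Sm.C h2).sub ?_
      have := Sm.mul h4 zero_le_one (Sm.C h3) Sm.X
      rwa [mul_one] at this
    have hle1 : ‖(l : ℚ_[l]) ^ e‖ ≤ 1 := by
      rw [norm_pow]
      exact pow_le_one₀ (norm_nonneg _) (Padic.norm_p_lt_one).le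
    refine Sm.add ?_ (Sm.add ?_ ?_)
    · have h2 := Sm.mul zero_le_one hlK.le (Sm.C hle1) (hX
        (a := (x1 : ℚ_[l]) - x0) (b := (w1 : ℚ_[l]) - w0)
        (by rw [norm_sub_rev]; exact hx1.trans hKK) (by rw [norm_sub_rev]; exact hw1.trans hKK)
        hlK.le)
      rwa [one_mul] at h2
    · have h2 : Sm rg (g' + G.map (Rat.castHom ℚ_[l])) := by
        have h3 : g' + G.map (Rat.castHom ℚ_[l]) =
            (g' + g') - (g' - G.map (Rat.castHom ℚ_[l])) := by ring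
        rw [h3]
        exact (hrg.add hrg).sub (hG.mono (hε1.trans hrg1))
      exact (Sm.mul (by linarith) (by positivity) hrd
        (Sm.mul hε0.le (by linarith) hG h2)).mono hε2
    · have h2 : Sm 1 fl := by
        intro i
        rw [hfl, coeff_map]
        exact Padic.norm_int_le_one _
      have h3 := Sm.mul zero_le_one hlK.le h2 hH
      rwa [one_mul] at h3

end Pool.Agent.H11.EM
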