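import Mathlib

/-! Project EM: dyadic decomposition. -/

set_option autoImplicit false

namespace Pool.Agent.H11.EM

open Finset

lemma sum_two (m : ℕ) : ∑ s ∈ range (m + 1), (2 : ℝ) ^ s ≤ 2 ^ (m + 1) := by
  rw [geom_sum_eq (by norm_num)]
  norm_num

lemma dyadic (K : Type) [Fintype K] [DecidableEq K] [Nonempty K] (m : ℕ) :
    ∑ j ∈ (Fintype.piFinset fun _ : K => range (m + 1)).filter (fun j => ∑ k, j k ≤ m),
      (2 : ℝ) ^ (∑ k, j k) ≤ 2 ^ (m + 1) * ((m : ℝ) + 1) ^ (Fintype.card K - 1) := by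
  classical
  let k0 : K := Classical.arbitrary K
  let φ : (K → ℕ) → ℕ × ({k : K // k ≠ k0} → ℕ) := fun j => (∑ k, j k, fun k => j k)
  have hφ : Function.Injective φ := by
    intro j j' h
    have h1 : ∑ k, j k = ∑ k, j' k := congrArg Prod.fst h
    have h2 : ∀ k, k ≠ k0 → j k = j' k := fun k hk =>
      congrFun (congrArg Prod.snd h) ⟨k, hk⟩
    have h3 : ∑ k ∈ univ.erase k0, j k = ∑ k ∈ univ.erase k0, j' k :=
      Finset.sum_congr rfl (fun k hk => h2 k (Finset.ne_of_mem_erase hk))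
    rw [← Finset.add_sum_erase _ _ (mem_univ k0), ← Finset.add_sum_erase _ _ (mem_univ k0),
      h3] at h1
    funext k
    by_cases hk : k = k0
    · rw [hk]; omega
    · exact h2 k hk
  have h1 : ∑ j ∈ (Fintype.piFinset fun _ : K => range (m + 1)).filter (fun j => ∑ k, j k ≤ m),
      (2 : ℝ) ^ (∑ k, j k) = ∑ x ∈ ((Fintype.piFinset fun _ : K => range (m + 1)).filter
        (fun j => ∑ k, j k ≤ m)).image φ, (2 : ℝ) ^ x.1 := by
    rw [Finset.sum_image fun x _ y _ h => hφ h]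
  have h2 : ((Fintype.piFinset fun _ : K => range (m + 1)).filter
        (fun j => ∑ k, j k ≤ m)).image φ ⊆
      range (m + 1) ×ˢ (Fintype.piFinset fun _ : {k : K // k ≠ k0} => range (m + 1)) := by
    intro x hx
    obtain ⟨j, hj, rfl⟩ := mem_image.1 hx
    obtain ⟨hj1, hj2⟩ := mem_filter.1 hj
    rw [Fintype.mem_piFinset] at hj1
    exact mem_product.2 ⟨mem_range.2 (Nat.lt_succ_of_le hj2), Fintype.mem_piFinset.2 fun k => hj1 k⟩
  rw [h1]
  refine (Finset.sum_le_sum_of_subset_of_nonneg h2 fun _ _ _ => by positivity).trans ?_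
  rw [Finset.sum_product]
  simp only [Finset.sum_const, Fintype.card_piFinset, card_range, prod_const, nsmul_eq_mul]
  have h3 : (univ : Finset {k : K // k ≠ k0}).card = Fintype.card K - 1 := by
    rw [card_univ, Fintype.card_subtype_compl, Fintype.card_subtype_eq]
  rw [h3, ← Finset.mul_sum, mul_comm]
  push_cast
  exact mul_le_mul_of_nonneg_right (sum_two m) (by positivity)

lemma cover {K : Type} [Fintype K] [DecidableEq K] [Nonempty K] {β : Type*} (E : Set ℤ)
    (hE : E.Finite) (A : ℤ → β) (hA : Set.InjOn A E) (P : ℤ → K → ℕ) (X : ℕ)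
    (hP : ∀ D ∈ E, (∀ k, P D k ≠ 0) ∧ ∏ k, P D k ≤ X) (Bx : (K → ℕ) → Set β) (M : ℝ) (hM : 0 ≤ M)
    (hB : ∀ D ∈ E, A D ∈ Bx (fun k => Nat.log 2 (P D k)))
    (hc : ∀ D ∈ E, (Bx (fun k => Nat.log 2 (P D k))).Finite ∧
      ((Bx (fun k => Nat.log 2 (P D k))).ncard : ℝ) ≤ M * 2 ^ (∑ k, Nat.log 2 (P D k))) :
    (E.ncard : ℝ) ≤ M * (2 ^ (Nat.log 2 X + 1) *
      ((Nat.log 2 X : ℝ) + 1) ^ (Fintype.card K - 1)) := by
  classical
  set m := Nat.log 2 X with hm
  set J := (Fintype.piFinset fun _ : K => range (m + 1)).filter (fun j => ∑ k, j k ≤ m) with hJ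
  let g : ℤ → K → ℕ := fun D k => Nat.log 2 (P D k)
  have hg : ∀ D ∈ hE.toFinset, g D ∈ J := by
    intro D hD
    obtain ⟨h1, h2⟩ := hP D (hE.mem_toFinset.1 hD)
    have h3 : 2 ^ (∑ k, g D k) ≤ X := by
      rw [← Finset.prod_pow_eq_pow_sum]
      refine (Finset.prod_le_prod' fun k _ => ?_).trans h2
      exact Nat.pow_log_le_self 2 (h1 k)
    have h4 : ∑ k, g D k ≤ m := Nat.le_log_of_pow_le (by norm_num) h3
    refine mem_filter.2 ⟨Fintype.mem_piFinset.2 fun k => mem_range.2 ?_, h4⟩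
    have := Finset.single_le_sum (f := g D) (fun _ _ => Nat.zero_le _) (mem_univ k)
    omega
  rw [Set.ncard_eq_toFinset_card _ hE, Finset.card_eq_sum_card_fiberwise hg]
  push_cast
  have h5 : ∀ j ∈ J, ((hE.toFinset.filter (fun D => g D = j)).card : ℝ) ≤ M * 2 ^ (∑ k, j k) := by
    intro j _
    rcases (hE.toFinset.filter (fun D => g D = j)).eq_empty_or_nonempty with h | ⟨D0, hD0⟩
    · rw [h, card_empty, Nat.cast_zero]
      positivity
    · obtain ⟨hD1, rfl⟩ := mem_filter.1 hD0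
      obtain ⟨h6, h7⟩ := hc D0 (hE.mem_toFinset.1 hD1)
      refine le_trans ?_ h7
      have h8 : ((hE.toFinset.filter (fun D => g D = g D0) : Finset ℤ) : Set ℤ).ncard ≤
          (Bx (fun k => Nat.log 2 (P D0 k))).ncard := by
        refine Set.ncard_le_ncard_of_injOn A ?_ ?_ h6
        · intro D hD
          obtain ⟨h9, h10⟩ := mem_filter.1 (Finset.mem_coe.1 hD)
          have h11 := hB D (hE.mem_toFinset.1 h9)
          have h12 : (fun k => Nat.log 2 (P D k)) = fun k => Nat.log 2 (P D0 k) := h10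
          rwa [h12] at h11
        · intro D hD D' hD' h
          obtain ⟨h9, -⟩ := mem_filter.1 (Finset.mem_coe.1 hD)
          obtain ⟨h9', -⟩ := mem_filter.1 (Finset.mem_coe.1 hD')
          exact hA (hE.mem_toFinset.1 h9) (hE.mem_toFinset.1 h9') h
      rw [Set.ncard_coe_finset] at h8
      exact_mod_cast h8
  refine (Finset.sum_le_sum h5).trans ?_
  rw [← Finset.mul_sum]
  exact mul_le_mul_of_nonneg_left (dyadic K m) hM

end Pool.Agent.H11.EM
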