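import Pool.Agent.H11.EM.Stm

set_option autoImplicit false

/-!
Project EM (helper11), job NRM: the norm of `ℚ[X]/(∏ k, f k)`.
-/

namespace Pool.Agent.H11.EM

open Polynomial Finset
open Pool.Agent.Q51.EL (Setup)

theorem det_blockDiag' {K : Type} [Fintype K] [LinearOrder K] (n : K → ℕ)
    (M : ∀ k, Matrix (Fin (n k)) (Fin (n k)) ℚ) :
    (Matrix.blockDiagonal' M).det = ∏ k, (M k).det := by
  rw [(Matrix.blockTriangular_blockDiagonal' M).det_fintype]
  refine prod_congr rfl fun k _ => ?_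
  let e : Fin (n k) ≃ {a : Σ i, Fin (n i) // a.1 = k} :=
    Equiv.ofBijective (fun i => ⟨⟨k, i⟩, rfl⟩) ⟨fun i j h => by simpa using h, by
      rintro ⟨⟨k', i⟩, h⟩
      dsimp only at h
      subst h
      exact ⟨i, rfl⟩⟩
  rw [← Matrix.det_submatrix_equiv_self e]
  congr 1
  ext i j
  simp only [Matrix.submatrix_apply, Matrix.toSquareBlock_def, Matrix.of_apply]
  exact Matrix.blockDiagonal'_apply_eq M k i j

theorem det_blockDiag {K : Type} [Fintype K] [DecidableEq K] (n : K → ℕ)
    (M : ∀ k, Matrix (Fin (n k)) (Fin (n k)) ℚ) :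
    (Matrix.blockDiagonal' M).det = ∏ k, (M k).det := by
  rename_i i1 i2
  let o : LinearOrder K := LinearOrder.lift' (Fintype.equivFin K) (Fintype.equivFin K).injective
  have h1 := @det_blockDiag' K _ o n M
  have e : i2 = o.toDecidableEq := Subsingleton.elim _ _
  subst e
  exact h1

open Classical in
theorem norm_pi {K : Type} [Fintype K] (L : K → Type) [∀ k, Field (L k)] [∀ k, NumberField (L k)]
    (x : ∀ k, L k) : Algebra.norm ℚ x = ∏ k, Algebra.norm ℚ (x k) := by
  let b : ∀ k, Module.Basis (Fin (Module.finrank ℚ (L k))) ℚ (L k) := fun k => Module.finBasis ℚ (L k)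
  rw [Algebra.norm_eq_matrix_det (Pi.basis b)]
  have h : ∀ k, Algebra.norm ℚ (x k) = (Algebra.leftMulMatrix (b k) (x k)).det := fun k =>
    Algebra.norm_eq_matrix_det (b k) (x k)
  simp_rw [h]
  rw [← det_blockDiag (fun k => Module.finrank ℚ (L k))
    (fun k => Algebra.leftMulMatrix (b k) (x k))]
  congr 1
  ext ⟨k, i⟩ ⟨l, j⟩
  rw [Algebra.leftMulMatrix_eq_repr_mul, Pi.basis_repr, Pi.basis_apply]
  by_cases h : k = l
  · subst h
    rw [Matrix.blockDiagonal'_apply_eq, Algebra.leftMulMatrix_eq_repr_mul]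
    simp
  · rw [Matrix.blockDiagonal'_apply_ne _ _ _ h]
    simp [Pi.single_eq_of_ne h]

theorem nrm : S_NRM := by
  intro K _ f L _ _ θ hS d
  classical
  obtain ⟨G, hG⟩ : ∃ G, G = (∏ k, f k).map (Int.castRingHom ℚ) := ⟨_, rfl⟩
  rw [← hG]
  have hGp : G = ∏ k, (f k).map (Int.castRingHom ℚ) := by
    rw [hG, Polynomial.map_prod]
  have hg0 : ∀ k, (f k).map (Int.castRingHom ℚ) ≠ 0 := fun k => (hS.set k).irr.ne_zero
  have hG0 : G ≠ 0 := by
    rw [hGp]
    exact prod_ne_zero_iff.2 fun k _ => hg0 k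
  have hroot : ∀ k, aeval (θ k) ((f k).map (Int.castRingHom ℚ)) = 0 := by
    intro k
    have h1 := (hS.set k).root
    rw [aeval_def, eval₂_map]
    rw [aeval_def] at h1
    have h2 : (algebraMap ℚ (L k)).comp (Int.castRingHom ℚ) = algebraMap ℤ (L k) :=
      RingHom.ext_int _ _
    rw [h2]
    exact h1
  have hdvd : ∀ k (P : ℚ[X]), aeval (θ k) P = 0 → (f k).map (Int.castRingHom ℚ) ∣ P := by
    intro k P hP
    have h1 := minpoly.eq_of_irreducible (hS.set k).irr (hroot k)
    have h2 : minpoly ℚ (θ k) ∣ P := minpoly.dvd ℚ (θ k) hP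
    rw [← h1] at h2
    exact (dvd_mul_right _ _).trans h2
  have hcop : Pairwise fun k l => IsCoprime ((f k).map (Int.castRingHom ℚ))
      ((f l).map (Int.castRingHom ℚ)) := by
    intro k l hkl
    refine ((hS.set k).irr.coprime_iff_not_dvd).2 fun hd => hS.na k l hkl ?_
    exact ((hS.set k).irr.dvd_irreducible_iff_associated (hS.set l).irr).1 hd
  have haev : ∀ (P : ℚ[X]) k, (aeval θ P) k = aeval (θ k) P := by
    intro P k
    have := Polynomial.aeval_algHom_apply (Pi.evalAlgHom ℚ L k) θ P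
    exact this.symm
  have hθG : aeval θ G = 0 := by
    ext k
    rw [haev, hGp, map_prod]
    exact prod_eq_zero (mem_univ k) (hroot k)
  let φ : AdjoinRoot G →ₐ[ℚ] (∀ k, L k) := AdjoinRoot.liftAlgHom G (Algebra.ofId ℚ _) θ hθG
  have hφ : ∀ P : ℚ[X], φ (AdjoinRoot.mk G P) = aeval θ P := by
    intro P
    exact AdjoinRoot.lift_mk (by exact hθG) P
  have hinj : Function.Injective φ := by
    rw [injective_iff_map_eq_zero]
    intro a ha
    obtain ⟨P, rfl⟩ := AdjoinRoot.mk_surjective a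
    rw [hφ] at ha
    rw [AdjoinRoot.mk_eq_zero, hGp]
    refine Finset.prod_dvd_of_coprime (fun k _ l _ hkl => hcop hkl) fun k _ => ?_
    apply hdvd
    rw [← haev, ha]
    rfl
  have : Module.Finite ℚ (AdjoinRoot G) := (AdjoinRoot.powerBasis hG0).finite
  have hfr : Module.finrank ℚ (AdjoinRoot G) = Module.finrank ℚ (∀ k, L k) := by
    rw [(AdjoinRoot.powerBasis hG0).finrank, AdjoinRoot.powerBasis_dim, Module.finrank_pi_fintype,
      hGp, natDegree_prod _ _ fun k _ => hg0 k]
    refine sum_congr rfl fun k _ => ?_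
    rw [(hS.set k).deg]
    exact natDegree_map_eq_of_injective Int.cast_injective _
  have hsur : Function.Surjective φ :=
    (LinearMap.injective_iff_surjective_of_finrank_eq_finrank (f := φ.toLinearMap) hfr).1 hinj
  let e : AdjoinRoot G ≃ₐ[ℚ] (∀ k, L k) := AlgEquiv.ofBijective φ ⟨hinj, hsur⟩
  have he : e (AdjoinRoot.mk G d) = fun k => aeval (θ k) d := by
    change φ (AdjoinRoot.mk G d) = _
    rw [hφ]
    funext k
    exact haev d k
  have := norm_pi L (e (AdjoinRoot.mk G d))
  rw [Algebra.norm_eq_of_algEquiv e] at this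
  rw [this, he]

end Pool.Agent.H11.EM
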