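import Mathlib
import Pool.Agent.H11.EM.Stm
import Pool.Agent.H11.V.R_pool_sql_team_seeded_3997aac3_Q51_EL_LSV
import Pool.Agent.H11.V.R_pool_sql_team_seeded_3997aac3_Q247_EL_SIEVE

set_option autoImplicit false

/-!
Project EM (helper11), job SIEVE: the large sieve in a product of rings of integers, boxes with
different sides.
-/

namespace Pool.Agent.H11.EM

open Finset NumberField IsDedekindDomain
open Pool.Agent.Q51.EL (S_LSV)

theorem finite_box {K : Type} [Fintype K] (L : K → Type) [∀ k, Field (L k)] [∀ k, NumberField (L k)]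
    (T : Set (∀ k, 𝓞 (L k))) (Y : K → ℝ) : (box Y T).Finite := by
  have h : (Set.univ.pi fun k : K =>
      {β : 𝓞 (L k) | β ∈ (Set.univ : Set (𝓞 (L k))) ∧ ∀ σ : L k →+* ℂ, ‖σ (β : L k)‖ ≤ Y k}).Finite :=
    Set.Finite.pi fun k => Pool.Agent.Q247.EL.finite_box (L k) Set.univ (Y k)
  refine h.subset ?_
  rintro β ⟨_, hβ⟩
  simp only [Set.mem_pi, Set.mem_univ, forall_true_left]
  exact fun k => ⟨trivial, hβ k⟩

open Classical in
theorem sieve_of (hL : S_LSV) : S_SIEVE := by
  intro K _ _ L _ _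
  have hbas := fun k => Pool.Agent.Q247.EL.exists_basis (L k)
  choose b c1 hc1 hb using hbas
  obtain ⟨C1, hC1, hC1'⟩ : ∃ C1 : ℝ, 1 ≤ C1 ∧ ∀ k, c1 k ≤ C1 := by
    refine ⟨∑ k, c1 k, ?_, fun k => ?_⟩
    · obtain ⟨k0⟩ := (inferInstance : Nonempty K)
      exact (hc1 k0).trans (single_le_sum (f := c1) (fun k _ => by linarith [hc1 k]) (mem_univ k0))
    · exact single_le_sum (f := c1) (fun k _ => by linarith [hc1 k]) (mem_univ k)
  have hcardI : Fintype.card (Σ k, Fin (Module.finrank ℚ (L k))) = dg L := by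
    rw [Fintype.card_sigma]
    simp [dg]
  let e : (Σ k, Fin (Module.finrank ℚ (L k))) ≃ Fin (dg L) := Fintype.equivFinOfCardEq hcardI
  refine ⟨(24 * (2 * C1 + 3)) ^ dg L, by positivity, ?_⟩
  intro Z Y P T η hZ hYZ hP hη
  have hfin := finite_box L T Y
  refine ⟨hfin, ?_⟩
  obtain ⟨M, hM⟩ : ∃ M : K → ℕ, M = fun k => ⌈C1 * Y k⌉₊ := ⟨_, rfl⟩
  have hY1 : ∀ k, 1 ≤ Y k := fun k => hZ.trans (hYZ k)
  have hM1 : ∀ k, C1 * Y k ≤ M k := by
    intro k
    rw [hM]
    exact Nat.le_ceil _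
  have hM2 : ∀ k, (M k : ℝ) ≤ C1 * Y k + 1 := by
    intro k
    rw [hM]
    have := hY1 k
    exact (Nat.ceil_lt_add_one (by positivity)).le
  -- coordinates
  have hco : ∀ β ∈ hfin.toFinset, ∀ k, ∀ i, |(b k).repr (β k) i| ≤ (M k : ℤ) := by
    intro β hβ k i
    rw [Set.Finite.mem_toFinset] at hβ
    have hYk := hY1 k
    have h1 := (hb k (β k) (Y k) (by linarith) (hβ.2 k) i)
    have h3 : c1 k * Y k ≤ M k :=
      (mul_le_mul_of_nonneg_right (hC1' k) (by linarith)).trans (hM1 k)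
    have h2 : ((|(b k).repr (β k) i| : ℤ) : ℝ) ≤ ((M k : ℤ) : ℝ) := by
      push_cast
      exact h1.trans h3
    exact_mod_cast h2
  obtain ⟨z, hz⟩ : ∃ z : (∀ k, 𝓞 (L k)) → (Fin (dg L) → ℕ),
    z = fun β i => ((b (e.symm i).1).repr (β (e.symm i).1) (e.symm i).2 + M (e.symm i).1 + 1).toNat :=
    ⟨_, rfl⟩
  have hzc : ∀ β ∈ hfin.toFinset, ∀ i, ((z β i : ℕ) : ℤ) =
      (b (e.symm i).1).repr (β (e.symm i).1) (e.symm i).2 + M (e.symm i).1 + 1 := by
    intro β hβ i
    have h1 := abs_le.1 (hco β hβ (e.symm i).1 (e.symm i).2)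
    rw [hz]
    exact Int.toNat_of_nonneg (by linarith [h1.1])
  have hinj : Set.InjOn z hfin.toFinset := by
    intro β hβ β' hβ' h
    have key : ∀ i, (b (e.symm i).1).repr (β (e.symm i).1) (e.symm i).2 =
        (b (e.symm i).1).repr (β' (e.symm i).1) (e.symm i).2 := by
      intro i
      have h1 := hzc β hβ i
      have h2 := hzc β' hβ' i
      rw [h, h2] at h1
      linarith
    funext k
    apply (b k).repr.injective
    ext i
    obtain ⟨i', hi'⟩ := e.symm.surjective ⟨k, i⟩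
    have h3 := key i'
    rw [hi'] at h3
    exact h3
  obtain ⟨N, hN⟩ : ∃ N, N = ⌈Z⌉₊ := ⟨_, rfl⟩
  have hN1 : Z ≤ N := by rw [hN]; exact Nat.le_ceil _
  have hN2 : (N : ℝ) ≤ 2 * Z := by
    rw [hN]
    have := (Nat.ceil_lt_add_one (by linarith : 0 ≤ Z)).le
    linarith
  have hN0 : 1 ≤ N := by
    have : (1 : ℝ) ≤ N := hZ.trans hN1
    exact_mod_cast this
  have hQ : ⌊Real.sqrt Z⌋₊ ^ 2 ≤ N := by
    have h1 : ((⌊Real.sqrt Z⌋₊ : ℕ) : ℝ) ≤ Real.sqrt Z := Nat.floor_le (Real.sqrt_nonneg _)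
    have h2 : ((⌊Real.sqrt Z⌋₊ : ℕ) : ℝ) ^ 2 ≤ Z := by
      calc ((⌊Real.sqrt Z⌋₊ : ℕ) : ℝ) ^ 2 ≤ Real.sqrt Z ^ 2 := pow_le_pow_left₀ (Nat.cast_nonneg _) h1 2
        _ = Z := Real.sq_sqrt (by linarith)
    have h3 : (((⌊Real.sqrt Z⌋₊ ^ 2 : ℕ)) : ℝ) ≤ (N : ℝ) := by
      push_cast
      linarith
    exact_mod_cast h3
  -- the cubes
  obtain ⟨cub, hcub⟩ : ∃ cub : Finset (Fin (dg L) → ℕ),
    cub = Fintype.piFinset fun i => range (2 * M (e.symm i).1 / N + 1) := ⟨_, rfl⟩
  obtain ⟨W, hW⟩ : ∃ W : (Fin (dg L) → ℕ) → Finset (Fin (dg L) → ℕ), W = fun c =>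
    (hfin.toFinset.image z).filter fun x => ∀ i, x i ∈ Ioc (c i * N) (c i * N + N) := ⟨_, rfl⟩
  have hcov : (hfin.toFinset.image z).card ≤ ∑ c ∈ cub, (W c).card := by
    refine (card_le_card ?_).trans card_biUnion_le
    intro x hx
    have hx' := hx
    rw [mem_image] at hx
    obtain ⟨β, hβ, rfl⟩ := hx
    rw [mem_biUnion]
    refine ⟨fun i => (z β i - 1) / N, ?_, ?_⟩
    · rw [hcub, Fintype.mem_piFinset]
      intro i
      rw [mem_range, Nat.lt_succ_iff]
      refine Nat.div_le_div_right ?_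
      have h1 := abs_le.1 (hco β hβ (e.symm i).1 (e.symm i).2)
      have h2 := hzc β hβ i
      have : ((z β i : ℕ) : ℤ) ≤ ((2 * M (e.symm i).1 + 1 : ℕ) : ℤ) := by
        rw [h2]
        push_cast
        linarith [h1.2]
      have : z β i ≤ 2 * M (e.symm i).1 + 1 := by exact_mod_cast this
      omega
    · rw [hW]
      simp only [mem_filter]
      refine ⟨hx', fun i => ?_⟩
      rw [mem_Ioc]
      have h1 := abs_le.1 (hco β hβ (e.symm i).1 (e.symm i).2)
      have h2 := hzc β hβ i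
      have h3 : 0 < z β i := by
        have : (0 : ℤ) < z β i := by rw [h2]; linarith [h1.1]
        exact_mod_cast this
      have h4 := Nat.div_add_mod (z β i - 1) N
      have h5 := Nat.mod_lt (z β i - 1) (by omega : 0 < N)
      have h6 : N * ((z β i - 1) / N) = (z β i - 1) / N * N := mul_comm _ _
      constructor <;> omega
  have hfil : P.powerset.filter (fun D => (((∏ t ∈ D, t : ℕ) : ℝ)) ^ 2 ≤ Z) =
      P.powerset.filter (fun D => ∏ t ∈ D, t ≤ ⌊Real.sqrt Z⌋₊) := by
    refine filter_congr fun D _ => ?_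
    rw [Nat.le_floor_iff (Real.sqrt_nonneg _), Real.le_sqrt (Nat.cast_nonneg _) (by linarith)]
  obtain ⟨G, hG⟩ : ∃ G : ℝ, G = ∑ D ∈ P.powerset.filter (fun D => ∏ t ∈ D, t ≤ ⌊Real.sqrt Z⌋₊),
    ∏ t ∈ D, η t := ⟨_, rfl⟩
  have hG0 : 0 ≤ G := by
    rw [hG]
    refine sum_nonneg fun D hD => prod_nonneg fun t ht => ?_
    rw [mem_filter, mem_powerset] at hD
    exact (hη t (hD.1 ht)).1.le
  have hmain : ∀ c, ((W c).card : ℝ) * G ≤ (12 * (N : ℝ)) ^ dg L := by
    intro c
    rw [hG]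
    refine hL (dg L) N ⌊Real.sqrt Z⌋₊ (fun i => c i * N) P (W c)
      (fun t => (hfin.toFinset.image z).image (fun z i => ((z i : ℕ) : ZMod t))) η hN0 hQ hP ?_
      (fun t ht => (hη t ht).1) ?_ ?_
    · intro x hx i
      rw [hW] at hx
      simp only [mem_filter] at hx
      exact hx.2 i
    · intro t ht
      refine le_trans ?_ (hη t ht).2
      rw [Nat.cast_le]
      have htp := hP t ht
      -- the quotient is finite
      have : ∀ k, Finite (𝓞 (L k) ⧸ Ideal.span {(t : 𝓞 (L k))}) := by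
        intro k
        have hne : (Ideal.span {(t : 𝓞 (L k))}) ≠ ⊥ := by
          rw [Ne, Ideal.span_singleton_eq_bot]
          exact_mod_cast htp.ne_zero
        exact Ideal.finiteQuotientOfFreeOfNeBot _ hne
      have hTf : (cls t T).Finite := Set.toFinite _
      rw [Set.ncard_eq_toFinset_card _ hTf]
      rw [image_image]
      -- each residue vector comes from an element of `T`
      have hch : ∀ x ∈ hfin.toFinset.image ((fun (z : Fin (dg L) → ℕ) i => ((z i : ℕ) : ZMod t)) ∘ z),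
          ∃ β ∈ hfin.toFinset, (fun i => ((z β i : ℕ) : ZMod t)) = x := by
        intro x hx
        rw [mem_image] at hx
        obtain ⟨β, hβ, h⟩ := hx
        exact ⟨β, hβ, h⟩
      choose! g hg1 hg2 using hch
      refine card_le_card_of_injOn (fun x => fun k =>
        Ideal.Quotient.mk (Ideal.span {(t : 𝓞 (L k))}) (g x k)) ?_ ?_
      · intro x hx
        have h1 := hg1 x hx
        rw [Set.Finite.mem_toFinset] at h1
        rw [Finset.mem_coe, Set.Finite.mem_toFinset]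
        exact ⟨g x, h1.1, rfl⟩
      · intro x hx y hy hxy
        rw [← hg2 x hx, ← hg2 y hy]
        funext i
        obtain ⟨k, hk⟩ : ∃ k, k = (e.symm i).1 := ⟨_, rfl⟩
        have h1 : g x (e.symm i).1 - g y (e.symm i).1 ∈ Ideal.span {(t : 𝓞 (L (e.symm i).1))} :=
          (Ideal.Quotient.eq).1 (congrFun hxy (e.symm i).1)
        rw [Ideal.mem_span_singleton] at h1
        obtain ⟨w, hw⟩ := h1
        have h2 := hzc (g x) (hg1 x hx) i
        have h3 := hzc (g y) (hg1 y hy) i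
        have h4 : (b (e.symm i).1).repr (g x (e.symm i).1) (e.symm i).2 -
            (b (e.symm i).1).repr (g y (e.symm i).1) (e.symm i).2 =
            t * (b (e.symm i).1).repr w (e.symm i).2 := by
          have h5 : (b (e.symm i).1).repr (g x (e.symm i).1 - g y (e.symm i).1) (e.symm i).2 =
            (b (e.symm i).1).repr ((t : 𝓞 (L (e.symm i).1)) * w) (e.symm i).2 := by rw [hw]
          rw [map_sub, Finsupp.sub_apply] at h5
          rw [h5]
          have h6 : ((t : 𝓞 (L (e.symm i).1)) * w) = (t : ℤ) • w := by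
            rw [zsmul_eq_mul]
            push_cast
            rfl
          rw [h6, map_smul, Finsupp.smul_apply, smul_eq_mul]
        have h5 : (((z (g x) i : ℕ) : ℤ) : ZMod t) = (((z (g y) i : ℕ) : ℤ) : ZMod t) := by
          rw [ZMod.intCast_eq_intCast_iff_dvd_sub]
          refine ⟨-((b (e.symm i).1).repr w (e.symm i).2), ?_⟩
          rw [h2, h3]
          linarith
        push_cast at h5
        exact h5
    · intro x hx t _
      rw [hW] at hx
      simp only [mem_filter] at hx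
      exact mem_image_of_mem _ hx.1
  -- conclusion
  have hcard : (hfin.toFinset.image z).card = (box Y T).ncard := by
    rw [card_image_of_injOn hinj, Set.ncard_eq_toFinset_card _ hfin]
  rw [hfil, ← hG, ← hcard]
  have hcubc : (cub.card : ℝ) ≤ ∏ i : Fin (dg L), ((2 * C1 + 3) * Y (e.symm i).1 / Z) := by
    rw [hcub, Fintype.card_piFinset]
    push_cast
    refine prod_le_prod (fun i _ => by positivity) fun i _ => ?_
    rw [card_range]
    push_cast
    have h1 : ((2 * M (e.symm i).1 / N : ℕ) : ℝ) ≤ (2 * M (e.symm i).1 : ℝ) / N := by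
      have := @Nat.cast_div_le ℝ _ _ _ (2 * M (e.symm i).1) N
      push_cast at this
      exact this
    have hZ0 : 0 < Z := by linarith
    have h2 : (2 * M (e.symm i).1 : ℝ) / N ≤ (2 * (C1 * Y (e.symm i).1 + 1)) / Z := by
      have := hM2 (e.symm i).1
      have hY0 := hY1 (e.symm i).1
      gcongr
    have h3 : (1 : ℝ) ≤ Y (e.symm i).1 / Z := by
      rw [le_div_iff₀ hZ0, one_mul]
      exact hYZ _
    have h4 : (2 * (C1 * Y (e.symm i).1 + 1)) / Z ≤ ((2 * C1 + 2) * Y (e.symm i).1) / Z := by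
      have := hY1 (e.symm i).1
      exact div_le_div_of_nonneg_right (by nlinarith) hZ0.le
    have h5 : (2 * C1 + 3) * Y (e.symm i).1 / Z =
        ((2 * C1 + 2) * Y (e.symm i).1) / Z + Y (e.symm i).1 / Z := by ring
    rw [h5]
    linarith
  have hprod : (∏ i : Fin (dg L), ((2 * C1 + 3) * Y (e.symm i).1 / Z)) * (24 * Z) ^ dg L =
      (24 * (2 * C1 + 3)) ^ dg L * ∏ k, Y k ^ Module.finrank ℚ (L k) := by
    have h1 : (24 * Z) ^ dg L = ∏ _i : Fin (dg L), (24 * Z) := by simp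
    have h2 : (24 * (2 * C1 + 3)) ^ dg L = ∏ _i : Fin (dg L), (24 * (2 * C1 + 3)) := by simp
    have h3 : ∏ k, Y k ^ Module.finrank ℚ (L k) = ∏ i : Fin (dg L), Y (e.symm i).1 := by
      rw [Equiv.prod_comp e.symm (fun x => Y x.1), Fintype.prod_sigma]
      refine prod_congr rfl fun k _ => ?_
      simp
    rw [h1, h2, h3, ← prod_mul_distrib, ← prod_mul_distrib]
    refine prod_congr rfl fun i _ => ?_
    have hZ0 : Z ≠ 0 := by linarith
    field_simp
  calc (((hfin.toFinset.image z).card : ℕ) : ℝ) * G ≤ (∑ c ∈ cub, ((W c).card : ℝ)) * G := by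
        gcongr
        exact_mod_cast hcov
    _ = ∑ c ∈ cub, ((W c).card : ℝ) * G := by rw [sum_mul]
    _ ≤ ∑ _c ∈ cub, (12 * (N : ℝ)) ^ dg L := sum_le_sum fun c _ => hmain c
    _ = cub.card * (12 * (N : ℝ)) ^ dg L := by rw [sum_const, nsmul_eq_mul]
    _ ≤ (∏ i : Fin (dg L), ((2 * C1 + 3) * Y (e.symm i).1 / Z)) * (24 * Z) ^ dg L := by
        have h12 : 12 * (N : ℝ) ≤ 24 * Z := by linarith
        refine mul_le_mul hcubc (pow_le_pow_left₀ (by positivity) h12 _) (by positivity) ?_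
        refine prod_nonneg fun i _ => ?_
        have := hY1 (e.symm i).1
        positivity
    _ = _ := hprod

theorem sieve : S_SIEVE := sieve_of Pool.Agent.Q51.EL.lsv

end Pool.Agent.H11.EM
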