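import Mathlib
import Pool.Agent.H11.EM.Stm
import Pool.Agent.H11.V.R_pool_sql_team_seeded_9f66d723_W5h36_EL_Concl

/-! Project EM: sums over primes. -/

set_option autoImplicit false
set_option linter.unusedSectionVars false

namespace Pool.Agent.H11.EM

open Polynomial Finset Filter Topology
open Pool.Agent.W401.Cheb (M)
open Pool.Agent.W5h36.EL (SR SQ RP)
open Pool.Agent.W262.RK (PS)

variable {K : Type} [Fintype K] [DecidableEq K]

lemma pr_eq (Y : ℝ) : Pool.Agent.Q51.EL.pr Y = PS 0 ⌊Y⌋₊ := by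
  unfold Pool.Agent.Q51.EL.pr PS
  rfl

/-- the densities and upper bounds for the sums over primes -/
theorem sums [Nonempty K] (f : K → ℤ[X])
    (hf1 : ∀ k, Irreducible ((f k).map (Int.castRingHom ℚ)))
    (hf3 : ∀ k l, k ≠ l →
      ¬ Associated ((f k).map (Int.castRingHom ℚ)) ((f l).map (Int.castRingHom ℚ))) :
    ∃ ν : Finset K → ℝ, (∀ T, 0 ≤ ν T) ∧ (∑ T, ν T = 1) ∧ (∀ σ, 0 < ν (SQ f σ)) ∧
      (∀ β : ℝ, 0 < β → β < 1 - ν ∅ → ∃ c : ℝ, 0 < c ∧ ∀ᶠ X : ℕ in atTop,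
        c * X * (Real.log X) ^ (β - 1) ≤
          ({d : ℤ | d.natAbs ≤ X ∧ Squarefree d ∧ Pool.Agent.W5h36.EL.ELS f d}.ncard : ℝ)) ∧
      ∀ (T : Finset (Finset K)) (η : ℝ), 0 < η → ∃ C : ℝ, ∀ Y : ℝ, 3 ≤ Y →
        ∑ q ∈ (Pool.Agent.Q51.EL.pr Y).filter (fun q => SR f q ∈ T), (1 : ℝ) / q ≤
          (∑ t ∈ T, ν t + η) * Real.log (Real.log Y) + C := by
  classical
  have hf : ∀ k, f k ≠ 0 := by
    intro k h
    exact (hf1 k).ne_zero (by rw [h, Polynomial.map_zero])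
  obtain ⟨ν, h0, h1, h2, h3⟩ := Pool.Agent.W5h36.EL.sets_mean f hf
  refine ⟨ν, h0, h1, h3, fun β hβ hβ' => ?_, fun T η hη => ?_⟩
  · have h4 := Pool.Agent.W5h36.EL.dens_RP f ν h1 h2
    obtain ⟨C, hC⟩ := Pool.Agent.W5h36.EL.dens_low (RP f) (fun p hp => hp.1) β hβ.le
      ((h4.eventually (lt_mem_nhds hβ')).mono fun N hN => hN.le)
    exact Pool.Agent.W5h36.EL.els_lower f hf1 hf3 β C hβ (by linarith [h0 ∅]) hC
  · have h4 := h2 (fun t => if t ∈ T then 1 else 0)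
    have e1 : ∑ t, (if t ∈ T then (1 : ℝ) else 0) * ν t = ∑ t ∈ T, ν t := by
      simp only [ite_mul, one_mul, zero_mul]
      rw [← Finset.sum_filter]
      congr 1
      ext t
      simp
    rw [e1] at h4
    have hα : 0 ≤ ∑ t ∈ T, ν t + η := add_nonneg (sum_nonneg fun t _ => h0 t) hη.le
    obtain ⟨C, hC⟩ := Pool.Agent.W5h36.EL.dens_up (fun p => if SR f p ∈ T then (1 : ℝ) else 0) 1
      (∑ t ∈ T, ν t + η) (fun p => by split_ifs <;> norm_num) (fun p => by split_ifs <;> norm_num)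
      ((h4.eventually (gt_mem_nhds (by linarith : ∑ t ∈ T, ν t < ∑ t ∈ T, ν t + η))).mono
        fun N hN => hN.le)
    refine ⟨C, fun Y hY => ?_⟩
    have hN : 3 ≤ ⌊Y⌋₊ := Nat.le_floor (by exact_mod_cast hY)
    have h5 := hC ⌊Y⌋₊ hN
    have h6 : ∑ q ∈ (Pool.Agent.Q51.EL.pr Y).filter (fun q => SR f q ∈ T), (1 : ℝ) / q =
        ∑ p ∈ PS 0 ⌊Y⌋₊, (if SR f p ∈ T then (1 : ℝ) else 0) / p := by
      rw [Finset.sum_filter, pr_eq]
      refine Finset.sum_congr rfl fun p _ => ?_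
      split_ifs <;> simp
    rw [h6]
    refine h5.trans ?_
    have h7 : (1 : ℝ) < Real.log ⌊Y⌋₊ := Pool.Agent.W262.TW.one_lt_log hN
    have h8 : Real.log (Real.log ⌊Y⌋₊) ≤ Real.log (Real.log Y) := by
      apply Real.log_le_log (by linarith)
      apply Real.log_le_log (by positivity)
      exact Nat.floor_le (by linarith)
    have := mul_le_mul_of_nonneg_left h8 hα
    linarith

end Pool.Agent.H11.EM
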