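import Mathlib
import Pool.Agent.H11.EM.Desc2
import Pool.Agent.H11.EM.NRM
import Pool.Agent.H11.EM.SIEVE
import Pool.Agent.H11.EM.CNT
import Pool.Agent.H11.EM.Dy
import Pool.Agent.H11.EM.Sums
import Pool.Agent.H11.V.H29_EM_Core
import Pool.Agent.H11.V.H29_EM_M2
import Pool.Agent.H11.V.H29_EM_UB
import Pool.Agent.H11.V.R_pool_sql_team_seeded_3997aac3_Q154_EL_Spl
import Pool.Agent.H11.V.R_seed8_W54_Cheb_Tor

/-! Project EM: the data of the descent. -/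

set_option autoImplicit false
set_option linter.unusedSectionVars false

namespace Pool.Agent.H11.EM

open Polynomial NumberField IsDedekindDomain Finset
open Pool.Agent.Q51.EL (Abv Par N1 pr CovPt Setup hom CurvePt)
open Pool.Agent.W5h36.EL (SR SQ RP)

theorem t_core : S_CORE :=
  Pool.Agent.H29.EM.core sieve Pool.Agent.Q91.EL.sums CNT.cnt Pool.Agent.Q91.EL.ram
    Pool.Agent.Q247.EL.m1 (Pool.Agent.H29.EM.m2_of W54.ChTor.main
      Pool.Agent.Q247.EL.m1 Pool.Agent.Q91.EL.ram)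

variable {K : Type} [Fintype K] [DecidableEq K] {f : K → ℤ[X]} {L : K → Type} [∀ k, Field (L k)]
  [∀ k, NumberField (L k)] {θ : ∀ k, L k}

lemma mem_SR_of_N1 (hs : Sys f L θ) {k : K} {q : ℕ} (hq : q.Prime)
    (hB : ¬ (q : ℤ) ∣ (f k).leadingCoeff) (h : 1 ≤ N1 (L k) q) : k ∈ SR f q := by
  classical
  have h1 : Nonempty {v : HeightOneSpectrum (𝓞 (L k)) // Ideal.absNorm v.asIdeal = q} :=
    (Nat.card_pos_iff.1 h).1
  obtain ⟨v, hv⟩ := h1
  have h2 := Pool.Agent.Q91.EL.root_of_norm (hs.set k) hq hB v hv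
  exact mem_filter.2 ⟨mem_univ _, h2⟩

open Classical in
/-- the data of the descent -/
theorem data [Nonempty K] (hs : Sys f L θ) (hev : Even (∏ k, f k).natDegree)
    (h6 : 6 ≤ (∏ k, f k).natDegree) :
    ∃ (B : ℕ) (C1 C2 C3 c : ℝ) (T : Set (∀ k, 𝓞 (L k))) (A : ℤ → ∀ k, 𝓞 (L k)) (P : ℤ → K → ℕ),
      B ≠ 0 ∧ 0 < C1 ∧ 0 < C2 ∧ 0 < c ∧
      Set.InjOn A {D : ℤ | Squarefree D ∧ Sel (∏ k, f k) D} ∧
      (∀ D : ℤ, Squarefree D → Sel (∏ k, f k) D →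
        (∀ k, P D k ≠ 0) ∧ ∏ k, P D k ≤ D.natAbs ∧ A D ∈ T ∧
        (∀ k, ∀ σ : L k →+* ℂ, ‖σ (A D k : L k)‖ ≤
          C1 * (P D k : ℝ) ^ ((1 : ℝ) / Module.finrank ℚ (L k))) ∧
        ∀ k, ∀ q : ℕ, q.Prime → q ∣ D.natAbs → ¬ q ∣ B →
          (SR f q).Nonempty ∧ (SR f q = {k} → q ∣ P D k)) ∧
      (∀ (Z : ℝ) (Y : K → ℝ), 3 ≤ Z → (∀ k, Z ≤ Y k) → (box Y T).Finite ∧
        (((box Y T).ncard : ℕ) : ℝ) ≤ C2 * (∏ k, Y k ^ Module.finrank ℚ (L k)) *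
          Real.exp (GN L Z) * Real.log Z ^ (-((Fintype.card K : ℝ) + c))) ∧
      ∀ Z : ℝ, GN L Z ≤ ∑ q ∈ (pr Z).filter (fun q => (SR f q).Nonempty), (1 : ℝ) / q + C3 := by
  set g : ℤ[X] := ∏ k, f k with hg
  have hint : ∀ k, IsIntegral ℤ ((g.leadingCoeff : L k) * θ k) := by
    intro k
    have h1 : IsIntegral ℤ (g.leadingCoeff • θ k) := isIntegral_leadingCoeff_smul g (θ k) (hs.root k)
    rwa [zsmul_eq_mul] at h1
  let t : ∀ k, 𝓞 (L k) := fun k => ⟨(g.leadingCoeff : L k) * θ k, hint k⟩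
  obtain ⟨B, C1, hB, hC1, hD⟩ := desc K f L θ hs hev (by rw [← hg]; omega) t (fun k => rfl)
  obtain ⟨c, C2, hc, hC2, hcore⟩ := t_core K L (by rw [hs.deg, ← hg]; omega) B hB
  set a : ℕ := ∏ k, (f k).leadingCoeff.natAbs with ha
  have ha0 : a ≠ 0 := Finset.prod_ne_zero_iff.2 fun k _ =>
    Int.natAbs_ne_zero.2 (leadingCoeff_ne_zero.2 (hs.ne k))
  have hadv : ∀ (k : K) (q : ℕ), (q : ℤ) ∣ (f k).leadingCoeff → q ∣ a := fun k q h =>
    (Int.natCast_dvd.1 h).trans (Finset.dvd_prod_of_mem _ (mem_univ k))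
  have hα : ∀ D : ℤ, Squarefree D → Sel g D → ∃ (α : ∀ k, 𝓞 (L k)) (S : K → Finset ℕ),
      (∀ k, α k ≠ 0) ∧ Good B t α ∧
      IsSquare (((D * g.leadingCoeff : ℤ) : ℚ) * ∏ k, Algebra.norm ℚ (α k : L k)) ∧
      (∀ k, ∀ q ∈ S k, q.Prime ∧ 1 ≤ N1 (L k) q) ∧ (∏ k, ∏ q ∈ S k, q) ∣ D.natAbs ∧
      (∀ q : ℕ, q.Prime → ¬ q ∣ B → q ∣ D.natAbs → ∃ k, q ∈ S k) ∧
      ∀ k, ∀ σ : L k →+* ℂ, ‖σ (α k : L k)‖ ≤
        C1 * ((∏ q ∈ S k, q : ℕ) : ℝ) ^ ((1 : ℝ) / Module.finrank ℚ (L k)) := by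
    rintro D hDs ⟨d, hcop, hsq, -, hp⟩
    refine hD D hDs ⟨d, (hs.cop_iff).1 hcop, ?_, hp⟩
    rw [nrm K f L θ hs d] at hsq
    exact hsq
  choose! A S hA0 hAG hAsq hS1 hS2 hS3 hAσ using hα
  refine ⟨B * a, C1, C2, (a.divisors.card : ℝ), c, {α | Good B t α}, A, fun D k => ∏ q ∈ S D k, q,
    mul_ne_zero hB ha0, hC1, hC2, hc, ?_, ?_, ?_, ?_⟩
  · rintro D ⟨hDs, hDS⟩ D' ⟨hDs', hDS'⟩ hAA
    have h1 := hAsq D hDs hDS
    have h2 := hAsq D' hDs' hDS'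
    have hAA' : A D = A D' := hAA
    rw [← hAA'] at h2
    have hN0 : ∏ k, Algebra.norm ℚ (A D k : L k) ≠ 0 := by
      refine Finset.prod_ne_zero_iff.2 fun k _ => ?_
      rw [Algebra.norm_ne_zero_iff]
      exact_mod_cast (hA0 D hDs hDS k)
    have hg0 : ((g.leadingCoeff : ℤ) : ℚ) ≠ 0 := by
      exact_mod_cast leadingCoeff_ne_zero.2 hs.prod_ne
    apply Pool.Agent.Q51.EL.sqf_eq hDs hDs'
    obtain ⟨u, hu⟩ := h1
    obtain ⟨w, hw⟩ := h2
    set N := ∏ k, Algebra.norm ℚ (A D k : L k) with hN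
    refine ⟨u * w / ((g.leadingCoeff : ℤ) * N), ?_⟩
    field_simp
    have h3 : ((D * D' : ℤ) : ℚ) * (((g.leadingCoeff : ℤ) : ℚ) ^ 2 * N ^ 2) =
        (u * u) * (w * w) := by
      rw [← hu, ← hw]; push_cast; ring
    linear_combination h3
  · intro D hDs hDS
    have hD0 : D.natAbs ≠ 0 := Int.natAbs_ne_zero.2 hDs.ne_zero
    refine ⟨fun k => ?_, ?_, hAG D hDs hDS, hAσ D hDs hDS, ?_⟩
    · exact Finset.prod_ne_zero_iff.2 fun q hq => (hS1 D hDs hDS k q hq).1.ne_zero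
    · exact Nat.le_of_dvd (Nat.pos_of_ne_zero hD0) (hS2 D hDs hDS)
    · intro k q hq hqD hqB
      obtain ⟨k', hk'⟩ := hS3 D hDs hDS q hq (fun h => hqB (Dvd.dvd.mul_right h _)) hqD
      have h4 : k' ∈ SR f q := mem_SR_of_N1 hs hq
        (fun h => hqB (Dvd.dvd.mul_left (hadv k' q h) _)) (hS1 D hDs hDS k' q hk').2
      refine ⟨⟨k', h4⟩, fun h => ?_⟩
      rw [h, mem_singleton] at h4
      subst h4
      exact Finset.dvd_prod_of_mem _ hk'
  · exact hcore {α | Good B t α} (fun l hl hlB => ty K L B t l hl hlB)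
  · intro Z
    unfold GN
    have h1 : (pr Z).filter (fun q => 1 ≤ NN L q) ⊆
        (pr Z).filter (fun q => (SR f q).Nonempty) ∪ a.divisors := by
      intro q hq
      obtain ⟨hq1, hq2⟩ := mem_filter.1 hq
      have hqp : q.Prime := (mem_filter.1 hq1).2
      by_cases hqa : q ∣ a
      · exact mem_union_right _ (Nat.mem_divisors.2 ⟨hqa, ha0⟩)
      · refine mem_union_left _ (mem_filter.2 ⟨hq1, ?_⟩)
        obtain ⟨k, hk⟩ : ∃ k, 1 ≤ N1 (L k) q := by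
          by_contra hcon
          push Not at hcon
          unfold NN at hq2
          have : ∑ k, N1 (L k) q = 0 := Finset.sum_eq_zero fun k _ => by
            have := hcon k
            omega
          omega
        exact ⟨k, mem_SR_of_N1 hs hqp (fun h => hqa (hadv k q h)) hk⟩
    refine (Finset.sum_le_sum_of_subset_of_nonneg h1 fun _ _ _ => by positivity).trans ?_
    have h2 := Finset.sum_union_inter (s₁ := (pr Z).filter (fun q => (SR f q).Nonempty))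
      (s₂ := a.divisors) (f := fun q : ℕ => (1 : ℝ) / q)
    have h3 : 0 ≤ ∑ q ∈ (pr Z).filter (fun q => (SR f q).Nonempty) ∩ a.divisors, (1 : ℝ) / q :=
      Finset.sum_nonneg fun _ _ => by positivity
    have h4 : ∑ q ∈ a.divisors, (1 : ℝ) / q ≤ (a.divisors.card : ℝ) := by
      rw [Finset.card_eq_sum_ones]
      push_cast
      refine Finset.sum_le_sum fun q hq => ?_
      have hq1 : (1 : ℝ) ≤ q := by exact_mod_cast Nat.pos_of_mem_divisors hq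
      rw [div_le_one (by linarith)]
      exact hq1
    linarith

end Pool.Agent.H11.EM
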