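import Mathlib
import Pool.Agent.H11.EM.Data

/-! Project EM: the two bounds. -/

set_option autoImplicit false
set_option linter.unusedSectionVars false

namespace Pool.Agent.H11.EM

open Polynomial NumberField IsDedekindDomain Finset
open Pool.Agent.Q51.EL (Abv Par N1 pr CovPt Setup hom CurvePt)
open Pool.Agent.W5h36.EL (SR SQ RP)

variable {K : Type} [Fintype K] [DecidableEq K] {f : K → ℤ[X]} {L : K → Type} [∀ k, Field (L k)]
  [∀ k, NumberField (L k)]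

lemma fin_nat (X : ℕ) (P : ℤ → Prop) : {D : ℤ | D.natAbs ≤ X ∧ P D}.Finite := by
  apply (Set.finite_Icc (-(X : ℤ)) X).subset
  intro D hD
  have h1 : D.natAbs ≤ X := hD.1
  simp only [Set.mem_Icc]
  omega

theorem good_count [Nonempty K] (T : Set (∀ k, 𝓞 (L k))) (A : ℤ → ∀ k, 𝓞 (L k)) (P : ℤ → K → ℕ)
    (E : Set ℤ) (C1 C2 c : ℝ) (hC2 : 0 < C2) (hA : Set.InjOn A E)
    (hE : ∀ D ∈ E, (∀ k, P D k ≠ 0) ∧ ∏ k, P D k ≤ D.natAbs ∧ A D ∈ T ∧
        ∀ k, ∀ σ : L k →+* ℂ, ‖σ (A D k : L k)‖ ≤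
          C1 * (P D k : ℝ) ^ ((1 : ℝ) / Module.finrank ℚ (L k)))
    (hbox : ∀ (Z : ℝ) (Y : K → ℝ), 3 ≤ Z → (∀ k, Z ≤ Y k) → (box Y T).Finite ∧
        (((box Y T).ncard : ℕ) : ℝ) ≤ C2 * (∏ k, Y k ^ Module.finrank ℚ (L k)) *
          Real.exp (GN L Z) * Real.log Z ^ (-((Fintype.card K : ℝ) + c))) :
    ∃ C : ℝ, 0 < C ∧ ∀ (Z : ℝ) (X : ℕ), 3 ≤ Z → 1 ≤ X →
      ({D : ℤ | D.natAbs ≤ X ∧ D ∈ E ∧ ∀ k, Z ^ dg L ≤ P D k}.ncard : ℝ) ≤
        C * X * ((Nat.log 2 X : ℝ) + 1) ^ (Fintype.card K - 1) *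
          (Real.exp (GN L Z) * Real.log Z ^ (-((Fintype.card K : ℝ) + c))) := by
  set C1' : ℝ := max C1 1 with hC1'
  have hC1'1 : 1 ≤ C1' := le_max_right _ _
  refine ⟨C2 * C1' ^ dg L * 2 ^ Fintype.card K * 2, by positivity, fun Z X hZ hX => ?_⟩
  set G : ℝ := Real.exp (GN L Z) * Real.log Z ^ (-((Fintype.card K : ℝ) + c)) with hG
  have hlZ : 0 < Real.log Z := Real.log_pos (by linarith)
  have hG0 : 0 ≤ G := mul_nonneg (Real.exp_pos _).le (Real.rpow_nonneg hlZ.le _)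
  have hn0 : ∀ k, 0 < Module.finrank ℚ (L k) := fun k => Module.finrank_pos
  let Y : (K → ℕ) → K → ℝ := fun j k => C1' * ((2 : ℝ) ^ (j k + 1)) ^
    ((1 : ℝ) / Module.finrank ℚ (L k))
  have hYprod : ∀ j : K → ℕ, ∏ k, Y j k ^ Module.finrank ℚ (L k) =
      C1' ^ dg L * 2 ^ Fintype.card K * 2 ^ (∑ k, j k) := by
    intro j
    have h1 : ∀ k, Y j k ^ Module.finrank ℚ (L k) = C1' ^ Module.finrank ℚ (L k) * (2 * 2 ^ j k) := by
      intro k
      simp only [Y]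
      rw [mul_pow, ← Real.rpow_natCast (((2 : ℝ) ^ (j k + 1)) ^ ((1 : ℝ) / Module.finrank ℚ (L k))),
        ← Real.rpow_mul (by positivity), one_div, inv_mul_cancel₀ (by exact_mod_cast (hn0 k).ne'),
        Real.rpow_one, pow_succ, mul_comm ((2 : ℝ) ^ j k)]
    rw [Finset.prod_congr rfl fun k _ => h1 k, Finset.prod_mul_distrib, Finset.prod_mul_distrib,
      Finset.prod_pow_eq_pow_sum, Finset.prod_pow_eq_pow_sum, Finset.prod_const, card_univ]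
    unfold dg
    ring
  have key := cover {D : ℤ | D.natAbs ≤ X ∧ D ∈ E ∧ ∀ k, Z ^ dg L ≤ P D k} (fin_nat X _) A
    (hA.mono fun D hD => hD.2.1) P X (fun D hD => ⟨(hE D hD.2.1).1, (hE D hD.2.1).2.1.trans hD.1⟩)
    (fun j => box (Y j) T) (C2 * (C1' ^ dg L * 2 ^ Fintype.card K) * G) (by positivity) ?_ ?_
  · refine key.trans ?_
    have h1 : (2 : ℝ) ^ (Nat.log 2 X + 1) ≤ 2 * X := by
      rw [pow_succ, mul_comm]
      have : (2 : ℝ) ^ Nat.log 2 X ≤ X := by exact_mod_cast Nat.pow_log_le_self 2 (by omega)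
      linarith
    calc C2 * (C1' ^ dg L * 2 ^ Fintype.card K) * G * (2 ^ (Nat.log 2 X + 1) *
          ((Nat.log 2 X : ℝ) + 1) ^ (Fintype.card K - 1))
        ≤ C2 * (C1' ^ dg L * 2 ^ Fintype.card K) * G * ((2 * X) *
          ((Nat.log 2 X : ℝ) + 1) ^ (Fintype.card K - 1)) := by
          refine mul_le_mul_of_nonneg_left (mul_le_mul_of_nonneg_right h1 (by positivity))
            (by positivity)
      _ = _ := by ring
  · rintro D ⟨hDX, hDE, hDZ⟩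
    obtain ⟨h1, h2, h3, h4⟩ := hE D hDE
    refine ⟨h3, fun k σ => (h4 k σ).trans ?_⟩
    simp only [Y]
    refine mul_le_mul (le_max_left _ _) ?_ (by positivity) (by positivity)
    refine Real.rpow_le_rpow (by positivity) ?_ (by positivity)
    have h5 : P D k < 2 ^ (Nat.log 2 (P D k) + 1) := Nat.lt_pow_succ_log_self (by norm_num) _
    exact_mod_cast h5.le
  · rintro D ⟨hDX, hDE, hDZ⟩
    obtain ⟨h1, h2, h3, h4⟩ := hE D hDE
    have h5 := hbox Z (Y fun k => Nat.log 2 (P D k)) hZ ?_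
    · refine ⟨h5.1, h5.2.trans (le_of_eq ?_)⟩
      rw [hYprod, hG]
      ring
    · intro k
      simp only [Y]
      have h6 : P D k < 2 ^ (Nat.log 2 (P D k) + 1) := Nat.lt_pow_succ_log_self (by norm_num) _
      have h7 : (P D k : ℝ) ≤ 2 ^ (Nat.log 2 (P D k) + 1) := by exact_mod_cast h6.le
      have h8 : Z ^ Module.finrank ℚ (L k) ≤ 2 ^ (Nat.log 2 (P D k) + 1) := by
        refine le_trans ?_ ((hDZ k).trans h7)
        refine pow_le_pow_right₀ (by linarith) ?_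
        unfold dg
        exact Finset.single_le_sum (f := fun k => Module.finrank ℚ (L k)) (fun _ _ => Nat.zero_le _)
          (mem_univ k)
      have h9 := Real.rpow_le_rpow (by positivity) h8
        (by positivity : (0 : ℝ) ≤ (1 : ℝ) / Module.finrank ℚ (L k))
      rw [← Real.rpow_natCast, ← Real.rpow_mul (by linarith), one_div,
        mul_inv_cancel₀ (by exact_mod_cast (hn0 k).ne'), Real.rpow_one, ← one_div] at h9
      calc Z = 1 * Z := (one_mul Z).symm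
        _ ≤ C1' * ((2 : ℝ) ^ (Nat.log 2 (P D k) + 1)) ^ ((1 : ℝ) / Module.finrank ℚ (L k)) :=
          mul_le_mul hC1'1 h9 (by linarith) (by linarith)

open Classical in
theorem bad_count (f : K → ℤ[X]) (P : ℤ → K → ℕ) (E : Set ℤ) (B : ℕ) (hB : B ≠ 0)
    (hE : ∀ D ∈ E, D ≠ 0 ∧ (∀ k, P D k ≠ 0) ∧ ∀ k, ∀ q : ℕ, q.Prime → q ∣ D.natAbs → ¬ q ∣ B →
          (SR f q).Nonempty ∧ (SR f q = {k} → q ∣ P D k)) :
    ∃ C : ℝ, 0 < C ∧ ∀ (k : K) (X : ℕ) (W : ℝ), 3 ≤ X →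
      ({D : ℤ | D.natAbs ≤ X ∧ D ∈ E ∧ (P D k : ℝ) < W}.ncard : ℝ) ≤
        C * X / Real.log X * Real.exp (∑ q ∈ (pr X).filter
          (fun q => (SR f q).Nonempty ∧ (SR f q = {k} → (q : ℝ) < W)), (1 : ℝ) / q) := by
  obtain ⟨C, hC, hub⟩ := Pool.Agent.H29.EM.ub B hB
  refine ⟨2 * C, by positivity, fun k X W hX => ?_⟩
  have h1 := hub {q | (SR f q).Nonempty ∧ (SR f q = {k} → (q : ℝ) < W)} X (by exact_mod_cast hX)
  set F : Set ℕ := {m : ℕ | 1 ≤ m ∧ (m : ℝ) ≤ X ∧ ∀ q : ℕ, q.Prime → q ∣ m → q ∣ B ∨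
    q ∈ {q | (SR f q).Nonempty ∧ (SR f q = {k} → (q : ℝ) < W)}} with hF
  have hFfin : F.Finite := by
    refine (Set.finite_Iic X).subset ?_
    rintro m ⟨-, hm, -⟩
    exact_mod_cast hm
  have h2 : {D : ℤ | D.natAbs ≤ X ∧ D ∈ E ∧ (P D k : ℝ) < W} ⊆
      (fun m : ℕ => (m : ℤ)) '' F ∪ (fun m : ℕ => -(m : ℤ)) '' F := by
    rintro D ⟨hDX, hDE, hDW⟩
    obtain ⟨hD0, hP0, h3⟩ := hE D hDE
    have h4 : D.natAbs ∈ F := by
      refine ⟨Nat.one_le_iff_ne_zero.2 (Int.natAbs_ne_zero.2 hD0), by exact_mod_cast hDX,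
        fun q hq hqD => ?_⟩
      by_cases hqB : q ∣ B
      · exact Or.inl hqB
      · obtain ⟨h5, h6⟩ := h3 k q hq hqD hqB
        refine Or.inr ⟨h5, fun h => ?_⟩
        have h7 := Nat.le_of_dvd (Nat.pos_of_ne_zero (hP0 k)) (h6 h)
        have h8 : (q : ℝ) ≤ P D k := by exact_mod_cast h7
        linarith
    rcases Int.natAbs_eq D with h | h
    · exact Or.inl ⟨D.natAbs, h4, h.symm⟩
    · exact Or.inr ⟨D.natAbs, h4, h.symm⟩
  have h3 : {D : ℤ | D.natAbs ≤ X ∧ D ∈ E ∧ (P D k : ℝ) < W}.ncard ≤ F.ncard + F.ncard := by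
    refine (Set.ncard_le_ncard h2 ((hFfin.image _).union (hFfin.image _))).trans ?_
    refine (Set.ncard_union_le _ _).trans ?_
    exact Nat.add_le_add (Set.ncard_image_le hFfin) (Set.ncard_image_le hFfin)
  have h4 : ({D : ℤ | D.natAbs ≤ X ∧ D ∈ E ∧ (P D k : ℝ) < W}.ncard : ℝ) ≤ F.ncard + F.ncard := by
    exact_mod_cast h3
  have h5 : (F.ncard : ℝ) ≤ C * X / Real.log X * Real.exp (∑ q ∈ (pr X).filter
          (fun q => (SR f q).Nonempty ∧ (SR f q = {k} → (q : ℝ) < W)), (1 : ℝ) / q) := by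
    refine h1.trans (le_of_eq ?_)
    congr!
  calc _ ≤ (F.ncard : ℝ) + F.ncard := h4
    _ ≤ _ := by
      rw [mul_assoc 2 C, mul_div_assoc, mul_assoc 2]
      linarith

end Pool.Agent.H11.EM
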