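import Pool.Agent.H11.EM.Sdm

/-! Project EM: change of the representative; the conditions of the sieve. -/

set_option autoImplicit false
set_option linter.unusedSectionVars false

namespace Pool.Agent.H11.EM

open Polynomial NumberField IsDedekindDomain Pool.Agent.Q239.EL
open Pool.Agent.Q51.EL (Abv Par N1 pr CovPt Setup hom CurvePt)

section

variable {K : Type} [Fintype K] {f : K → ℤ[X]} {L : K → Type} [∀ k, Field (L k)]
  [∀ k, NumberField (L k)] {θ : ∀ k, L k}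

lemma Sys.cop (hs : Sys f L θ) {k k' : K} (h : k ≠ k') :
    IsCoprime ((f k).map (Int.castRingHom ℚ)) ((f k').map (Int.castRingHom ℚ)) := by
  rw [(hs.set k).irr.coprime_iff_not_dvd]
  exact fun hd => hs.na k k' h (((hs.set k).irr.dvd_irreducible_iff_associated (hs.set k').irr).1 hd)

lemma Sys.map_root (hs : Sys f L θ) (k : K) :
    aeval (θ k) ((f k).map (Int.castRingHom ℚ)) = 0 := by
  have := (hs.set k).root
  rw [← Polynomial.aeval_map_algebraMap ℚ (θ k) (f k)] at this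
  exact this

lemma Sys.dvd (hs : Sys f L θ) {P : ℚ[X]} (h : ∀ k, aeval (θ k) P = 0) :
    (∏ k, f k).map (Int.castRingHom ℚ) ∣ P := by
  rw [Polynomial.map_prod]
  refine Finset.prod_dvd_of_coprime (fun k _ k' _ hne => hs.cop hne) fun k _ => ?_
  exact Pool.Agent.Q91.EL.setup_dvd (hs.set k) (h k)

lemma Sys.cop_iff (hs : Sys f L θ) {P : ℚ[X]} :
    IsCoprime ((∏ k, f k).map (Int.castRingHom ℚ)) P ↔ ∀ k, aeval (θ k) P ≠ 0 := by
  rw [Polynomial.map_prod, IsCoprime.prod_left_iff]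
  refine ⟨fun h k h0 => ?_, fun h k _ => ?_⟩
  · have h1 := h k (Finset.mem_univ k)
    obtain ⟨a, b, hab⟩ := h1
    have h2 := congrArg (aeval (θ k)) hab
    rw [map_add, map_mul, map_mul, hs.map_root k, h0, mul_zero, mul_zero, add_zero, map_one] at h2
    exact zero_ne_one h2
  · rw [(hs.set k).irr.coprime_iff_not_dvd]
    rintro ⟨q, hq⟩
    apply h k
    rw [hq, map_mul, hs.map_root k, zero_mul]

lemma Sys.crt (hs : Sys f L θ) (x : ∀ k, L k) : ∃ d : ℚ[X], ∀ k, aeval (θ k) d = x k := by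
  have h1 := fun k => theta_surj (hs.set k) (x k)
  choose q hq using h1
  obtain ⟨d, hd⟩ := Ideal.exists_forall_sub_mem_ideal
    (I := fun k => Ideal.span {(f k).map (Int.castRingHom ℚ)})
    (fun k k' hne => (Ideal.isCoprime_span_singleton_iff _ _).2 (hs.cop hne)) q
  refine ⟨d, fun k => ?_⟩
  obtain ⟨z, hz⟩ := Ideal.mem_span_singleton.1 (hd k)
  have h2 := congrArg (aeval (θ k)) hz
  rw [map_sub, map_mul, hs.map_root k, zero_mul, hq, sub_eq_zero] at h2
  exact h2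

theorem chm (hs : Sys f L θ) (d d' η : ℚ[X]) (c : ℚ) (hc : c ≠ 0) (hη : ∀ k, aeval (θ k) η ≠ 0)
    (hd : ∀ k, aeval (θ k) d' = (c : L k) * aeval (θ k) d * aeval (θ k) η ^ 2)
    (F : Type) [Field F] [CharZero F] (hcov : CovPt (∏ k, f k) d F) : CovPt (∏ k, f k) d' F := by
  obtain ⟨x, w, g, hxw, hdvd⟩ := hcov
  have h1 : (∏ k, f k).map (Int.castRingHom ℚ) ∣ d' - C c * d * η ^ 2 := by
    refine hs.dvd fun k => ?_
    rw [map_sub, map_mul, map_mul, map_pow, aeval_C, hd]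
    simp
  have h2 : IsCoprime ((∏ k, f k).map (Int.castRingHom ℚ)) η := hs.cop_iff.2 hη
  obtain ⟨u, ζ, huζ⟩ := h2
  obtain ⟨q, hq⟩ := h1
  obtain ⟨s, hs⟩ := hdvd
  generalize (∏ k, f k) = f at *
  have hmap : (f.map (Int.castRingHom ℚ)).map (Rat.castHom F) = f.map (Int.castRingHom F) := by
    rw [Polynomial.map_map]
    congr 1
    exact RingHom.ext_int _ _
  have hq' : d'.map (Rat.castHom F) = C (c : F) * d.map (Rat.castHom F) *
      η.map (Rat.castHom F) ^ 2 + f.map (Int.castRingHom F) * q.map (Rat.castHom F) := by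
    have : d' = C c * d * η ^ 2 + f.map (Int.castRingHom ℚ) * q := by rw [← hq]; ring
    rw [this, Polynomial.map_add, Polynomial.map_mul, Polynomial.map_mul, Polynomial.map_pow,
      Polynomial.map_mul, hmap, Polynomial.map_C]
    rfl
  have hu' : u.map (Rat.castHom F) * f.map (Int.castRingHom F) +
      ζ.map (Rat.castHom F) * η.map (Rat.castHom F) = 1 := by
    have := congrArg (Polynomial.map (Rat.castHom F)) huζ
    rwa [Polynomial.map_add, Polynomial.map_mul, Polynomial.map_mul, hmap,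
      Polynomial.map_one] at this
  have hc' : (c : F) ≠ 0 := by exact_mod_cast hc
  refine ⟨c * x, c * w, ζ.map (Rat.castHom F) * g, ?_, ?_⟩
  · rcases hxw with h | h
    · exact Or.inl (mul_ne_zero hc' h)
    · exact Or.inr (mul_ne_zero hc' h)
  · set fF := f.map (Int.castRingHom F)
    set dF := d.map (Rat.castHom F)
    set ηF := η.map (Rat.castHom F)
    set ζF := ζ.map (Rat.castHom F)
    set uF := u.map (Rat.castHom F)
    set qF := q.map (Rat.castHom F)
    have e1 : ζF * ηF = 1 - uF * fF := by rw [← hu']; ring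
    have e2 : dF * g ^ 2 = C x - C w * X - fF * s := by rw [← hs]; ring
    rw [hq', C_mul, C_mul]
    refine ⟨C (c : F) * s + C (c : F) * (dF * g ^ 2) * uF * (2 - uF * fF) - qF * (ζF * g) ^ 2, ?_⟩
    have e3 : (C (c : F) * dF * ηF ^ 2 + fF * qF) * (ζF * g) ^ 2 =
        C (c : F) * (dF * g ^ 2) * (ζF * ηF) ^ 2 + fF * qF * (ζF * g) ^ 2 := by ring
    rw [e3, e1, e2]
    ring

end

theorem ty : S_TY := by
  intro K L _ _ B t l hl hB
  refine ⟨?_, ?_⟩
  · intro β hβ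
    rcases hβ l hl hB with h | ⟨u0, h1, h2, h3, -⟩
    · exact Or.inl h
    · exact Or.inr ⟨u0, h1, h2, h3⟩
  · intro β hβ β' hβ' u0 hm hm'
    have key : ∀ β : ∀ k, 𝓞 (L k), Good B t β → In β u0 → ∃ c r : ℤ, ¬ (l : ℤ) ∣ c ∧
        t u0.1 - (r : 𝓞 (L u0.1)) ∈ u0.2.1.asIdeal ∧
        ∀ u : PL L l, u ≠ u0 →
          ∃ g : 𝓞 (L u.1), (c : 𝓞 (L u.1)) * β u.1 - ((r : 𝓞 (L u.1)) - t u.1) * g ^ 2 ∈
            u.2.1.asIdeal := by
      intro β hβ hm
      rcases hβ l hl hB with h | ⟨u1, h1, h2, h3, c, r, h5, h6, h7⟩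
      · exact absurd hm (h u0)
      · have hv : u0 = u1 := by
          by_contra hne
          exact h3 u0 hne hm
        subst hv
        exact ⟨c, r, h5, h6, h7⟩
    obtain ⟨c, r, k1, k2, k3⟩ := key β hβ hm
    obtain ⟨c', r', k1', k2', k3'⟩ := key β' hβ' hm'
    have hr : (l : ℤ) ∣ r' - r := by
      refine (int_mem_iff hl u0.2.2 _).1 ?_
      have : ((r' - r : ℤ) : 𝓞 (L u0.1)) =
          (t u0.1 - (r : 𝓞 (L u0.1))) - (t u0.1 - (r' : 𝓞 (L u0.1))) := by push_cast; ring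
      rw [this]
      exact u0.2.1.asIdeal.sub_mem k2 k2'
    refine ⟨c * c', fun h => ?_, fun u hne => ?_⟩
    · rcases (Nat.prime_iff_prime_int.mp hl).dvd_or_dvd h with h | h
      · exact k1 h
      · exact k1' h
    · obtain ⟨g, hg⟩ := k3 u hne
      obtain ⟨g', hg'⟩ := k3' u hne
      refine ⟨((r : 𝓞 (L u.1)) - t u.1) * g * g', ?_⟩
      have hrv : ((r' - r : ℤ) : 𝓞 (L u.1)) ∈ u.2.1.asIdeal := (int_mem_iff hl u.2.2 _).2 hr
      have e : ((c * c' : ℤ) : 𝓞 (L u.1)) * β u.1 * β' u.1 -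
          (((r : 𝓞 (L u.1)) - t u.1) * g * g') ^ 2 =
          ((r : 𝓞 (L u.1)) - t u.1) * g ^ 2 * g' ^ 2 * ((r' - r : ℤ) : 𝓞 (L u.1)) +
          ((r : 𝓞 (L u.1)) - t u.1) * g ^ 2 *
            ((c' : 𝓞 (L u.1)) * β' u.1 - ((r' : 𝓞 (L u.1)) - t u.1) * g' ^ 2) +
          (c' : 𝓞 (L u.1)) * β' u.1 *
            ((c : 𝓞 (L u.1)) * β u.1 - ((r : 𝓞 (L u.1)) - t u.1) * g ^ 2) := by
        push_cast; ring
      rw [e]
      exact u.2.1.asIdeal.add_mem (u.2.1.asIdeal.add_mem (u.2.1.asIdeal.mul_mem_left _ hrv)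
        (u.2.1.asIdeal.mul_mem_left _ hg')) (u.2.1.asIdeal.mul_mem_left _ hg)

end Pool.Agent.H11.EM
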