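import Mathlib
import Pool.Agent.H11.V.R_pool_sql_team_seeded_3997aac3_Q51_EL_Stm

/-!
# Project EM (helper11): definitions

Project EL of the library treats the quadratic twists `D y² = F(x, w)` for ONE irreducible polynomial.
Here `F = ∏ k, f k` is a product of irreducible polynomials of any degrees, and the number field `L` is
replaced by the algebra `∏ k, L k`, `L k = ℚ(θ k)`.
-/

set_option autoImplicit false

namespace Pool.Agent.H11.EM

open Polynomial NumberField IsDedekindDomain Finset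
open Pool.Agent.Q51.EL (Abv Par N1 pr CovPt Setup hom CurvePt)

section

variable {K : Type} (L : K → Type) [∀ k, Field (L k)] [∀ k, NumberField (L k)]

/-- the primes of `∏ k, L k` above `l` -/
abbrev PL (l : ℕ) : Type := Σ k : K, {v : HeightOneSpectrum (𝓞 (L k)) // Abv v l}

variable {L}

/-- `β` lies in the prime `u` -/
def In {l : ℕ} (β : ∀ k, 𝓞 (L k)) (u : PL L l) : Prop := β u.1 ∈ u.2.1.asIdeal

/-- first local condition at the prime `l` for the set `T`: an element of `T` is a unit at `l`, or it is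
contained in exactly one of the primes above `l`, and this has degree one -/
def Ty1 (l : ℕ) (T : Set (∀ k, 𝓞 (L k))) : Prop :=
  ∀ β ∈ T, (∀ u : PL L l, ¬ In β u) ∨
    ∃ u0 : PL L l, Ideal.absNorm u0.2.1.asIdeal = l ∧ In β u0 ∧ ∀ u : PL L l, u ≠ u0 → ¬ In β u

/-- second local condition: the product of two elements of `T` which lie in the same prime `u0` above
`l` is a rational integer prime to `l` times a square modulo all other primes above `l` -/
def Ty2 (l : ℕ) (T : Set (∀ k, 𝓞 (L k))) : Prop :=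
  ∀ β ∈ T, ∀ β' ∈ T, ∀ u0 : PL L l, In β u0 → In β' u0 →
    ∃ c : ℤ, ¬ (l : ℤ) ∣ c ∧ ∀ u : PL L l, u ≠ u0 →
      ∃ g : 𝓞 (L u.1), (c : 𝓞 (L u.1)) * β u.1 * β' u.1 - g ^ 2 ∈ u.2.1.asIdeal

/-- the elements of `T` in the box with the sides `Y` -/
def box (Y : K → ℝ) (T : Set (∀ k, 𝓞 (L k))) : Set (∀ k, 𝓞 (L k)) :=
  {β ∈ T | ∀ k, ∀ σ : L k →+* ℂ, ‖σ (β k : L k)‖ ≤ Y k}

/-- the classes of the elements of `T` modulo `l` -/
def cls (l : ℕ) (T : Set (∀ k, 𝓞 (L k))) : Set (∀ k, 𝓞 (L k) ⧸ Ideal.span {(l : 𝓞 (L k))}) :=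
  (fun (β : ∀ k, 𝓞 (L k)) (k : K) => Ideal.Quotient.mk (Ideal.span {(l : 𝓞 (L k))}) (β k)) '' T

variable (L)

/-- the degree of `∏ k, L k` -/
noncomputable def dg [Fintype K] : ℕ := ∑ k, Module.finrank ℚ (L k)

/-- the number of the primes of norm `l` -/
noncomputable def NN [Fintype K] (l : ℕ) : ℕ := ∑ k, N1 (L k) l

/-- an upper bound for `NN * 2 ^ (2 - r)`, `r` the number of the primes above `l` (if `dg ≥ 2`) -/
noncomputable def tau [Fintype K] (l : ℕ) : ℝ :=
  if NN L l = 0 then 0 else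
    if NN L l = dg L then (dg L : ℝ) * 4 / 2 ^ dg L else 1

open Classical in
/-- the sum of `1 / q` over the primes `q ≤ Y` which are the norm of a prime of `∏ k, L k` -/
noncomputable def GN [Fintype K] (Y : ℝ) : ℝ :=
  ∑ q ∈ (pr Y).filter (fun q => 1 ≤ NN L q), (1 : ℝ) / q

variable {L}

/-- the local conditions satisfied by the element of `∏ k, L k` that belongs to a twist with nonempty
Selmer set, at all primes not dividing `B`; `t k` is a multiple of `θ k` -/
def Good (B : ℕ) (t α : ∀ k, 𝓞 (L k)) : Prop :=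
  ∀ l : ℕ, l.Prime → ¬ l ∣ B →
    (∀ u : PL L l, ¬ In α u) ∨
    ∃ u0 : PL L l, Ideal.absNorm u0.2.1.asIdeal = l ∧ In α u0 ∧
      (∀ u : PL L l, u ≠ u0 → ¬ In α u) ∧
      ∃ c r : ℤ, ¬ (l : ℤ) ∣ c ∧ t u0.1 - (r : 𝓞 (L u0.1)) ∈ u0.2.1.asIdeal ∧
        ∀ u : PL L l, u ≠ u0 →
          ∃ g : 𝓞 (L u.1), (c : 𝓞 (L u.1)) * α u.1 - ((r : 𝓞 (L u.1)) - t u.1) * g ^ 2 ∈
            u.2.1.asIdeal

end

end Pool.Agent.H11.EM
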