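import Pool.Agent.H11.EM.Crt

/-! Project EM: the descent. -/

set_option autoImplicit false
set_option linter.unusedSectionVars false

namespace Pool.Agent.H11.EM

open Polynomial NumberField IsDedekindDomain Pool.Agent.Q239.EL
open Pool.Agent.Q51.EL (Abv Par N1 pr CovPt Setup hom CurvePt)

lemma one_le_N1 {L : Type} [Field L] [NumberField L] {l : ℕ} (hl : l.Prime)
    (v : HeightOneSpectrum (𝓞 L)) (hN : Ideal.absNorm v.asIdeal = l) : 1 ≤ N1 L l := by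
  have : Fact l.Prime := ⟨hl⟩
  have hfin : Finite {v : HeightOneSpectrum (𝓞 L) // Ideal.absNorm v.asIdeal = l} := by
    refine ((ab_finite (L := L) hl.ne_zero).subset ?_).to_subtype
    intro v hv
    change (l : 𝓞 L) ∈ v.asIdeal
    have h1 : Ideal.absNorm v.asIdeal = l := hv
    have h2 := Ideal.absNorm_mem v.asIdeal
    rwa [h1] at h2
  have : Nonempty {v : HeightOneSpectrum (𝓞 L) // Ideal.absNorm v.asIdeal = l} := ⟨⟨v, hN⟩⟩
  exact Nat.card_pos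

/-- the part of the descent in one field -/
lemma onefield {L : Type} [Field L] [NumberField L] {Cu Cc : ℝ} {Bc B : ℕ} (hCu : 0 < Cu)
    (hCc : 0 < Cc) (hB0 : B ≠ 0) (hBc : Bc ∣ B)
    (hun' : ∀ α : 𝓞 L, α ≠ 0 → ∃ u : (𝓞 L)ˣ, ∀ σ : L →+* ℂ,
      ‖σ ((α * (u : 𝓞 L) ^ 2 : 𝓞 L) : L)‖ ≤
      Cu * ((Ideal.absNorm (Ideal.span {α}) : ℕ) : ℝ) ^ ((1 : ℝ) / Module.finrank ℚ L))
    (hcl' : ∀ (δ : L) (S : Finset (HeightOneSpectrum (𝓞 L))), δ ≠ 0 →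
      (∀ v : HeightOneSpectrum (𝓞 L), (Bc : 𝓞 L) ∉ v.asIdeal →
        (v ∈ S → Par v δ 1) ∧ (v ∉ S → Par v δ 0)) →
      ∃ (η : L) (α : 𝓞 L), η ≠ 0 ∧ (α : L) = δ * η ^ 2 ∧
        (∀ v : HeightOneSpectrum (𝓞 L), (Bc : 𝓞 L) ∉ v.asIdeal →
          (v ∈ S → v.valuation L (α : L) = WithZero.exp (-1 : ℤ)) ∧
          (v ∉ S → v.valuation L (α : L) = 1)) ∧
        ((Ideal.absNorm (Ideal.span {α}) : ℕ) : ℝ) ≤
          Cc * ∏ v ∈ S, ((Ideal.absNorm v.asIdeal : ℕ) : ℝ)) :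
    ∃ C : ℝ, 0 < C ∧ ∀ (x : L) (S0 : Finset (HeightOneSpectrum (𝓞 L))), x ≠ 0 →
      (∀ v : HeightOneSpectrum (𝓞 L), v ∈ S0 ↔ (B : 𝓞 L) ∉ v.asIdeal ∧ Par v x 1) →
      ∃ (α : 𝓞 L) (η : L), α ≠ 0 ∧ η ≠ 0 ∧ (α : L) = x * η ^ 2 ∧
        (∀ v : HeightOneSpectrum (𝓞 L), (B : 𝓞 L) ∉ v.asIdeal →
          (Par v x 1 → v.valuation L (α : L) = WithZero.exp (-1 : ℤ)) ∧
          (Par v x 0 → v.valuation L (α : L) = 1)) ∧
        ∀ σ : L →+* ℂ, ‖σ (α : L)‖ ≤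
          C * ((∏ v ∈ S0, Ideal.absNorm v.asIdeal : ℕ) : ℝ) ^ ((1 : ℝ) / Module.finrank ℚ L) := by
  classical
  have hWf : {v : HeightOneSpectrum (𝓞 L) | (B : 𝓞 L) ∈ v.asIdeal}.Finite :=
    mem_finite (by exact_mod_cast hB0)
  set W := hWf.toFinset with hW
  set W0 : ℕ := ∏ v ∈ W, Ideal.absNorm v.asIdeal with hW0
  have hW0pos : 0 < W0 := Finset.prod_pos fun v _ => one_le_norm' v
  have hn0 : 0 < Module.finrank ℚ L := Module.finrank_pos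
  refine ⟨Cu * (Cc * W0) ^ ((1 : ℝ) / Module.finrank ℚ L), by positivity, fun x S0 hx hS0 => ?_⟩
  have hSfin : {v : HeightOneSpectrum (𝓞 L) | (Bc : 𝓞 L) ∉ v.asIdeal ∧ Par v x 1}.Finite := by
    refine (supp_finite hx).subset ?_
    rintro v ⟨-, hv⟩ h5
    obtain ⟨k, hk⟩ := hv
    rw [h5, ← WithZero.exp_zero, WithZero.exp_inj] at hk
    omega
  set S := hSfin.toFinset with hS
  have hSm : ∀ v, v ∈ S ↔ (Bc : 𝓞 L) ∉ v.asIdeal ∧ Par v x 1 := fun v =>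
    hSfin.mem_toFinset
  obtain ⟨η, α0, hη, hα0, hval0, hnorm0⟩ := hcl' x S hx (fun v hv =>
    ⟨fun h => ((hSm v).mp h).2, fun h => by
      rcases par_or v hx with h1 | h1
      · exact h1
      · exact absurd ((hSm v).mpr ⟨hv, h1⟩) h⟩)
  have hα0L : (α0 : L) ≠ 0 := by
    rw [hα0]
    exact mul_ne_zero hx (pow_ne_zero 2 hη)
  have hα00 : α0 ≠ 0 := by
    rintro rfl
    exact hα0L (by simp)
  have hBcB : ∀ v : HeightOneSpectrum (𝓞 L), (B : 𝓞 L) ∉ v.asIdeal → (Bc : 𝓞 L) ∉ v.asIdeal := by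
    intro v hv h
    apply hv
    obtain ⟨m, hm⟩ := hBc
    rw [hm, Nat.cast_mul]
    exact Ideal.mul_mem_right _ _ h
  have hprodS : ∏ v ∈ S, Ideal.absNorm v.asIdeal ≤ W0 * ∏ v ∈ S0, Ideal.absNorm v.asIdeal := by
    have h1 : S ⊆ S0 ∪ W := by
      intro v hv
      rw [Finset.mem_union]
      by_cases h : (B : 𝓞 L) ∈ v.asIdeal
      · exact Or.inr (hWf.mem_toFinset.mpr h)
      · exact Or.inl ((hS0 v).2 ⟨h, ((hSm v).1 hv).2⟩)
    calc ∏ v ∈ S, Ideal.absNorm v.asIdeal ≤ ∏ v ∈ S0 ∪ W, Ideal.absNorm v.asIdeal :=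
          Finset.prod_le_prod_of_subset_of_one_le' h1 fun v _ _ => one_le_norm' v
      _ ≤ (∏ v ∈ S0 ∪ W, Ideal.absNorm v.asIdeal) * ∏ v ∈ S0 ∩ W, Ideal.absNorm v.asIdeal :=
          Nat.le_mul_of_pos_right _ (Finset.prod_pos fun v _ => one_le_norm' v)
      _ = (∏ v ∈ S0, Ideal.absNorm v.asIdeal) * W0 := Finset.prod_union_inter
      _ = W0 * ∏ v ∈ S0, Ideal.absNorm v.asIdeal := mul_comm _ _
  obtain ⟨u, hu⟩ := hun' α0 hα00
  set α : 𝓞 L := α0 * (u : 𝓞 L) ^ 2 with hα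
  have huL : ((u : 𝓞 L) : L) ≠ 0 := coe_ne u.ne_zero
  have hαL : (α : L) = x * (η * ((u : 𝓞 L) : L)) ^ 2 := by
    have e1 : ((α0 * (u : 𝓞 L) ^ 2 : 𝓞 L) : L) = (α0 : L) * ((u : 𝓞 L) : L) ^ 2 := by
      have e2 : ((α0 * (u : 𝓞 L) ^ 2 : 𝓞 L) : L) = (α0 : L) * (((u : 𝓞 L) ^ 2 : 𝓞 L) : L) :=
        map_mul (algebraMap (𝓞 L) L) _ _
      rw [e2]
      congr 1
    rw [hα, e1, hα0]
    ring
  have hηu : η * ((u : 𝓞 L) : L) ≠ 0 := mul_ne_zero hη huL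
  have hαL0 : (α : L) ≠ 0 := by
    rw [hαL]
    exact mul_ne_zero hx (pow_ne_zero 2 hηu)
  have hvu : ∀ v : HeightOneSpectrum (𝓞 L), v.valuation L ((u : 𝓞 L) : L) = 1 := by
    intro v
    apply (HeightOneSpectrum.valuation_eq_one_iff_notMem v).mpr
    intro h
    exact v.isPrime.ne_top (Ideal.eq_top_of_isUnit_mem _ h u.isUnit)
  have hvα : ∀ v : HeightOneSpectrum (𝓞 L), v.valuation L (α : L) = v.valuation L (α0 : L) := by
    intro v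
    have e1 : (α : L) = (α0 : L) * ((u : 𝓞 L) : L) ^ 2 := by
      rw [hαL, hα0]
      ring
    rw [e1, map_mul, map_pow, hvu, one_pow, mul_one]
  refine ⟨α, η * ((u : 𝓞 L) : L), ?_, hηu, hαL, ?_, ?_⟩
  · rintro h
    rw [h] at hαL0
    exact hαL0 (by simp)
  · intro v hv
    rw [hvα]
    refine ⟨fun h => (hval0 v (hBcB v hv)).1 ((hSm v).2 ⟨hBcB v hv, h⟩), fun h => ?_⟩
    exact (hval0 v (hBcB v hv)).2 (fun h2 => par_excl h ((hSm v).mp h2).2)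
  · intro σ
    set N0 : ℝ := ((∏ v ∈ S0, Ideal.absNorm v.asIdeal : ℕ) : ℝ) with hN0
    have hN : ((Ideal.absNorm (Ideal.span {α0}) : ℕ) : ℝ) ≤ (Cc * W0) * N0 := by
      refine hnorm0.trans ?_
      have h1 : (∏ v ∈ S, ((Ideal.absNorm v.asIdeal : ℕ) : ℝ)) ≤ (W0 : ℝ) * N0 := by
        rw [hN0]
        exact_mod_cast hprodS
      calc Cc * ∏ v ∈ S, ((Ideal.absNorm v.asIdeal : ℕ) : ℝ) ≤ Cc * ((W0 : ℝ) * N0) :=
            mul_le_mul_of_nonneg_left h1 hCc.le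
        _ = _ := by ring
    have h2 := hu σ
    refine h2.trans ?_
    have hexp : (0 : ℝ) ≤ (1 : ℝ) / Module.finrank ℚ L := by positivity
    calc Cu * ((Ideal.absNorm (Ideal.span {α0}) : ℕ) : ℝ) ^ ((1 : ℝ) / Module.finrank ℚ L)
        ≤ Cu * ((Cc * W0) * N0) ^ ((1 : ℝ) / Module.finrank ℚ L) :=
          mul_le_mul_of_nonneg_left (Real.rpow_le_rpow (by positivity) hN hexp) hCu.le
      _ = _ := by
          rw [Real.mul_rpow (by positivity) (by positivity)]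
          ring

end Pool.Agent.H11.EM
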