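import Pool.Agent.H11.EM.Root

/-! Project EM: the primes above `l` dividing `x - w θ`, parities of norms, for several factors. -/

set_option autoImplicit false
set_option linter.unusedSectionVars false

namespace Pool.Agent.H11.EM

open Polynomial NumberField IsDedekindDomain Pool.Agent.Q239.EL
open Pool.Agent.Q51.EL (Abv Par N1 pr CovPt Setup hom CurvePt)

section one

variable {L : Type} [Field L] [NumberField L]

/-- a residue of `θ` -/
lemma resid {f : ℤ[X]} {θ : L} (hs : Setup f L θ) {l : ℕ} (hl : l.Prime)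
    {v : HeightOneSpectrum (𝓞 L)} (hv : Abv v l) (hθ : v.valuation L θ ≤ 1) {x w r : ℤ}
    (hw : ¬ (l : ℤ) ∣ w) (hr : (l : ℤ) ∣ w * r - x)
    (h : v.valuation L ((x : L) - w * θ) < 1) : (l : ℤ) ∣ f.eval r := by
  have : Fact l.Prime := ⟨hl⟩
  apply dvd_eval hs hv hθ
  have h1 : v.valuation L ((w : L) * (θ - r)) < 1 := by
    have e : (w : L) * (θ - r) = -(((x : L) - w * θ) + ((w * r - x : ℤ) : L)) := by
      push_cast; ring
    rw [e, Valuation.map_neg]
    exact lt_of_le_of_lt (Valuation.map_add _ _ _) (max_lt h (val_int_lt hv hr))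
  rw [map_mul, val_int_eq hv hw, one_mul] at h1
  exact h1

lemma nv1 {l : ℕ} (hl : l.Prime) (hs : Squarefree (Ideal.span {(l : 𝓞 L)})) {x : L} (hx : x ≠ 0) :
    (∀ e : ℤ, (∀ v : HeightOneSpectrum (𝓞 L), Abv v l → Par v x e) →
      Even (padicValRat l (Algebra.norm ℚ x) + e * Module.finrank ℚ L)) ∧
    ∀ (e0 e : ℤ) (v0 : HeightOneSpectrum (𝓞 L)), Abv v0 l → Ideal.absNorm v0.asIdeal = l →
      Par v0 x e0 → (∀ v : HeightOneSpectrum (𝓞 L), Abv v l → v ≠ v0 → Par v x e) →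
      Even (padicValRat l (Algebra.norm ℚ x) + e0 - e + e * Module.finrank ℚ L) := by
  classical
  have : Fact l.Prime := ⟨hl⟩
  obtain ⟨z, y, hz, hy, hzy, hev⟩ := norm_val (l := l) hx
  have hform := ph_formula (l := l) (Ideal.span {z}) (span_ne hz)
  have hsum := sum_ph (L := L) (l := l) hs
  set V := (ab_finite (L := L) hl.ne_zero).toFinset with hV
  have hVm : ∀ v, v ∈ V ↔ Abv v l := fun v => (ab_finite hl.ne_zero).mem_toFinset
  have hpar : ∀ v e, Par v x e → Even ((mu v (Ideal.span {z}) : ℤ) + e) := by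
    intro v e h
    have h1 := par_mul_sq hy h
    rw [← hzy] at h1
    exact par_int hz h1
  constructor
  · intro e he
    have h1 : Even ((ph l (Ideal.span {z}) : ℤ) + e * Module.finrank ℚ L) := by
      rw [hform, ← hsum]
      push_cast
      rw [Finset.mul_sum, ← Finset.sum_add_distrib]
      apply Finset.even_sum
      intro v hv
      rw [← add_mul]
      exact (hpar v e (he v ((hVm v).mp hv))).mul_right _
    have h2 := hev.add h1
    obtain ⟨a, ha⟩ := h2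
    exact ⟨a, by linarith⟩
  · intro e0 e v0 hv0 hN h0 he
    have hphv0 : ph l v0.asIdeal = 1 := by
      unfold ph
      rw [hN, padicValNat.self hl.one_lt]
    have hmem : v0 ∈ V := (hVm v0).mpr hv0
    have h1 : Even ((ph l (Ideal.span {z}) : ℤ) + e0 - e + e * Module.finrank ℚ L) := by
      rw [hform, ← hsum]
      rw [← Finset.add_sum_erase V _ hmem, ← Finset.add_sum_erase V _ hmem, hphv0]
      push_cast
      have e1 : ((mu v0 (Ideal.span {z}) : ℤ) * 1 + ∑ x ∈ V.erase v0,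
          (mu x (Ideal.span {z}) : ℤ) * (ph l x.asIdeal : ℤ)) + e0 - e +
          e * (1 + ∑ x ∈ V.erase v0, (ph l x.asIdeal : ℤ)) =
          ((mu v0 (Ideal.span {z}) : ℤ) + e0) + ∑ x ∈ V.erase v0,
          ((mu x (Ideal.span {z}) : ℤ) + e) * (ph l x.asIdeal : ℤ) := by
        simp only [add_mul, Finset.sum_add_distrib]
        rw [← Finset.mul_sum]
        ring
      rw [e1]
      refine (hpar v0 e0 h0).add (Finset.even_sum _ ?_)
      intro v hv
      obtain ⟨hv1, hv2⟩ := Finset.mem_erase.mp hv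
      exact (hpar v e (he v ((hVm v).mp hv2) hv1)).mul_right _
    obtain ⟨a, ha⟩ := h1
    obtain ⟨c, hc⟩ := hev
    exact ⟨a + c, by linarith⟩

end one

variable {K : Type} [Fintype K] {f : K → ℤ[X]} {L : K → Type} [∀ k, Field (L k)]
  [∀ k, NumberField (L k)] {θ : ∀ k, L k}

theorem nvm (hn : Even (dg L)) {l : ℕ} (hl : l.Prime)
    (hs : ∀ k, Squarefree (Ideal.span {(l : 𝓞 (L k))})) {x : ∀ k, L k} (hx : ∀ k, x k ≠ 0) :
    (∀ e : ℤ, (∀ u : PL L l, Par u.2.1 (x u.1) e) →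
      Even (∑ k, padicValRat l (Algebra.norm ℚ (x k)))) ∧
    ∀ (e0 e : ℤ) (u0 : PL L l), Ideal.absNorm u0.2.1.asIdeal = l → Par u0.2.1 (x u0.1) e0 →
      (∀ u : PL L l, u ≠ u0 → Par u.2.1 (x u.1) e) →
      Even (∑ k, padicValRat l (Algebra.norm ℚ (x k)) + e0 + e) := by
  classical
  have hE : ∀ e : ℤ, Even (e * (dg L : ℤ)) := by
    intro e
    obtain ⟨m, hm⟩ := hn
    rw [hm]
    exact ⟨e * m, by push_cast; ring⟩
  have hS : ∀ e : ℤ, ∑ k, (padicValRat l (Algebra.norm ℚ (x k)) + e * Module.finrank ℚ (L k)) =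
      ∑ k, padicValRat l (Algebra.norm ℚ (x k)) + e * (dg L : ℤ) := by
    intro e
    rw [Finset.sum_add_distrib, ← Finset.mul_sum]
    unfold dg
    push_cast
    rfl
  constructor
  · intro e he
    have h1 : Even (∑ k, (padicValRat l (Algebra.norm ℚ (x k)) + e * Module.finrank ℚ (L k))) :=
      Finset.even_sum _ fun k _ => (nv1 hl (hs k) (hx k)).1 e fun v hv => he ⟨k, v, hv⟩
    rw [hS] at h1
    have := h1.sub (hE e)
    simpa using this
  · rintro e0 e ⟨k0, v0, hv0⟩ hN h0 he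
    have h1 : Even (padicValRat l (Algebra.norm ℚ (x k0)) + e0 - e +
        e * Module.finrank ℚ (L k0)) := by
      refine (nv1 hl (hs k0) (hx k0)).2 e0 e v0 hv0 hN h0 fun v hv hne => ?_
      refine he ⟨k0, v, hv⟩ fun h => hne ?_
      have h2 := congrArg (fun u : PL L l => u.1) h
      simp only [Sigma.mk.injEq, heq_eq_eq, Subtype.mk.injEq, true_and] at h
      exact h
    have h2 : Even (∑ k ∈ Finset.univ.erase k0,
        (padicValRat l (Algebra.norm ℚ (x k)) + e * Module.finrank ℚ (L k))) := by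
      refine Finset.even_sum _ fun k hk => (nv1 hl (hs k) (hx k)).1 e fun v hv => ?_
      refine he ⟨k, v, hv⟩ fun h => (Finset.mem_erase.1 hk).1 ?_
      exact congrArg (fun u : PL L l => u.1) h
    have h3 := hS e
    rw [← Finset.add_sum_erase _ _ (Finset.mem_univ k0)] at h3
    obtain ⟨a, ha⟩ := h1
    obtain ⟨b, hb⟩ := h2
    obtain ⟨c, hc⟩ := hE e
    exact ⟨a + b - c + e, by linarith⟩

/-- the primes above `l` which contain a value `x - w θ` -/
theorem rootm (hs : Sys f L θ) : ∃ B : ℕ, B ≠ 0 ∧ (∏ k, f k).leadingCoeff ∣ (B : ℤ) ∧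
    (∀ l : ℕ, l.Prime → ¬ l ∣ B → ∀ k, Squarefree (Ideal.span {(l : 𝓞 (L k))})) ∧
    ∀ l : ℕ, l.Prime → ¬ l ∣ B →
    (∀ u : PL L l, u.2.1.valuation (L u.1) (θ u.1) ≤ 1 ∧
      u.2.1.valuation (L u.1) (l : L u.1) = WithZero.exp (-1 : ℤ)) ∧
    ∀ x w : ℤ, (¬ (l : ℤ) ∣ x ∨ ¬ (l : ℤ) ∣ w) →
      (∀ u : PL L l, u.2.1.valuation (L u.1) ((x : L u.1) - w * θ u.1) = 1) ∨
      ∃ u0 : PL L l, Ideal.absNorm u0.2.1.asIdeal = l ∧ ¬ (l : ℤ) ∣ w ∧
        u0.2.1.valuation (L u0.1) ((x : L u0.1) - w * θ u0.1) < 1 ∧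
        ∀ u : PL L l, u ≠ u0 → u.2.1.valuation (L u.1) ((x : L u.1) - w * θ u.1) = 1 := by
  classical
  have h1 := fun k => Pool.Agent.Q51.EL.t_root (f k) (L k) (θ k) (hs.set k)
  choose B1 hB1 hB1a hB1' using h1
  have h2 := fun k => (Pool.Agent.Q91.EL.ram (L k)).1
  choose B2 hB2 hB2' using h2
  have h3 : ∀ p : K × K, ∃ m : ℕ, m ≠ 0 ∧ (p.1 ≠ p.2 → ∀ l : ℕ, ∀ r : ℤ,
      (l : ℤ) ∣ (f p.1).eval r → (l : ℤ) ∣ (f p.2).eval r → l ∣ m) := by
    rintro ⟨k, k'⟩
    by_cases h : k = k'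
    · exact ⟨1, one_ne_zero, fun h' => absurd h h'⟩
    · obtain ⟨U, V, m, hm, hUV⟩ := hs.res h
      refine ⟨m.natAbs, Int.natAbs_ne_zero.2 hm, fun _ l r h4 h5 => ?_⟩
      rw [← Int.natCast_dvd]
      have h6 := congrArg (eval r) hUV
      rw [eval_add, eval_mul, eval_mul, eval_C] at h6
      rw [← h6]
      exact dvd_add (Dvd.dvd.mul_left h4 _) (Dvd.dvd.mul_left h5 _)
  choose M hM hM' using h3
  set a := (∏ k, f k).leadingCoeff with ha
  have ha0 : a ≠ 0 := leadingCoeff_ne_zero.2 hs.prod_ne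
  set B : ℕ := a.natAbs * ((∏ k, B1 k) * ((∏ k, B2 k) * ∏ p, M p)) with hB
  have hd1 : ∀ {l : ℕ} (k : K), l ∣ B1 k → l ∣ B := fun k h =>
    Dvd.dvd.mul_left (Dvd.dvd.mul_right (h.trans (Finset.dvd_prod_of_mem _ (Finset.mem_univ k))) _) _
  have hd2 : ∀ {l : ℕ} (k : K), l ∣ B2 k → l ∣ B := fun k h =>
    Dvd.dvd.mul_left (Dvd.dvd.mul_left (Dvd.dvd.mul_right
      (h.trans (Finset.dvd_prod_of_mem _ (Finset.mem_univ k))) _) _) _
  have hd3 : ∀ {l : ℕ} (p : K × K), l ∣ M p → l ∣ B := fun p h =>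
    Dvd.dvd.mul_left (Dvd.dvd.mul_left (Dvd.dvd.mul_left
      (h.trans (Finset.dvd_prod_of_mem _ (Finset.mem_univ p))) _) _) _
  refine ⟨B, ?_, ?_, fun l hl hlB k => hB2' k l hl fun h => hlB (hd2 k h), ?_⟩
  · refine mul_ne_zero (Int.natAbs_ne_zero.2 ha0) (mul_ne_zero ?_ (mul_ne_zero ?_ ?_))
    · exact Finset.prod_ne_zero_iff.2 fun k _ => hB1 k
    · exact Finset.prod_ne_zero_iff.2 fun k _ => hB2 k
    · exact Finset.prod_ne_zero_iff.2 fun p _ => hM p
  · rw [hB]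
    push_cast
    exact Dvd.dvd.mul_right (self_dvd_abs _) _
  intro l hl hlB
  have hR := fun k => hB1' k l hl fun h => hlB (hd1 k h)
  refine ⟨fun u => (hR u.1).1 u.2.1 u.2.2, fun x w hxw => ?_⟩
  by_cases hall : ∀ k, ∀ v : HeightOneSpectrum (𝓞 (L k)), Abv v l →
      v.valuation (L k) ((x : L k) - w * θ k) = 1
  · exact Or.inl fun u => hall u.1 u.2.1 u.2.2
  right
  push Not at hall
  obtain ⟨k0, v1, hv1, hne1⟩ := hall
  rcases (hR k0).2 x w hxw with h4 | ⟨v0, hv0, hN0, hw, hlt, hoth⟩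
  · exact absurd (h4 v1 hv1) hne1
  refine ⟨⟨k0, v0, hv0⟩, hN0, hw, hlt, ?_⟩
  rintro ⟨k, v, hv⟩ hne
  by_cases hk : k = k0
  · subst hk
    exact hoth v hv fun h => hne (by subst h; rfl)
  · rcases (hR k).2 x w hxw with h5 | ⟨v2, hv2, hN2, -, hlt2, -⟩
    · exact h5 v hv
    · exfalso
      obtain ⟨r, hr⟩ : ∃ r : ℤ, (l : ℤ) ∣ w * r - x := by
        have h3 : IsCoprime (l : ℤ) w :=
          Int.isCoprime_iff_gcd_eq_one.mpr (Int.isCoprime_iff_gcd_eq_one.mp
            ((Nat.prime_iff_prime_int.mp hl).coprime_iff_not_dvd.mpr hw))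
        obtain ⟨a', b', hab⟩ := h3
        refine ⟨b' * x, ⟨-a' * x, ?_⟩⟩
        linear_combination x * hab
      have h6 := resid (hs.set k0) hl hv0 ((hR k0).1 v0 hv0).1 hw hr hlt
      have h7 := resid (hs.set k) hl hv2 ((hR k).1 v2 hv2).1 hw hr hlt2
      exact hlB (hd3 (k, k0) (hM' (k, k0) hk l r h7 h6))

end Pool.Agent.H11.EM
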