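import Mathlib
import Pool.Agent.H11.EM.Ap
import Pool.Agent.H11.V.R_pool_sql_team_seeded_3997aac3_Q51_EL_All

/-! Project EM: the primes above `l` dividing `x - w θ`, parities of norms, for several factors. -/

set_option autoImplicit false

namespace Pool.Agent.H11.EM

open Polynomial NumberField IsDedekindDomain Pool.Agent.Q239.EL
open Pool.Agent.Q51.EL (Abv Par N1 pr CovPt Setup hom CurvePt)

variable {K : Type} [Fintype K] {f : K → ℤ[X]} {L : K → Type} [∀ k, Field (L k)]
  [∀ k, NumberField (L k)] {θ : ∀ k, L k}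

lemma Sys.ne (hs : Sys f L θ) (k : K) : f k ≠ 0 := by
  intro h
  exact (hs.set k).irr.ne_zero (by rw [h, Polynomial.map_zero])

lemma Sys.prod_ne (hs : Sys f L θ) : (∏ k, f k) ≠ 0 :=
  Finset.prod_ne_zero_iff.2 fun k _ => hs.ne k

lemma Sys.root (hs : Sys f L θ) (k : K) : aeval (θ k) (∏ k, f k) = 0 := by
  classical
  rw [map_prod]
  exact Finset.prod_eq_zero (Finset.mem_univ k) (hs.set k).root

lemma Sys.deg (hs : Sys f L θ) : dg L = (∏ k, f k).natDegree := by
  rw [natDegree_prod _ _ fun k _ => hs.ne k]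
  exact Finset.sum_congr rfl fun k _ => (hs.set k).deg

/-- a resultant -/
lemma Sys.res (hs : Sys f L θ) {k k' : K} (h : k ≠ k') :
    ∃ (U V : ℤ[X]) (m : ℤ), m ≠ 0 ∧ U * f k + V * f k' = C m := by
  have hcop : IsCoprime ((f k).map (Int.castRingHom ℚ)) ((f k').map (Int.castRingHom ℚ)) := by
    rw [(hs.set k).irr.coprime_iff_not_dvd]
    exact fun hd => hs.na k k' h (((hs.set k).irr.dvd_irreducible_iff_associated (hs.set k').irr).1 hd)
  obtain ⟨U', V', h⟩ := hcop
  obtain ⟨M1, hM1, hU⟩ := IsLocalization.integerNormalization_spec (nonZeroDivisors ℤ) U'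
  obtain ⟨M2, hM2, hV⟩ := IsLocalization.integerNormalization_spec (nonZeroDivisors ℤ) V'
  set U := IsLocalization.integerNormalization (nonZeroDivisors ℤ) U'
  set V := IsLocalization.integerNormalization (nonZeroDivisors ℤ) V'
  have hM1' : M1 ≠ 0 := nonZeroDivisors.ne_zero hM1
  have hM2' : M2 ≠ 0 := nonZeroDivisors.ne_zero hM2
  refine ⟨C M2 * U, C M1 * V, M1 * M2, mul_ne_zero hM1' hM2', ?_⟩
  apply Polynomial.map_injective (Int.castRingHom ℚ) (Int.cast_injective)
  have hU' : U.map (Int.castRingHom ℚ) = C (M1 : ℚ) * U' := by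
    have : U.map (Int.castRingHom ℚ) = M1 • U' := hU
    rw [this, zsmul_eq_mul]
    simp
  have hV' : V.map (Int.castRingHom ℚ) = C (M2 : ℚ) * V' := by
    have : V.map (Int.castRingHom ℚ) = M2 • V' := hV
    rw [this, zsmul_eq_mul]
    simp
  rw [Polynomial.map_add, Polynomial.map_mul, Polynomial.map_mul, Polynomial.map_mul,
    Polynomial.map_mul, hU', hV', map_C, map_C, map_C]
  simp only [eq_intCast]
  rw [Int.cast_mul, C_mul]
  linear_combination (C (M1 : ℚ) * C (M2 : ℚ)) * h

end Pool.Agent.H11.EM
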