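import Pool.Agent.H11.EM.Rm

/-! Project EM: parities of the valuations of `d(θ k)`. -/

set_option autoImplicit false
set_option linter.unusedSectionVars false

namespace Pool.Agent.H11.EM

open Polynomial NumberField IsDedekindDomain Pool.Agent.Q239.EL
open Pool.Agent.Q51.EL (Abv Par N1 pr CovPt Setup hom CurvePt)

variable {K : Type} [Fintype K] {f : K → ℤ[X]} {L : K → Type} [∀ k, Field (L k)]
  [∀ k, NumberField (L k)] {θ : ∀ k, L k}

lemma sum_padic {l : ℕ} [Fact l.Prime] {x : K → ℚ} (hx : ∀ k, x k ≠ 0) :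
    padicValRat l (∏ k, x k) = ∑ k, padicValRat l (x k) := by
  classical
  have : ∀ s : Finset K, padicValRat l (∏ k ∈ s, x k) = ∑ k ∈ s, padicValRat l (x k) := by
    intro s
    induction s using Finset.induction_on with
    | empty => simp
    | insert a s ha ih =>
      rw [Finset.prod_insert ha, Finset.sum_insert ha, padicValRat.mul (hx a)
        (Finset.prod_ne_zero_iff.2 fun k _ => hx k), ih]
  exact this _

theorem scm (hs : Sys f L θ) (heven : Even (∏ k, f k).natDegree) : ∃ B : ℕ, B ≠ 0 ∧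
    ∀ (l : ℕ) [Fact l.Prime], ¬ l ∣ B → ∀ (d : ℚ[X]) (D : ℤ), (∀ k, aeval (θ k) d ≠ 0) →
    Squarefree D → IsSquare (((D * (∏ k, f k).leadingCoeff : ℤ) : ℚ) *
      ∏ k, Algebra.norm ℚ (aeval (θ k) d)) → CovPt (∏ k, f k) d ℚ_[l] →
    ∃ e : ℤ,
      (¬ (l : ℤ) ∣ D ∧ ∀ u : PL L l, Par u.2.1 (aeval (θ u.1) d) e) ∨
      ((l : ℤ) ∣ D ∧ ∃ u0 : PL L l, Ideal.absNorm u0.2.1.asIdeal = l ∧
        Par u0.2.1 (aeval (θ u0.1) d) (e + 1) ∧
        ∀ u : PL L l, u ≠ u0 → Par u.2.1 (aeval (θ u.1) d) e) := by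
  obtain ⟨B, hB, hBa, hBs, hB'⟩ := rootm hs
  refine ⟨B, hB, ?_⟩
  intro l hl hlB d D hd hD hsq hcov
  obtain ⟨hθ, hxw⟩ := hB' l hl.out hlB
  have hsqf := hBs l hl.out hlB
  have ha : ¬ (l : ℤ) ∣ (∏ k, f k).leadingCoeff := fun h => hlB (by exact_mod_cast h.trans hBa)
  obtain ⟨x, w, e, G, he, hxw1, hval⟩ := apm (∏ k, f k) l ha d hcov 2
  have hval' : ∀ u : PL L l, u.2.1.valuation (L u.1) ((l : L u.1) ^ e * ((x : L u.1) - w * θ u.1) -
      aeval (θ u.1) d * aeval (θ u.1) G ^ 2) ≤ WithZero.exp (-((2 : ℕ) : ℤ)) := fun u =>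
    hval (L u.1) (θ u.1) (hs.root u.1) u.2.1 u.2.2
  have hnv' := nvm (x := fun k => aeval (θ k) d) (by rw [hs.deg]; exact heven) hl.out hsqf hd
  -- the valuation of `D`
  have hD0 : D ≠ 0 := hD.ne_zero
  have haQ : ((∏ k, f k).leadingCoeff : ℚ) ≠ 0 := by
    exact_mod_cast leadingCoeff_ne_zero.2 hs.prod_ne
  have hDQ : (D : ℚ) ≠ 0 := by exact_mod_cast hD0
  have hNδ1 : ∀ k, Algebra.norm ℚ (aeval (θ k) d) ≠ 0 := fun k =>
    Algebra.norm_ne_zero_iff.mpr (hd k)
  have hNδ : ∏ k, Algebra.norm ℚ (aeval (θ k) d) ≠ 0 := Finset.prod_ne_zero_iff.2 fun k _ => hNδ1 k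
  have hva : padicValRat l ((∏ k, f k).leadingCoeff : ℚ) = 0 := by
    rw [padicValRat.of_int]
    exact_mod_cast padicValInt.eq_zero_of_not_dvd ha
  have hpar : Even (padicValRat l (D : ℚ) + ∑ k, padicValRat l (Algebra.norm ℚ (aeval (θ k) d))) := by
    obtain ⟨s, hs'⟩ := hsq
    have h1 := congrArg (padicValRat l) hs'
    have hs0 : s ≠ 0 := by
      rintro rfl
      rw [mul_zero] at hs'
      push_cast at hs'
      exact mul_ne_zero (mul_ne_zero hDQ haQ) hNδ hs'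
    push_cast at h1
    rw [padicValRat.mul (mul_ne_zero hDQ haQ) hNδ, padicValRat.mul hDQ haQ, hva,
      padicValRat.mul hs0 hs0, add_zero, sum_padic hNδ1] at h1
    exact ⟨_, h1⟩
  have hvD0 : ¬ (l : ℤ) ∣ D → padicValRat l (D : ℚ) = 0 := by
    intro h
    rw [padicValRat.of_int]
    exact_mod_cast padicValInt.eq_zero_of_not_dvd h
  have hvD1 : (l : ℤ) ∣ D → padicValRat l (D : ℚ) = 1 := by
    rintro ⟨z, rfl⟩
    have hz0 : z ≠ 0 := right_ne_zero_of_mul hD0
    have hzl : ¬ (l : ℤ) ∣ z := by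
      intro h
      have h1 := hD l (mul_dvd_mul_left _ h)
      exact (Nat.prime_iff_prime_int.mp hl.out).not_isUnit h1
    push_cast
    rw [padicValRat.mul (by exact_mod_cast hl.out.ne_zero) (by exact_mod_cast hz0)]
    have h1 : padicValRat l (l : ℚ) = 1 := padicValRat.self hl.out.one_lt
    have h2 : padicValRat l (z : ℚ) = 0 := by
      rw [padicValRat.of_int]
      exact_mod_cast padicValInt.eq_zero_of_not_dvd hzl
    rw [h1, h2, add_zero]
  have hun : ∀ u : PL L l, u.2.1.valuation (L u.1) ((x : L u.1) - w * θ u.1) = 1 →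
      Par u.2.1 (aeval (θ u.1) d) e := by
    intro u h1
    exact par_of_val (hd u.1) (at_unit he (hθ u).2 h1 (hval' u))
  rcases hxw x w hxw1 with h1 | ⟨u0, hN0, hw, hlt, hoth⟩
  · refine ⟨e, Or.inl ⟨?_, fun u => hun u (h1 u)⟩⟩
    intro hlD
    have h2 := hnv'.1 e (fun u => hun u (h1 u))
    rw [hvD1 hlD] at hpar
    obtain ⟨a, ha'⟩ := hpar
    obtain ⟨b, hb'⟩ := h2
    omega
  · obtain ⟨e0, he0⟩ := val_exp (v := u0.2.1) (hd u0.1)
    have hp0 : Par u0.2.1 (aeval (θ u0.1) d) e0 := ⟨0, by rw [he0]; congr 1; ring⟩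
    have h2 := hnv'.2 e0 e u0 hN0 hp0 (fun u hne => hun u (hoth u hne))
    by_cases hlD : (l : ℤ) ∣ D
    · refine ⟨e, Or.inr ⟨hlD, u0, hN0, ?_, fun u hne => hun u (hoth u hne)⟩⟩
      rw [hvD1 hlD] at hpar
      apply par_congr hp0
      obtain ⟨a, ha'⟩ := hpar
      obtain ⟨b, hb'⟩ := h2
      exact ⟨b - a - e, by linarith⟩
    · refine ⟨e, Or.inl ⟨hlD, fun u => ?_⟩⟩
      by_cases hne : u = u0
      · subst hne
        rw [hvD0 hlD] at hpar
        apply par_congr hp0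
        obtain ⟨a, ha'⟩ := hpar
        obtain ⟨b, hb'⟩ := h2
        exact ⟨b - a - e, by linarith⟩
      · exact hun u (hoth u hne)

/-- a third prime -/
lemma thirdm {l : ℕ} [hl : Fact l.Prime] (hs : ∀ k, Squarefree (Ideal.span {(l : 𝓞 (L k))}))
    (hn : 3 ≤ dg L) (u0 u1 : PL L l) (h0 : ph l u0.2.1.asIdeal = 1)
    (h1 : ph l u1.2.1.asIdeal = 1) : ∃ u : PL L l, u ≠ u0 ∧ u ≠ u1 := by
  classical
  by_contra hcon
  push Not at hcon
  have hfin : ∀ k, Finite {v : HeightOneSpectrum (𝓞 (L k)) // Abv v l} := fun k =>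
    (ab_finite (L := L k) hl.out.ne_zero).to_subtype
  have hph : ∀ u : PL L l, ph l u.2.1.asIdeal = 1 := by
    intro u
    by_cases h : u = u0
    · rw [h]; exact h0
    · rw [hcon u h]; exact h1
  have h2 : ∀ k, Module.finrank ℚ (L k) = Nat.card {v : HeightOneSpectrum (𝓞 (L k)) // Abv v l} := by
    intro k
    rw [← sum_ph (L := L k) (l := l) (hs k)]
    have h3 : Nat.card {v : HeightOneSpectrum (𝓞 (L k)) // Abv v l} =
        (ab_finite (L := L k) hl.out.ne_zero).toFinset.card := by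
      rw [← Set.ncard_eq_toFinset_card _ (ab_finite (L := L k) hl.out.ne_zero)]
      rfl
    rw [h3, Finset.card_eq_sum_ones]
    refine Finset.sum_congr rfl fun v hv => ?_
    exact hph ⟨k, v, (ab_finite (L := L k) hl.out.ne_zero).mem_toFinset.1 hv⟩
  have h4 : dg L = Nat.card (PL L l) := by
    rw [Nat.card_sigma]
    exact Finset.sum_congr rfl fun k _ => h2 k
  have h5 : Nat.card (PL L l) ≤ 2 := by
    have h6 : (Set.univ : Set (PL L l)) ⊆ {u0, u1} := by
      intro u _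
      by_cases h : u = u0
      · exact Or.inl h
      · exact Or.inr (hcon u h)
    rw [← Set.ncard_univ]
    refine (Set.ncard_le_ncard h6 (Set.toFinite _)).trans ((Set.ncard_insert_le _ _).trans ?_)
    rw [Set.ncard_singleton]
  omega

end Pool.Agent.H11.EM
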