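import Pool.Agent.H11.EM.Scm

/-! Project EM: the classes at the primes dividing `D`. -/

set_option autoImplicit false
set_option linter.unusedSectionVars false

namespace Pool.Agent.H11.EM

open Polynomial NumberField IsDedekindDomain Pool.Agent.Q239.EL
open Pool.Agent.Q51.EL (Abv Par N1 pr CovPt Setup hom CurvePt)

variable {K : Type} [Fintype K] {f : K → ℤ[X]} {L : K → Type} [∀ k, Field (L k)]
  [∀ k, NumberField (L k)] {θ : ∀ k, L k}

theorem sdm (hs : Sys f L θ) (hn3 : 3 ≤ (∏ k, f k).natDegree) : ∃ B : ℕ, B ≠ 0 ∧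
    ∀ t : ∀ k, 𝓞 (L k), (∀ k, (t k : L k) = (∏ k, f k).leadingCoeff * θ k) →
    ∀ (l : ℕ) [Fact l.Prime], ¬ l ∣ B → ∀ (d : ℚ[X]) (α : ∀ k, 𝓞 (L k)),
    (∀ k, aeval (θ k) d = (α k : L k)) → CovPt (∏ k, f k) d ℚ_[l] →
    ∀ u0 : PL L l, Ideal.absNorm u0.2.1.asIdeal = l →
    u0.2.1.valuation (L u0.1) (α u0.1 : L u0.1) = WithZero.exp (-1 : ℤ) →
    (∀ u : PL L l, u ≠ u0 → u.2.1.valuation (L u.1) (α u.1 : L u.1) = 1) →
    ∃ c r : ℤ, ¬ (l : ℤ) ∣ c ∧ t u0.1 - (r : 𝓞 (L u0.1)) ∈ u0.2.1.asIdeal ∧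
      ∀ u : PL L l, u ≠ u0 →
        ∃ g : 𝓞 (L u.1), (c : 𝓞 (L u.1)) * α u.1 - ((r : 𝓞 (L u.1)) - t u.1) * g ^ 2 ∈
          u.2.1.asIdeal := by
  obtain ⟨B, hB, hBa, hBs, hB'⟩ := rootm hs
  refine ⟨B, hB, ?_⟩
  intro t ht l hl hlB d α hd hcov u0 hN0 hα0 hα
  set a : ℤ := (∏ k, f k).leadingCoeff with hadef
  obtain ⟨hθ, hxw⟩ := hB' l hl.out hlB
  have hsqf := hBs l hl.out hlB
  have ha : ¬ (l : ℤ) ∣ a := fun h => hlB (by exact_mod_cast h.trans hBa)
  obtain ⟨x, w, e, G, he, hxw1, hval0⟩ := apm (∏ k, f k) l ha d hcov 2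
  set g : ∀ k, L k := fun k => aeval (θ k) G with hg
  have hval : ∀ u : PL L l, u.2.1.valuation (L u.1) ((l : L u.1) ^ e * ((x : L u.1) - w * θ u.1) -
      (α u.1 : L u.1) * g u.1 ^ 2) ≤ WithZero.exp (-((2 : ℕ) : ℤ)) := by
    intro u
    have h1 := hval0 (L u.1) (θ u.1) (hs.root u.1) u.2.1 u.2.2
    rw [hd] at h1
    exact h1
  have hun : ∀ u : PL L l, u.2.1.valuation (L u.1) ((x : L u.1) - w * θ u.1) = 1 →
      u.2.1.valuation (L u.1) ((α u.1 : L u.1) * g u.1 ^ 2) = WithZero.exp (-(e : ℤ)) :=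
    fun u h1 => at_unit he (hθ u).2 h1 (hval u)
  have hg0 : ∀ u : PL L l, u.2.1.valuation (L u.1) ((x : L u.1) - w * θ u.1) = 1 →
      g u.1 ≠ 0 := by
    intro u h1 h3
    have h2 := hun u h1
    rw [h3, zero_pow (by norm_num), mul_zero, map_zero] at h2
    exact WithZero.exp_ne_zero h2.symm
  -- away from `u0`
  have hoff : ∀ u : PL L l, u ≠ u0 →
      u.2.1.valuation (L u.1) ((x : L u.1) - w * θ u.1) = 1 →
      e = 0 ∧ u.2.1.valuation (L u.1) (g u.1) = 1 := by
    intro u hne h1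
    have h2 := hun u h1
    obtain ⟨m, hm⟩ := val_exp (v := u.2.1) (hg0 u h1)
    rw [map_mul, hα u hne, one_mul, map_pow, hm, ← WithZero.exp_nsmul, WithZero.exp_inj] at h2
    simp at h2
    have hm0 : m = 0 := by omega
    refine ⟨by omega, ?_⟩
    rw [hm, hm0]
    rfl
  have hlt0 : u0.2.1.valuation (L u0.1) ((x : L u0.1) - w * θ u0.1) ≠ 1 := by
    intro h1
    have h2 := hun u0 h1
    obtain ⟨m, hm⟩ := val_exp (v := u0.2.1) (hg0 u0 h1)
    rw [map_mul, hα0, map_pow, hm, ← WithZero.exp_nsmul, ← WithZero.exp_add,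
      WithZero.exp_inj] at h2
    simp at h2
    have he1 : e = 1 := by omega
    have hph0 := ph_of_norm (l := l) hN0
    have hn3' : 3 ≤ dg L := by rw [hs.deg]; exact hn3
    rcases hxw x w hxw1 with h3 | ⟨u1, hN1, -, hlt1, hoth⟩
    · obtain ⟨u, hne, -⟩ := thirdm hsqf hn3' u0 u0 hph0 hph0
      have := (hoff u hne (h3 u)).1
      omega
    · obtain ⟨u, hne, hne1⟩ := thirdm hsqf hn3' u0 u1 hph0 (ph_of_norm (l := l) hN1)
      have := (hoff u hne (hoth u hne1)).1
      omega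
  rcases hxw x w hxw1 with h3 | ⟨u1, hN1, hw, hlt1, hoth⟩
  · exact absurd (h3 u0) hlt0
  have hv01 : u1 = u0 := by
    by_contra hne
    exact hlt0 (hoth u0 (fun h => hne h.symm))
  subst hv01
  obtain ⟨r, hr⟩ : ∃ r : ℤ, (l : ℤ) ∣ w * r - a * x := by
    have h3 : IsCoprime (l : ℤ) w :=
      Int.isCoprime_iff_gcd_eq_one.mpr (Int.isCoprime_iff_gcd_eq_one.mp
        ((Nat.prime_iff_prime_int.mp hl.out).coprime_iff_not_dvd.mpr hw))
    obtain ⟨a', b', hab⟩ := h3
    refine ⟨b' * (a * x), ⟨-a' * (a * x), ?_⟩⟩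
    linear_combination (a * x) * hab
  have hmem : ∀ {k : K} {v : HeightOneSpectrum (𝓞 (L k))} {y : 𝓞 (L k)},
      v.valuation (L k) (y : L k) < 1 → y ∈ v.asIdeal := fun h =>
    (HeightOneSpectrum.valuation_lt_one_iff_mem _ _).mp h
  have hcoe : ∀ (k : K) (y z : 𝓞 (L k)), ((y - z : 𝓞 (L k)) : L k) = (y : L k) - (z : L k) :=
    fun k y z => map_sub (algebraMap (𝓞 (L k)) (L k)) y z
  have hcoem : ∀ (k : K) (y z : 𝓞 (L k)), ((y * z : 𝓞 (L k)) : L k) = (y : L k) * (z : L k) :=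
    fun k y z => map_mul (algebraMap (𝓞 (L k)) (L k)) y z
  have hac : ¬ (l : ℤ) ∣ a * w := by
    intro h
    rcases (Nat.prime_iff_prime_int.mp hl.out).dvd_or_dvd h with h4 | h4
    · exact ha h4
    · exact hw h4
  refine ⟨a * w, r, hac, ?_, ?_⟩
  · apply hmem
    rw [hcoe, ht, int_coe]
    have h1 : u1.2.1.valuation (L u1.1) ((w : L u1.1) * ((a : L u1.1) * θ u1.1 - r)) < 1 := by
      have e1 : (w : L u1.1) * ((a : L u1.1) * θ u1.1 - r) =
          -((a : L u1.1) * ((x : L u1.1) - w * θ u1.1) + ((w * r - a * x : ℤ) : L u1.1)) := by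
        push_cast; ring
      rw [e1, Valuation.map_neg]
      refine lt_of_le_of_lt (Valuation.map_add _ _ _) (max_lt ?_ (val_int_lt u1.2.2 hr))
      rw [map_mul, mul_comm]
      exact mul_lt_one_of_lt_of_le hlt1 (val_int_le _)
    rw [map_mul, val_int_eq u1.2.2 hw, one_mul] at h1
    exact h1
  · rintro u hne
    have hxv := hoth u hne
    obtain ⟨he0, hgv⟩ := hoff u hne hxv
    have hgne := hg0 u hxv
    have hρ := hval u
    have hal : u.2.1.valuation (L u.1) (α u.1 : L u.1) = 1 := hα u hne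
    have hθu := (hθ u).1
    obtain ⟨k, v, hv⟩ := u
    simp only at hxv hgv hgne hρ hal hθu ⊢
    generalize g k = gk at hgv hgne hρ
    rw [he0, pow_zero, one_mul] at hρ
    have hρ1 : v.valuation (L k) ((x : L k) - w * θ k - (α k : L k) * gk ^ 2) < 1 := by
      refine lt_of_le_of_lt hρ ?_
      rw [← WithZero.exp_zero, WithZero.exp_lt_exp]
      norm_num
    have hwg : v.valuation (L k) ((w : L k) / gk) ≤ 1 := by
      rw [map_div₀, hgv, div_one]
      exact val_int_le w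
    obtain ⟨g', hg'⟩ := HeightOneSpectrum.exists_valuation_sub_lt_of_integer v hwg 1
    rw [Units.val_one] at hg'
    have hg'' : v.valuation (L k) ((g' : L k) - (w : L k) / gk) < 1 := hg'
    refine ⟨g', ?_⟩
    apply hmem
    rw [hcoe, hcoem, hcoem, hcoe, ht, int_coe, int_coe]
    have hg2 : ((g' ^ 2 : 𝓞 (L k)) : L k) = (g' : L k) ^ 2 := map_pow (algebraMap (𝓞 (L k)) (L k)) g' 2
    rw [hg2]
    have hale : v.valuation (L k) (a : L k) ≤ 1 := val_int_le _
    have hwle : v.valuation (L k) (w : L k) ≤ 1 := val_int_le _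
    have htv : v.valuation (L k) ((r : L k) - (a : L k) * θ k) ≤ 1 := by
      refine (Valuation.map_sub _ _ _).trans (max_le (val_int_le r) ?_)
      rw [map_mul]
      exact mul_le_one' hale hθu
    have hg'le : v.valuation (L k) (g' : L k) ≤ 1 := HeightOneSpectrum.valuation_le_one v g'
    have hginv : v.valuation (L k) (gk⁻¹) = 1 := by rw [map_inv₀, hgv, inv_one]
    -- the three small terms
    have t1 : v.valuation (L k) (((w : L k) * gk⁻¹ ^ 2) * ((a : L k) *
        ((x : L k) - w * θ k - (α k : L k) * gk ^ 2))) < 1 := by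
      have e1 : v.valuation (L k) (((w : L k) * gk⁻¹ ^ 2) * ((a : L k) *
        ((x : L k) - w * θ k - (α k : L k) * gk ^ 2))) =
          v.valuation (L k) ((x : L k) - w * θ k - (α k : L k) * gk ^ 2) *
          (v.valuation (L k) (w : L k) * v.valuation (L k) (a : L k)) := by
        rw [map_mul, map_mul, map_mul, map_pow, hginv, one_pow, mul_one, ← mul_assoc, mul_comm]
      rw [e1]
      exact mul_lt_one_of_lt_of_le hρ1 (mul_le_one' hwle hale)
    have t2 : v.valuation (L k) (((w : L k) * gk⁻¹ ^ 2) * ((w * r - a * x : ℤ) : L k)) < 1 := by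
      rw [map_mul, map_mul, map_pow, hginv, one_pow, mul_one, mul_comm]
      exact mul_lt_one_of_lt_of_le (val_int_lt hv hr) hwle
    have t3 : v.valuation (L k) (((g' : L k) - (w : L k) / gk) * (((g' : L k) + (w : L k) / gk) *
        ((r : L k) - (a : L k) * θ k))) < 1 := by
      rw [map_mul]
      refine mul_lt_one_of_lt_of_le hg'' ?_
      rw [map_mul]
      refine mul_le_one' ?_ htv
      exact (Valuation.map_add _ _ _).trans (max_le hg'le hwg)
    have e2 : ((a * w : ℤ) : L k) * (α k : L k) -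
        ((r : L k) - (a : L k) * θ k) * (g' : L k) ^ 2 =
        -((((w : L k) * gk⁻¹ ^ 2) * ((a : L k) *
          ((x : L k) - w * θ k - (α k : L k) * gk ^ 2)) +
        (((w : L k) * gk⁻¹ ^ 2) * ((w * r - a * x : ℤ) : L k))) +
        (((g' : L k) - (w : L k) / gk) * (((g' : L k) + (w : L k) / gk) *
        ((r : L k) - (a : L k) * θ k)))) := by
      have hgi : gk * gk⁻¹ = 1 := mul_inv_cancel₀ hgne
      push_cast
      rw [div_eq_mul_inv]
      linear_combination (-((a : L k) * w * (α k : L k)) * (gk * gk⁻¹ + 1)) * hgi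
    rw [e2, Valuation.map_neg]
    refine lt_of_le_of_lt (Valuation.map_add _ _ _) (max_lt ?_ t3)
    exact lt_of_le_of_lt (Valuation.map_add _ _ _) (max_lt t1 t2)

end Pool.Agent.H11.EM
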