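import Pool.Agent.H11.EM.Bd

/-! Project EM: the upper bound. -/

set_option autoImplicit false
set_option linter.unusedSectionVars false

namespace Pool.Agent.H11.EM

open Polynomial NumberField IsDedekindDomain Finset Filter Topology
open Pool.Agent.Q51.EL (Abv Par N1 pr CovPt Setup hom CurvePt)
open Pool.Agent.W5h36.EL (SR SQ RP)

lemma log_two_le (X : ℕ) (hX : 3 ≤ X) : (Nat.log 2 X : ℝ) + 1 ≤ 3 * Real.log X := by
  have h1 : (1 : ℝ) < Real.log X := Pool.Agent.W262.TW.one_lt_log hX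
  have h2 : (Nat.log 2 X : ℝ) * Real.log 2 ≤ Real.log X := by
    rw [← Real.log_pow]
    apply Real.log_le_log (by positivity)
    exact_mod_cast Nat.pow_log_le_self 2 (by omega : X ≠ 0)
  have h3 : (0.6931471803 : ℝ) < Real.log 2 := Real.log_two_gt_d9
  have h4 : (0 : ℝ) ≤ (Nat.log 2 X : ℝ) := by positivity
  nlinarith

/-- the good part -/
lemma good_exp (C4 C5 ρ η r c ε : ℝ) (m : ℕ) (hm : (m : ℝ) = r - 1) (hC4 : 0 < C4)
    (hρ : 0 ≤ ρ + η) (hη : η ≤ c / 8) (hε0 : 0 < ε) (hε1 : ε ≤ 1 / 2) (hε : ε * (r + c) ≤ c / 2)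
    (X : ℕ) (hX : 3 ≤ X) (G Z : ℝ) (hZ : Real.log Z = Real.log X ^ (1 - ε))
    (hG : G ≤ (ρ + η) * Real.log (Real.log Z) + C5) :
    C4 * X * ((Nat.log 2 X : ℝ) + 1) ^ m * (Real.exp G * Real.log Z ^ (-(r + c))) ≤
      C4 * 3 ^ m * Real.exp C5 * X * Real.log X ^ (ρ - 1 - 3 * c / 8) := by
  have h1 : (1 : ℝ) < Real.log X := Pool.Agent.W262.TW.one_lt_log hX
  have h0 : (0 : ℝ) < Real.log X := by linarith
  have hX0 : (0 : ℝ) < X := by exact_mod_cast (by omega : 0 < X)
  have hlZ : 0 < Real.log Z := by rw [hZ]; positivity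
  have h2 : Real.exp G * Real.log Z ^ (-(r + c)) ≤
      Real.exp C5 * Real.log X ^ ((1 - ε) * (ρ + η - (r + c))) := by
    calc Real.exp G * Real.log Z ^ (-(r + c))
        ≤ Real.exp ((ρ + η) * Real.log (Real.log Z) + C5) * Real.log Z ^ (-(r + c)) :=
          mul_le_mul_of_nonneg_right (Real.exp_le_exp.2 hG) (by positivity)
      _ = Real.exp C5 * Real.log Z ^ (ρ + η - (r + c)) := by
          have e1 : Real.log Z ^ (ρ + η - (r + c)) =
              Real.log Z ^ (ρ + η) * Real.log Z ^ (-(r + c)) := by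
            rw [← Real.rpow_add hlZ]
            congr 1
          rw [e1, Real.exp_add, mul_comm (ρ + η), ← Real.rpow_def_of_pos hlZ]
          ring
      _ = _ := by rw [hZ, ← Real.rpow_mul h0.le]
  have h3 : ((Nat.log 2 X : ℝ) + 1) ^ m ≤ 3 ^ m * Real.log X ^ (r - 1) := by
    rw [← hm, Real.rpow_natCast, ← mul_pow]
    exact pow_le_pow_left₀ (by positivity) (log_two_le X hX) m
  have h4 : Real.log X ^ (r - 1) * Real.log X ^ ((1 - ε) * (ρ + η - (r + c))) ≤
      Real.log X ^ (ρ - 1 - 3 * c / 8) := by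
    rw [← Real.rpow_add h0]
    apply Real.rpow_le_rpow_of_exponent_le h1.le
    nlinarith [mul_nonneg hε0.le hρ]
  calc C4 * X * ((Nat.log 2 X : ℝ) + 1) ^ m * (Real.exp G * Real.log Z ^ (-(r + c)))
      ≤ C4 * X * (3 ^ m * Real.log X ^ (r - 1)) *
          (Real.exp C5 * Real.log X ^ ((1 - ε) * (ρ + η - (r + c)))) :=
        mul_le_mul (mul_le_mul_of_nonneg_left h3 (by positivity)) h2 (by positivity)
          (by positivity)
    _ = C4 * 3 ^ m * Real.exp C5 * X * (Real.log X ^ (r - 1) *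
          Real.log X ^ ((1 - ε) * (ρ + η - (r + c)))) := by ring
    _ ≤ _ := mul_le_mul_of_nonneg_left h4 (by positivity)

/-- the bad part -/
lemma bad_exp (C4 C5 ρ p η κ ε n : ℝ) (hn : 1 ≤ n) (hC4 : 0 < C4) (hp : κ ≤ p)
    (hη0 : 0 < η) (hη : η ≤ ε * κ / 8) (hε0 : 0 < ε)
    (X : ℕ) (hX : 3 ≤ X) (S W : ℝ) (hW : Real.log W = n * Real.log X ^ (1 - ε))
    (hS : S ≤ (ρ - p + η) * Real.log (Real.log X) + (p + η) * Real.log (Real.log W) + C5) :
    C4 * X / Real.log X * Real.exp S ≤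
      C4 * Real.exp ((p + η) * Real.log n + C5) * X * Real.log X ^ (ρ - 1 - 3 * ε * κ / 4) := by
  have h1 : (1 : ℝ) < Real.log X := Pool.Agent.W262.TW.one_lt_log hX
  have h0 : (0 : ℝ) < Real.log X := by linarith
  have hX0 : (0 : ℝ) < X := by exact_mod_cast (by omega : 0 < X)
  have h2 : Real.log (Real.log W) = Real.log n + (1 - ε) * Real.log (Real.log X) := by
    rw [hW, Real.log_mul (by linarith) (by positivity), Real.log_rpow h0]
  have h3 : Real.exp S ≤ Real.exp ((p + η) * Real.log n + C5) *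
      Real.log X ^ (ρ - p + η + (p + η) * (1 - ε)) := by
    rw [Real.rpow_def_of_pos h0, ← Real.exp_add]
    apply Real.exp_le_exp.2
    rw [h2] at hS
    linarith
  have h4 : (Real.log X)⁻¹ * Real.log X ^ (ρ - p + η + (p + η) * (1 - ε)) ≤
      Real.log X ^ (ρ - 1 - 3 * ε * κ / 4) := by
    rw [← Real.rpow_neg_one, ← Real.rpow_add h0]
    apply Real.rpow_le_rpow_of_exponent_le h1.le
    nlinarith [mul_le_mul_of_nonneg_left hp hε0.le, mul_pos hε0 hη0]
  calc C4 * X / Real.log X * Real.exp S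
      ≤ C4 * X / Real.log X * (Real.exp ((p + η) * Real.log n + C5) *
          Real.log X ^ (ρ - p + η + (p + η) * (1 - ε))) :=
        mul_le_mul_of_nonneg_left h3 (by positivity)
    _ = C4 * Real.exp ((p + η) * Real.log n + C5) * X *
          ((Real.log X)⁻¹ * Real.log X ^ (ρ - p + η + (p + η) * (1 - ε))) := by
        rw [div_eq_mul_inv]; ring
    _ ≤ _ := mul_le_mul_of_nonneg_left h4 (by positivity)

end Pool.Agent.H11.EM
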